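import Pool.Agent.Lib.MP_009fd8_agS.Mod4

/-!
MP_009fd8_ag, 2-isogeny descent on y^2 = x (x^2 + a x + 16 c) over an arbitrary number field:
the conditions satisfied by the locally soluble classes.
-/

namespace Pool.Agent.MP009fd8S

open IsDedekindDomain NumberField Pool.Agent.MP009fd8

section Valued

variable {F : Type*} [Field F] {Γ : Type*} [LinearOrderedCommGroupWithZero Γ] (v : Valuation F Γ)

/-- Squares up to smaller terms are closed under products. -/
theorem near_mul (x y g h : F) (hx : v (x - g ^ 2) < v x) (hy : v (y - h ^ 2) < v y) :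
    v (x * y - (g * h) ^ 2) < v (x * y) := by
  have hh : v (h ^ 2) = v y := by
    have e : h ^ 2 = y - (y - h ^ 2) := by ring
    rw [e, Valuation.map_sub_eq_of_lt_left v hy]
  have vx : 0 < v x := lt_of_le_of_lt zero_le hx
  have vy : 0 < v y := lt_of_le_of_lt zero_le hy
  have e : x * y - (g * h) ^ 2 = x * (y - h ^ 2) + (x - g ^ 2) * h ^ 2 := by ring
  rw [e, map_mul v x y]
  refine Valuation.map_add_lt v ?_ ?_
  · rw [map_mul]; exact mul_lt_mul_of_pos_left hy vx
  · rw [map_mul, hh]; exact mul_lt_mul_of_pos_right hx vy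

/-- The same with a fixed precision. -/
theorem near_mul' (x y g h : F) (t : Γ) (ht : t ≤ 1) (hx : v (x - g ^ 2) ≤ t * v x)
    (hy : v (y - h ^ 2) ≤ t * v y) : v (x * y - (g * h) ^ 2) ≤ t * v (x * y) := by
  have hh : v (h ^ 2) ≤ v y := by
    have e : h ^ 2 = y - (y - h ^ 2) := by ring
    rw [e]
    refine Valuation.map_sub_le v le_rfl (hy.trans ?_)
    calc t * v y ≤ 1 * v y := mul_le_mul' ht le_rfl
      _ = _ := one_mul _
  have e : x * y - (g * h) ^ 2 = x * (y - h ^ 2) + (x - g ^ 2) * h ^ 2 := by ring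
  rw [e, map_mul v x y]
  refine Valuation.map_add_le v ?_ ?_
  · rw [map_mul]
    calc v x * v (y - h ^ 2) ≤ v x * (t * v y) := mul_le_mul' le_rfl hy
      _ = _ := by ac_rfl
  · rw [map_mul]
    calc v (x - g ^ 2) * v (h ^ 2) ≤ (t * v x) * v y := mul_le_mul' hx hh
      _ = _ := by ac_rfl

end Valued

/-- Over the reals, second side: the class is positive. -/
theorem real_posB (a c d : ℝ) (hc : c ≠ 0) (hb : a ^ 2 - 64 * c ≠ 0)
    (hI : ¬ (0 < c ∧ (a < 0 ∨ a ^ 2 < 64 * c))) (hd : d ≠ 0)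
    (h : HasPoint (-2 * a) (a ^ 2 - 64 * c) d) : 0 < d := by
  obtain ⟨M, e, N, hne, h1⟩ := h
  by_contra hneg
  have hd' : d < 0 := lt_of_le_of_ne (not_lt.mp hneg) hd
  have hN : d * N ^ 2 ≤ 0 := mul_nonpos_of_nonpos_of_nonneg hd'.le (sq_nonneg N)
  rcases lt_or_gt_of_ne hc with hc' | hc'
  · have h2 : d * N ^ 2 = (d * M ^ 2 - a * e ^ 2) ^ 2 + (-(64 * c)) * e ^ 4 := by
      rw [h1]; ring
    have h3 : 0 ≤ (d * M ^ 2 - a * e ^ 2) ^ 2 := sq_nonneg _
    have h4 : 0 ≤ (-(64 * c)) * e ^ 4 := by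
      have : 0 < -(64 * c) := by linarith
      positivity
    have he : e = 0 := by
      by_contra he
      have : 0 < (-(64 * c)) * e ^ 4 := by
        have : 0 < -(64 * c) := by linarith
        positivity
      linarith
    subst he
    have hM : M ≠ 0 := by simpa using hne
    have h5 : 0 < (d * M ^ 2 - a * 0 ^ 2) ^ 2 := by
      have : d * M ^ 2 - a * 0 ^ 2 ≠ 0 := by
        simp [hd, hM]
      positivity
    linarith
  · have ha : 0 ≤ a ∧ 64 * c ≤ a ^ 2 := by
      by_contra hcon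
      apply hI
      refine ⟨hc', ?_⟩
      by_cases ha : a < 0
      · exact Or.inl ha
      · right
        by_contra h'
        exact hcon ⟨not_lt.mp ha, not_lt.mp h'⟩
    have hb' : 0 < a ^ 2 - 64 * c := lt_of_le_of_ne (by linarith [ha.2]) hb.symm
    have h4 : 0 ≤ d ^ 2 * M ^ 4 := by positivity
    have h5 : 0 ≤ -2 * a * d * M ^ 2 * e ^ 2 := by
      have : 0 ≤ -2 * a * d := by nlinarith [ha.1]
      positivity
    have h6 : 0 ≤ (a ^ 2 - 64 * c) * e ^ 4 := by positivity
    rcases hne with hM | he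
    · have : 0 < d ^ 2 * M ^ 4 := by positivity
      linarith
    · have : 0 < (a ^ 2 - 64 * c) * e ^ 4 := by positivity
      linarith

variable {K : Type*} [Field K] [NumberField K]

/-- Real embeddings of type I for the pair (a, c): c is positive and x^2 + a x + 16 c has no
negative real root. -/
def TypeOne (a c : 𝓞 K) (f : K →+* ℝ) : Prop :=
  0 < f (algebraMap (𝓞 K) K c) ∧
    (f (algebraMap (𝓞 K) K a) < 0 ∨
      f (algebraMap (𝓞 K) K a) ^ 2 < 64 * f (algebraMap (𝓞 K) K c))

/-- d is a square in the completion up to terms smaller than d. -/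
def NearSq (v : HeightOneSpectrum (𝓞 K)) (d : K) : Prop :=
  ∃ g : v.adicCompletion K,
    Valued.v (algebraMap K (v.adicCompletion K) d - g ^ 2) < v.valuation K d

/-- d is a square in the completion up to terms divisible by 4 d. -/
def NearSq4 (v : HeightOneSpectrum (𝓞 K)) (d : K) : Prop :=
  ∃ g : v.adicCompletion K,
    Valued.v (algebraMap K (v.adicCompletion K) d - g ^ 2) ≤ v.valuation K 4 * v.valuation K d

theorem NearSq.mul {v : HeightOneSpectrum (𝓞 K)} {x y : K} (hx : NearSq v x) (hy : NearSq v y) :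
    NearSq v (x * y) := by
  obtain ⟨g, hg⟩ := hx
  obtain ⟨h, hh⟩ := hy
  rw [← val_completion] at hg hh
  refine ⟨g * h, ?_⟩
  rw [← val_completion, map_mul]
  exact near_mul _ _ _ _ _ hg hh

theorem NearSq.sq (v : HeightOneSpectrum (𝓞 K)) {s : K} (hs : s ≠ 0) : NearSq v (s ^ 2) := by
  refine ⟨algebraMap K (v.adicCompletion K) s, ?_⟩
  rw [map_pow, sub_self, map_zero]
  exact zero_lt_iff.mpr ((Valuation.ne_zero_iff _).mpr (pow_ne_zero 2 hs))

theorem val_four_le (v : HeightOneSpectrum (𝓞 K)) : v.valuation K 4 ≤ 1 := by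
  rw [← map_ofNat (algebraMap (𝓞 K) K) 4]; exact v.valuation_le_one _

theorem NearSq4.mul {v : HeightOneSpectrum (𝓞 K)} {x y : K} (hx : NearSq4 v x)
    (hy : NearSq4 v y) : NearSq4 v (x * y) := by
  obtain ⟨g, hg⟩ := hx
  obtain ⟨h, hh⟩ := hy
  rw [← val_completion v x] at hg
  rw [← val_completion v y] at hh
  refine ⟨g * h, ?_⟩
  rw [← val_completion v (x * y), map_mul]
  exact near_mul' _ _ _ _ _ _ (val_four_le v) hg hh

theorem NearSq4.sq (v : HeightOneSpectrum (𝓞 K)) (s : K) : NearSq4 v (s ^ 2) := by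
  refine ⟨algebraMap K (v.adicCompletion K) s, ?_⟩
  rw [map_pow, sub_self, map_zero]
  exact zero_le

/-- The conditions on the classes of the first side. -/
def AdmA (a c : 𝓞 K) (d : K) : Prop :=
  (∀ f : K →+* ℝ, TypeOne a c f → 0 < f d) ∧
    ∀ v : HeightOneSpectrum (𝓞 K), c ∉ v.asIdeal →
      ¬ IsSquare (v.valuation K (algebraMap (𝓞 K) K (a ^ 2 - 64 * c))) → NearSq v d

/-- The conditions on the classes of the second side. -/
def AdmB (a c : 𝓞 K) (d : K) : Prop :=
  (∀ f : K →+* ℝ, ¬ TypeOne a c f → 0 < f d) ∧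
    (∀ v : HeightOneSpectrum (𝓞 K), (2 : 𝓞 K) ∈ v.asIdeal → NearSq4 v d) ∧
    ∀ v : HeightOneSpectrum (𝓞 K), a ^ 2 - 64 * c ∉ v.asIdeal →
      ¬ IsSquare (v.valuation K (algebraMap (𝓞 K) K c)) → NearSq v d

theorem AdmA.mul {a c : 𝓞 K} {x y : K} (hx : AdmA a c x) (hy : AdmA a c y) :
    AdmA a c (x * y) :=
  ⟨fun f hf => by rw [map_mul]; exact mul_pos (hx.1 f hf) (hy.1 f hf),
    fun v h1 h2 => (hx.2 v h1 h2).mul (hy.2 v h1 h2)⟩

theorem AdmA.sq (a c : 𝓞 K) {s : K} (hs : s ≠ 0) : AdmA a c (s ^ 2) :=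
  ⟨fun f _ => by
    rw [map_pow]
    have : f s ≠ 0 := (map_ne_zero f).mpr hs
    positivity, fun v _ _ => NearSq.sq v hs⟩

theorem AdmB.mul {a c : 𝓞 K} {x y : K} (hx : AdmB a c x) (hy : AdmB a c y) :
    AdmB a c (x * y) :=
  ⟨fun f hf => by rw [map_mul]; exact mul_pos (hx.1 f hf) (hy.1 f hf),
    fun v h2 => (hx.2.1 v h2).mul (hy.2.1 v h2),
    fun v h1 h2 => (hx.2.2 v h1 h2).mul (hy.2.2 v h1 h2)⟩

theorem AdmB.sq (a c : 𝓞 K) {s : K} (hs : s ≠ 0) : AdmB a c (s ^ 2) :=
  ⟨fun f _ => by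
    rw [map_pow]
    have : f s ≠ 0 := (map_ne_zero f).mpr hs
    positivity, fun v _ => NearSq4.sq v s, fun v _ _ => NearSq.sq v hs⟩

/-- The locally soluble classes of the first side. -/
theorem admA_of_locSol (a c r : 𝓞 K) (h4 : 4 ∣ a - r ^ 2) (ha : IsCoprime a 2)
    (hc : IsCoprime c 2) (d : K) (hd : d ≠ 0)
    (h : LocSol K (algebraMap (𝓞 K) K a) (algebraMap (𝓞 K) K (16 * c)) d) : AdmA a c d := by
  refine ⟨fun f hf => ?_, fun v hcv hbv => ?_⟩
  · have h2 := h.2 f
    have e : f (algebraMap (𝓞 K) K (16 * c)) = 16 * f (algebraMap (𝓞 K) K c) := by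
      rw [map_mul, map_mul, map_ofNat, map_ofNat]
    rw [e] at h2
    exact real_pos _ _ _ hf.1 hf.2 ((map_ne_zero f).mpr hd) h2
  · have hsq := sideA_val a c r h4 ha hc d hd v (h.1 v) hcv
    have hd' : algebraMap K (v.adicCompletion K) d ≠ 0 := by simpa using hd
    obtain ⟨M, e, N, hne, h1⟩ := h.1 v
    have key := sq_mod (Valued.v : Valuation (v.adicCompletion K) _)
      (algebraMap K (v.adicCompletion K) d) (2 * N)
      (2 * algebraMap K (v.adicCompletion K) d * M ^ 2 +
        algebraMap K (v.adicCompletion K) (algebraMap (𝓞 K) K a) * e ^ 2)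
      (algebraMap K (v.adicCompletion K) (algebraMap (𝓞 K) K (a ^ 2 - 64 * c))) e hd'
      (by rw [val_completion]; exact hsq) (by rw [val_completion]; exact hbv) ?_ ?_
    · obtain ⟨g, hg⟩ := key
      exact ⟨g, by rwa [val_completion v d] at hg⟩
    · by_cases he : e = 0
      · left
        have hM : M ≠ 0 := by
          rcases hne with h' | h'
          · exact h'
          · exact absurd he h'
        rw [he, zero_pow two_ne_zero, mul_zero, add_zero]
        have h20 : (2 : v.adicCompletion K) ≠ 0 := by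
          rw [← algebraMap_two v]; simp
        exact mul_ne_zero (mul_ne_zero h20 hd') (pow_ne_zero 2 hM)
      · exact Or.inr he
    · have e1 : algebraMap K (v.adicCompletion K) (algebraMap (𝓞 K) K (16 * c)) =
          16 * algebraMap K (v.adicCompletion K) (algebraMap (𝓞 K) K c) := by
        rw [map_mul, map_mul, map_ofNat, map_ofNat]
      have e2 : algebraMap K (v.adicCompletion K) (algebraMap (𝓞 K) K (a ^ 2 - 64 * c)) =
          algebraMap K (v.adicCompletion K) (algebraMap (𝓞 K) K a) ^ 2 -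
            64 * algebraMap K (v.adicCompletion K) (algebraMap (𝓞 K) K c) := by
        rw [map_sub, map_sub, map_mul, map_mul, map_pow, map_pow, map_ofNat, map_ofNat]
      rw [e1] at h1
      rw [e2]
      linear_combination 4 * h1

/-- The locally soluble classes of the second side. -/
theorem admB_of_locSol (a c r : 𝓞 K) (h4 : 4 ∣ a - r ^ 2) (ha : IsCoprime a 2)
    (hc0 : c ≠ 0) (hb0 : a ^ 2 - 64 * c ≠ 0) (d : K) (hd : d ≠ 0)
    (h : LocSol K (algebraMap (𝓞 K) K (-2 * a)) (algebraMap (𝓞 K) K (a ^ 2 - 64 * c)) d) :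
    AdmB a c d := by
  have hinj := FaithfulSMul.algebraMap_injective (𝓞 K) K
  refine ⟨fun f hf => ?_, fun v h2v => sideB_two a c r h4 ha d hd v h2v (h.1 v),
    fun v hbv hcv => ?_⟩
  · have h2 := h.2 f
    have e1 : f (algebraMap (𝓞 K) K (-2 * a)) = -2 * f (algebraMap (𝓞 K) K a) := by
      rw [map_mul, map_mul, map_neg, map_neg, map_ofNat, map_ofNat]
    have e2 : f (algebraMap (𝓞 K) K (a ^ 2 - 64 * c)) =
        f (algebraMap (𝓞 K) K a) ^ 2 - 64 * f (algebraMap (𝓞 K) K c) := by
      rw [map_sub, map_sub, map_mul, map_mul, map_pow, map_pow, map_ofNat, map_ofNat]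
    have hb' : f (algebraMap (𝓞 K) K (a ^ 2 - 64 * c)) ≠ 0 := by
      rw [map_ne_zero]
      exact (map_ne_zero_iff _ hinj).mpr hb0
    rw [e1, e2] at h2
    rw [e2] at hb'
    refine real_posB _ _ _ ?_ hb' hf ((map_ne_zero f).mpr hd) h2
    rw [map_ne_zero]
    exact (map_ne_zero_iff _ hinj).mpr hc0
  · have hsq := sideB_val a c d hd v (h.1 v) hbv
    have hd' : algebraMap K (v.adicCompletion K) d ≠ 0 := by simpa using hd
    obtain ⟨M, e, N, hne, h1⟩ := h.1 v
    have key := sq_mod (Valued.v : Valuation (v.adicCompletion K) _)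
      (algebraMap K (v.adicCompletion K) d) N
      (algebraMap K (v.adicCompletion K) d * M ^ 2 -
        algebraMap K (v.adicCompletion K) (algebraMap (𝓞 K) K a) * e ^ 2)
      (algebraMap K (v.adicCompletion K) (algebraMap (𝓞 K) K (8 ^ 2 * c))) e hd'
      (by rw [val_completion]; exact hsq) ?_ ?_ ?_
    · obtain ⟨g, hg⟩ := key
      exact ⟨g, by rwa [val_completion v d] at hg⟩
    · rw [val_completion, map_mul, map_mul]
      intro hcon
      apply hcv
      have h8 : v.valuation K (algebraMap (𝓞 K) K (8 ^ 2)) ≠ 0 := by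
        rw [Valuation.ne_zero_iff]
        exact (map_ne_zero_iff _ hinj).mpr (by norm_num)
      have h9 : IsSquare (v.valuation K (algebraMap (𝓞 K) K (8 ^ 2))) := by
        rw [map_pow, map_pow]; exact IsSquare.sq _
      have e : v.valuation K (algebraMap (𝓞 K) K c) =
          (v.valuation K (algebraMap (𝓞 K) K (8 ^ 2)) * v.valuation K (algebraMap (𝓞 K) K c)) /
            v.valuation K (algebraMap (𝓞 K) K (8 ^ 2)) := by
        rw [mul_div_cancel_left₀ _ h8]
      rw [e]
      exact hcon.div h9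
    · by_cases he : e = 0
      · left
        have hM : M ≠ 0 := by
          rcases hne with h' | h'
          · exact h'
          · exact absurd he h'
        rw [he, zero_pow two_ne_zero, mul_zero, sub_zero]
        exact mul_ne_zero hd' (pow_ne_zero 2 hM)
      · exact Or.inr he
    · have e1 : algebraMap K (v.adicCompletion K) (algebraMap (𝓞 K) K (-2 * a)) =
          -2 * algebraMap K (v.adicCompletion K) (algebraMap (𝓞 K) K a) := by
        rw [map_mul, map_mul, map_neg, map_neg, map_ofNat, map_ofNat]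
      have e2 : algebraMap K (v.adicCompletion K) (algebraMap (𝓞 K) K (a ^ 2 - 64 * c)) =
          algebraMap K (v.adicCompletion K) (algebraMap (𝓞 K) K a) ^ 2 -
            64 * algebraMap K (v.adicCompletion K) (algebraMap (𝓞 K) K c) := by
        rw [map_sub, map_sub, map_mul, map_mul, map_pow, map_pow, map_ofNat, map_ofNat]
      have e3 : algebraMap K (v.adicCompletion K) (algebraMap (𝓞 K) K (8 ^ 2 * c)) =
          64 * algebraMap K (v.adicCompletion K) (algebraMap (𝓞 K) K c) := by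
        rw [map_mul, map_mul, map_pow, map_pow, map_ofNat, map_ofNat]
        norm_num
      rw [e1, e2] at h1
      rw [e3]
      linear_combination h1

end Pool.Agent.MP009fd8S
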