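import Pool.Agent.Lib.MP_009fd8_agS.Local

/-!
MP_009fd8_ag, 2-isogeny descent on y^2 = x (x^2 + a x + 16 c): the places above 2.
-/

namespace Pool.Agent.MP009fd8S

variable {F : Type*} [Field F] {Γ : Type*} [LinearOrderedCommGroupWithZero Γ] (v : Valuation F Γ)

private theorem sq_aux2 {x s r : Γ} (h : x * s = r) (hs : s ≠ 0) (h1 : IsSquare s)
    (h2 : IsSquare r) : IsSquare x := by
  have e : x = r / s := eq_div_of_mul_eq hs h
  rw [e]
  exact h2.div h1

/-- If w^2 - r^2 = z with v(r) = 1 and v(4) < v(z) then v(z) is a square in the value group. -/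
theorem isSquare_of_sub_sq (w r z : F) (hr : v r = 1) (h : w ^ 2 - r ^ 2 = z)
    (hz : v 2 ^ 2 < v z) : IsSquare (v z) := by
  have h1 : z = (w - r) * ((w - r) + 2 * r) := by rw [← h]; ring
  have h2r : v (2 * r) = v 2 := by rw [map_mul, hr, mul_one]
  rcases lt_trichotomy (v (w - r)) (v 2) with hlt | heq | hgt
  · exfalso
    have h3 : v ((w - r) + 2 * r) = v 2 := by
      rw [Valuation.map_add_eq_of_lt_right v (by rw [h2r]; exact hlt), h2r]
    have h4 : v z ≤ v 2 ^ 2 := by
      rw [h1, map_mul, h3, pow_two]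
      gcongr
    exact absurd h4 (not_le.mpr hz)
  · exfalso
    have h3 : v ((w - r) + 2 * r) ≤ v 2 :=
      Valuation.map_add_le v heq.le h2r.le
    have h4 : v z ≤ v 2 ^ 2 := by
      rw [h1, map_mul, heq, pow_two]
      gcongr
    exact absurd h4 (not_le.mpr hz)
  · have h3 : v ((w - r) + 2 * r) = v (w - r) :=
      Valuation.map_add_eq_of_lt_left v (by rw [h2r]; exact hgt)
    exact ⟨v (w - r), by rw [h1, map_mul, h3]⟩

/-- Key point of the even valuations at the places above 2. -/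
theorem key_two (a c r w R S : F) (ha : v a = 1) (hc : v c = 1) (hr : v r = 1)
    (har : v (a - r ^ 2) ≤ v 2 ^ 2) (hw : w ^ 2 = a * (1 + R + S)) (hRS : R * S = 16 * c / a ^ 2)
    (hR : ¬ IsSquare (v R)) (hle : v S ≤ v R) : False := by
  have hS1 : v R * v S = v 2 ^ 4 := by
    rw [← map_mul, hRS, map_div₀, map_mul, hc, map_pow, ha, one_pow, div_one, mul_one,
      show (16 : F) = 2 ^ 4 by norm_num, map_pow]
  have h20 : v 2 ^ 4 ≤ v R ^ 2 := by
    rw [← hS1, pow_two]
    gcongr
  have h21 : v 2 ^ 2 ≤ v R := by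
    have : (v 2 ^ 2) ^ 2 ≤ v R ^ 2 := by rw [← pow_mul]; exact h20
    exact (pow_le_pow_iff_left₀ zero_le zero_le two_ne_zero).mp this
  have h22 : v 2 ^ 2 < v R := lt_of_le_of_ne h21 (fun h => hR (h ▸ IsSquare.sq _))
  have hSR : v S < v R := by
    refine lt_of_le_of_ne hle (fun h => ?_)
    rw [h, ← pow_two] at hS1
    have : v R ^ 2 = (v 2 ^ 2) ^ 2 := by rw [hS1, ← pow_mul]
    have h3 : v R = v 2 ^ 2 := (pow_left_inj₀ zero_le zero_le two_ne_zero).mp this
    exact h22.ne' h3
  set z := w ^ 2 - r ^ 2 with hz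
  have e1 : z = a * R + ((a - r ^ 2) + a * S) := by rw [hz, hw]; ring
  have hvz : v z = v R := by
    rw [e1]
    have e2 : v (a * R) = v R := by rw [map_mul, ha, one_mul]
    rw [Valuation.map_add_eq_of_lt_left v, e2]
    rw [e2]
    refine Valuation.map_add_lt v (lt_of_le_of_lt har h22) ?_
    rw [map_mul, ha, one_mul]
    exact hSR
  have := isSquare_of_sub_sq v w r z hr hz.symm (by rw [hvz]; exact h22)
  rw [hvz] at this
  exact hR this

/-- Places above 2, first side: a point on C_d forces v(d) to be a square. -/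
theorem isSquare_two (a c r d : F) (h2 : v 2 < 1) (ha : v a = 1) (hc : v c = 1)
    (hr : v r = 1) (har : v (a - r ^ 2) ≤ v 2 ^ 2) (hd : d ≠ 0)
    (h20 : (2 : F) ≠ 0) (h : HasPoint a (16 * c) d) : IsSquare (v d) := by
  obtain ⟨M, e, N, hne, h1⟩ := h
  by_contra hns
  have vd : v d ≠ 0 := (Valuation.ne_zero_iff v).2 hd
  have v20 : v 2 ≠ 0 := (Valuation.ne_zero_iff v).2 h20
  have hsq : ∀ x : Γ, IsSquare (x ^ 2) := fun x => IsSquare.sq x
  have hsq4 : ∀ x : Γ, IsSquare (x ^ 4) := fun x => ⟨x ^ 2, by rw [← pow_add]⟩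
  have h16 : v (16 * c) = v 2 ^ 4 := by
    rw [map_mul, hc, mul_one, show (16 : F) = 2 ^ 4 by norm_num, map_pow]
  have c0 : c ≠ 0 := fun h => by rw [h, map_zero] at hc; exact zero_ne_one hc
  have a0 : a ≠ 0 := fun h => by rw [h, map_zero] at ha; exact zero_ne_one ha
  have eL : v (d * N ^ 2) = v d * v N ^ 2 := by rw [map_mul, map_pow]
  -- M and e are nonzero
  have hM : M ≠ 0 := by
    rintro rfl
    have he : e ≠ 0 := by simpa using hne
    have h3 : d * N ^ 2 = 16 * c * e ^ 4 := by rw [h1]; ring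
    have h4 : v d * v N ^ 2 = v 2 ^ 4 * v e ^ 4 := by rw [← eL, h3, map_mul, h16, map_pow]
    have hN : v N ^ 2 ≠ 0 := by
      intro h0
      rw [h0, mul_zero] at h4
      exact mul_ne_zero (pow_ne_zero 4 v20) (pow_ne_zero 4 ((Valuation.ne_zero_iff v).2 he)) h4.symm
    exact hns (sq_aux2 h4 hN (hsq _) ((hsq4 _).mul (hsq4 _)))
  have he : e ≠ 0 := by
    rintro rfl
    have h3 : d * N ^ 2 = d ^ 2 * M ^ 4 := by rw [h1]; ring
    have h4 : N ^ 2 = d * M ^ 4 := by
      apply mul_left_cancel₀ hd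
      rw [h3]; ring
    have h5 : v d * v M ^ 4 = v N ^ 2 := by rw [← map_pow, ← map_pow, ← map_mul, h4]
    exact hns (sq_aux2 h5 (pow_ne_zero 4 ((Valuation.ne_zero_iff v).2 hM)) (hsq4 _) (hsq _))
  have vM : v M ≠ 0 := (Valuation.ne_zero_iff v).2 hM
  have ve : v e ≠ 0 := (Valuation.ne_zero_iff v).2 he
  set R := d * M ^ 2 / (a * e ^ 2) with hR
  set S := 16 * c * e ^ 2 / (a * d * M ^ 2) with hS
  set w := N / (M * e) with hw
  have hw2 : w ^ 2 = a * (1 + R + S) := by
    have : N ^ 2 = d * M ^ 4 + a * M ^ 2 * e ^ 2 + 16 * c / d * e ^ 4 := by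
      apply mul_left_cancel₀ hd
      rw [h1]
      field_simp
    rw [hw, hR, hS, div_pow, this]
    field_simp
    ring
  have hRS : R * S = 16 * c / a ^ 2 := by
    rw [hR, hS]
    field_simp
  have hSR : S * R = 16 * c / a ^ 2 := by rw [mul_comm]; exact hRS
  have hvR : v R = v d * (v M / v e) ^ 2 := by
    rw [hR, map_div₀, map_mul, map_mul, ha, one_mul, map_pow, map_pow, div_pow, mul_div_assoc]
  have hvS : v S * v d = (v 2 ^ 2 * v e / v M) ^ 2 := by
    rw [hS, map_div₀, map_mul, h16, map_mul, map_mul, ha, one_mul, map_pow, map_pow]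
    field_simp
  have hRns : ¬ IsSquare (v R) := by
    intro h
    rw [hvR] at h
    exact hns (sq_aux2 rfl (pow_ne_zero 2 (div_ne_zero vM ve)) (hsq _) h)
  have hSns : ¬ IsSquare (v S) := by
    intro h
    apply hns
    rw [mul_comm] at hvS
    refine sq_aux2 hvS ?_ h (hsq _)
    intro h0
    rw [h0, mul_zero] at hvS
    exact pow_ne_zero 2 (div_ne_zero (mul_ne_zero (pow_ne_zero 2 v20) ve) vM) hvS.symm
  have hvRS : v R * v S = v 2 ^ 4 := by
    rw [← map_mul, hRS, map_div₀, h16, map_pow, ha, one_pow, div_one]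
  have h24 : v 2 ^ 4 < 1 := pow_lt_one₀ zero_le h2 (by norm_num)
  -- dominated cases
  have dom : ∀ R S : F, w ^ 2 = a * (1 + R + S) → v R * v S = v 2 ^ 4 → ¬ IsSquare (v R) →
      1 < v R → False := by
    intro R S hw2 hvRS hRns hR1
    have hS1 : v S < v R := by
      by_contra hcon
      have h3 : v R ≤ v S := not_lt.mp hcon
      have : 1 < v R * v S := one_lt_mul_of_lt_of_le' hR1 (hR1.le.trans h3)
      rw [hvRS] at this
      exact absurd this (not_lt.mpr h24.le)
    have h3 : v (w ^ 2) = v R := by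
      rw [hw2, map_mul, ha, one_mul, add_comm (1 : F) R, add_assoc]
      apply Valuation.map_add_eq_of_lt_left
      refine Valuation.map_add_lt v ?_ hS1
      rw [map_one]; exact hR1
    apply hRns
    rw [← h3, map_pow]
    exact hsq _
  rcases lt_trichotomy (v R) 1 with hR1 | hR1 | hR1
  · rcases lt_trichotomy (v S) 1 with hS1 | hS1 | hS1
    · rcases le_total (v S) (v R) with hle | hle
      · exact key_two v a c r w R S ha hc hr har hw2 hRS hRns hle
      · refine key_two v a c r w S R ha hc hr har ?_ hSR hSns hle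
        rw [hw2]; ring
    · exact hSns (hS1 ▸ ⟨1, by simp⟩)
    · refine dom S R ?_ (by rw [mul_comm]; exact hvRS) hSns hS1
      rw [hw2]; ring
  · exact hRns (hR1 ▸ ⟨1, by simp⟩)
  · exact dom R S hw2 hvRS hRns hR1

/-- Places above 2, second side: a point on the covering of the isogenous curve forces d to be a
square mod 4. -/
theorem sq_mod_four (a c r d : F) (h2 : v 2 < 1) (ha : v a = 1) (hc : v c ≤ 1)
    (har : v (a - r ^ 2) ≤ v 2 ^ 2) (hd : d ≠ 0)
    (h : HasPoint (-2 * a) (a ^ 2 - 64 * c) d) : ∃ g : F, v (d - g ^ 2) ≤ v 2 ^ 2 * v d := by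
  obtain ⟨M, e, N, hne, h1⟩ := h
  have vd : v d ≠ 0 := (Valuation.ne_zero_iff v).2 hd
  set X := d * M ^ 2 - a * e ^ 2 with hX
  have h3 : d * N ^ 2 = X ^ 2 - 64 * c * e ^ 4 := by rw [h1, hX]; ring
  have v64 : v (64 * c * e ^ 4) = v 2 ^ 6 * v c * v e ^ 4 := by
    rw [map_mul, map_mul, map_pow, show (64 : F) = 2 ^ 6 by norm_num, map_pow]
  have h22 : v 2 ^ 2 < 1 := pow_lt_one₀ zero_le h2 two_ne_zero
  rcases le_or_gt (v (64 * c * e ^ 4)) (v 2 ^ 2 * v X ^ 2) with hcase | hcase
  · by_cases hX0 : X = 0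
    · -- then d = a (e / M)^2 exactly
      have hM : M ≠ 0 := by
        rintro rfl
        have he : e ≠ 0 := by simpa using hne
        have : a * e ^ 2 = 0 := by
          have : X = - (a * e ^ 2) := by rw [hX]; ring
          rw [hX0] at this
          exact neg_eq_zero.mp this.symm
        rcases mul_eq_zero.mp this with h | h
        · rw [h, map_zero] at ha; exact zero_ne_one ha
        · exact he (pow_eq_zero_iff two_ne_zero |>.1 h)
      have hda : d = a * (e / M) ^ 2 := by
        have : d * M ^ 2 = a * e ^ 2 := by linear_combination hX0 - hX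
        field_simp
        exact this
      refine ⟨r * (e / M), ?_⟩
      have e1 : d - (r * (e / M)) ^ 2 = (a - r ^ 2) * (e / M) ^ 2 := by
        rw [hda]; ring
      have e2 : v d = v (e / M) ^ 2 := by rw [hda, map_mul, ha, one_mul, map_pow]
      rw [e1, map_mul, e2, map_pow]
      gcongr
    · have vX : v X ≠ 0 := (Valuation.ne_zero_iff v).2 hX0
      have vX2 : 0 < v X ^ 2 := zero_lt_iff.mpr (pow_ne_zero 2 vX)
      have hlt : v (64 * c * e ^ 4) < v (X ^ 2) := by
        refine lt_of_le_of_lt hcase ?_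
        rw [map_pow]
        calc v 2 ^ 2 * v X ^ 2 < 1 * v X ^ 2 := mul_lt_mul_of_pos_right h22 vX2
          _ = _ := one_mul _
      have h4 : v d * v N ^ 2 = v X ^ 2 := by
        rw [← map_pow, ← map_mul, h3, Valuation.map_sub_eq_of_lt_left v hlt, map_pow]
      have hN : N ≠ 0 := by
        rintro rfl
        rw [map_zero, zero_pow two_ne_zero, mul_zero] at h4
        exact vX2.ne h4
      have vN : v N ≠ 0 := (Valuation.ne_zero_iff v).2 hN
      refine ⟨X / N, ?_⟩
      have e1 : d - (X / N) ^ 2 = - (64 * c * e ^ 4) / N ^ 2 := by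
        field_simp
        linear_combination h3
      rw [e1, map_div₀, Valuation.map_neg, map_pow]
      have e2 : v d = v X ^ 2 / v N ^ 2 := eq_div_of_mul_eq (pow_ne_zero 2 vN) h4
      rw [e2, ← mul_div_assoc]
      exact div_le_div_of_nonneg_right hcase zero_le
  · -- v X is small
    have he : e ≠ 0 := by
      rintro rfl
      rw [zero_pow (by norm_num), mul_zero, map_zero] at hcase
      exact absurd hcase (not_lt.mpr zero_le)
    have ve : v e ≠ 0 := (Valuation.ne_zero_iff v).2 he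
    have v20 : v 2 ≠ 0 := by
      intro h0
      rw [v64, h0, zero_pow (n := 6) (by norm_num), zero_mul, zero_mul] at hcase
      exact absurd hcase (not_lt.mpr zero_le)
    have h5 : v X < v 2 ^ 2 * v e ^ 2 := by
      have h6 : v 2 ^ 2 * v X ^ 2 < v 2 ^ 2 * (v 2 ^ 2 * v e ^ 2) ^ 2 := by
        refine lt_of_lt_of_le hcase ?_
        rw [v64]
        calc v 2 ^ 6 * v c * v e ^ 4 ≤ v 2 ^ 6 * 1 * v e ^ 4 := by gcongr
          _ = v 2 ^ 2 * (v 2 ^ 2 * v e ^ 2) ^ 2 := by
            rw [mul_one, mul_pow, ← pow_mul, ← pow_mul, ← mul_assoc, ← pow_add]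
      have h7 : v X ^ 2 < (v 2 ^ 2 * v e ^ 2) ^ 2 :=
        lt_of_mul_lt_mul_left h6 zero_le
      exact lt_of_pow_lt_pow_left₀ 2 zero_le h7
    have hXe : v X < v e ^ 2 := by
      refine lt_trans h5 ?_
      calc v 2 ^ 2 * v e ^ 2 < 1 * v e ^ 2 :=
            mul_lt_mul_of_pos_right h22 (zero_lt_iff.mpr (pow_ne_zero 2 ve))
        _ = _ := one_mul _
    have hdM : d * M ^ 2 = a * e ^ 2 + X := by rw [hX]; ring
    have h8 : v d * v M ^ 2 = v e ^ 2 := by
      have e1 : v (a * e ^ 2) = v e ^ 2 := by rw [map_mul, ha, one_mul, map_pow]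
      rw [← map_pow, ← map_mul, hdM, Valuation.map_add_eq_of_lt_left v (by rw [e1]; exact hXe), e1]
    have hM : M ≠ 0 := by
      rintro rfl
      rw [map_zero, zero_pow two_ne_zero, mul_zero] at h8
      exact pow_ne_zero 2 ve h8.symm
    have vM : v M ≠ 0 := (Valuation.ne_zero_iff v).2 hM
    refine ⟨r * (e / M), ?_⟩
    have e1 : d - (r * (e / M)) ^ 2 = (a - r ^ 2) * (e / M) ^ 2 + X / M ^ 2 := by
      field_simp
      linear_combination hdM
    have e2 : v d = v e ^ 2 / v M ^ 2 := eq_div_of_mul_eq (pow_ne_zero 2 vM) h8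
    rw [e1]
    refine Valuation.map_add_le v ?_ ?_
    · rw [map_mul, map_pow, map_div₀, e2, div_pow]
      gcongr
    · rw [map_div₀, map_pow, e2, ← mul_div_assoc]
      exact div_le_div_of_nonneg_right h5.le zero_le

/-- A place outside 2 where the constant T has odd valuation: d is a square mod v. -/
theorem sq_mod (d y X T e : F) (hd : d ≠ 0) (hdv : IsSquare (v d)) (hT : ¬ IsSquare (v T))
    (hne : X ≠ 0 ∨ e ≠ 0) (h : d * y ^ 2 = X ^ 2 - T * e ^ 4) : ∃ g : F, v (d - g ^ 2) < v d := by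
  have vd : v d ≠ 0 := (Valuation.ne_zero_iff v).2 hd
  have hsq : ∀ x : Γ, IsSquare (x ^ 2) := fun x => IsSquare.sq x
  have hT0 : v T ≠ 0 := fun h => hT (h ▸ ⟨0, by simp⟩)
  have hlt : v (T * e ^ 4) < v (X ^ 2) := by
    by_cases he : e = 0
    · have hX : X ≠ 0 := by
        rcases hne with h | h
        · exact h
        · exact absurd he h
      rw [he, zero_pow (by norm_num), mul_zero, map_zero]
      exact zero_lt_iff.mpr ((Valuation.ne_zero_iff v).2 (pow_ne_zero 2 hX))
    · have ve : v e ≠ 0 := (Valuation.ne_zero_iff v).2 he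
      have hTe : ¬ IsSquare (v (T * e ^ 4)) := by
        intro h
        rw [map_mul, map_pow] at h
        exact hT (sq_aux2 rfl (pow_ne_zero 4 ve) ⟨v e ^ 2, by rw [← pow_add]⟩ h)
      rcases lt_trichotomy (v (T * e ^ 4)) (v (X ^ 2)) with h1 | h1 | h1
      · exact h1
      · exact absurd (by rw [h1, map_pow]; exact hsq _) hTe
      · exfalso
        have h2 : v (d * y ^ 2) = v (T * e ^ 4) := by
          rw [h, Valuation.map_sub_eq_of_lt_right v h1]
        apply hTe
        rw [← h2, map_mul, map_pow]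
        exact hdv.mul (hsq _)
  have h4 : v d * v y ^ 2 = v X ^ 2 := by
    rw [← map_pow, ← map_mul, h, Valuation.map_sub_eq_of_lt_left v hlt, map_pow]
  have hX0 : v X ^ 2 ≠ 0 := by
    rw [← map_pow]
    exact (lt_of_le_of_lt zero_le hlt).ne'
  have hy : y ≠ 0 := by
    rintro rfl
    rw [map_zero, zero_pow two_ne_zero, mul_zero] at h4
    exact hX0 h4.symm
  have vy : v y ≠ 0 := (Valuation.ne_zero_iff v).2 hy
  refine ⟨X / y, ?_⟩
  have e1 : d - (X / y) ^ 2 = - (T * e ^ 4) / y ^ 2 := by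
    field_simp
    linear_combination h
  have e2 : v d = v X ^ 2 / v y ^ 2 := eq_div_of_mul_eq (pow_ne_zero 2 vy) h4
  rw [e1, map_div₀, Valuation.map_neg, e2, map_pow]
  rw [map_pow] at hlt
  exact div_lt_div_of_pos_right hlt (zero_lt_iff.mpr (pow_ne_zero 2 vy))

end Pool.Agent.MP009fd8S
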