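import Mathlib

/-!
MP_009fd8_ag, definitions for the 2-isogeny descent on the curves y^2 = x (x^2 + A x + B).
-/

namespace Pool.Agent.MP009fd8S

open IsDedekindDomain NumberField

/-- The 2-isogeny covering N^2 = d M^4 + A M^2 e^2 + (B / d) e^4 of y^2 = x (x^2 + A x + B) has a
point over the field F (with the equation multiplied by d). -/
def HasPoint {F : Type*} [Field F] (A B d : F) : Prop :=
  ∃ M e N : F, (M ≠ 0 ∨ e ≠ 0) ∧
    d * N ^ 2 = d ^ 2 * M ^ 4 + A * d * M ^ 2 * e ^ 2 + B * e ^ 4

/-- The covering of class d of y^2 = x (x^2 + A x + B) has a point over every completion of K at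
a finite place and over the real numbers for every real embedding of K. -/
def LocSol (K : Type*) [Field K] [NumberField K] (A B d : K) : Prop :=
  (∀ v : HeightOneSpectrum (𝓞 K),
    HasPoint (algebraMap K (v.adicCompletion K) A) (algebraMap K (v.adicCompletion K) B)
      (algebraMap K (v.adicCompletion K) d)) ∧
  ∀ f : K →+* ℝ, HasPoint (f A) (f B) (f d)

variable {K : Type*} [Field K] [NumberField K]

/-- The ideal generated by x is the unit ideal or an odd power of one prime ideal. -/
def OnePlace (x : 𝓞 K) : Prop :=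
  ∀ v : HeightOneSpectrum (𝓞 K), x ∈ v.asIdeal →
    ¬ IsSquare (v.valuation K (algebraMap (𝓞 K) K x)) ∧
      ∀ w : HeightOneSpectrum (𝓞 K), x ∈ w.asIdeal → w = v

end Pool.Agent.MP009fd8S
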