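import Pool.Agent.Lib.MP_009fd8_agS.Local

/-!
MP_009fd8_ag, 2-isogeny descent: the classes whose covering has a point form a group (the image
of the descent map is closed under products).
-/

namespace Pool.Agent.MP009fd8S

variable {F : Type*} [Field F]

/-- Rescaling by squares. -/
theorem HasPoint.mul_sq {A B d r : F} (hr : r ≠ 0) (h : HasPoint A B d) :
    HasPoint A B (d * r ^ 2) := by
  obtain ⟨M, e, N, h0, h1⟩ := h
  refine ⟨M, r * e, r * N, ?_, ?_⟩
  · rcases h0 with h0 | h0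
    · exact Or.inl h0
    · exact Or.inr (mul_ne_zero hr h0)
  · linear_combination (r ^ 4) * h1

theorem HasPoint.of_mul_sq {A B d r : F} (hr : r ≠ 0) (h : HasPoint A B (d * r ^ 2)) :
    HasPoint A B d := by
  have h1 := h.mul_sq (inv_ne_zero hr)
  have h2 : d * r ^ 2 * r⁻¹ ^ 2 = d := by field_simp
  rwa [h2] at h1

/-- The class of a square. -/
theorem hasPoint_one (A B : F) : HasPoint A B 1 :=
  ⟨1, 0, 1, Or.inl one_ne_zero, by ring⟩

/-- Translation by (0, 0). -/
theorem HasPoint.mul_B {A B d : F} (hd : d ≠ 0) (h : HasPoint A B d) :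
    HasPoint A B (B * d) := by
  obtain ⟨M, e, N, h0, h1⟩ := h
  refine ⟨e, d * M, d * N, ?_, ?_⟩
  · rcases h0 with h0 | h0
    · exact Or.inr (mul_ne_zero hd h0)
    · exact Or.inl h0
  · linear_combination (B * d ^ 2) * h1

theorem hasPoint_B (A B : F) : HasPoint A B B := by
  have := (hasPoint_one A B).mul_B one_ne_zero
  rwa [mul_one] at this

/-- The class of a point (x, y) with x nonzero. -/
theorem hasPoint_of_point {A B x y : F} (hx : x ≠ 0) (h : y ^ 2 = x * (x ^ 2 + A * x + B)) :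
    HasPoint A B x := by
  refine ⟨1, 1, y / x, Or.inl one_ne_zero, ?_⟩
  rw [div_pow, h]
  field_simp

/-- A covering with a point gives a square, B times a square, or a point of the curve. -/
theorem HasPoint.cases {A B d : F} (hd : d ≠ 0) (hB : B ≠ 0) (h : HasPoint A B d) :
    (∃ r : F, r ≠ 0 ∧ d = 1 * r ^ 2) ∨ (∃ r : F, r ≠ 0 ∧ d = B * r ^ 2) ∨
      ∃ x y r : F, x ≠ 0 ∧ r ≠ 0 ∧ d = x * r ^ 2 ∧ y ^ 2 = x * (x ^ 2 + A * x + B) := by
  obtain ⟨M, e, N, h0, h1⟩ := h
  by_cases he : e = 0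
  · subst he
    have hM : M ≠ 0 := by simpa using h0
    have h2 : N ^ 2 = d * M ^ 4 := by
      apply mul_left_cancel₀ hd
      rw [h1]; ring
    have hN : N ≠ 0 := by
      rintro rfl
      apply mul_ne_zero hd (pow_ne_zero 4 hM)
      rw [← h2]; ring
    refine Or.inl ⟨N / M ^ 2, div_ne_zero hN (pow_ne_zero 2 hM), ?_⟩
    rw [div_pow, h2]
    field_simp
  · by_cases hM : M = 0
    · subst hM
      have h2 : d * N ^ 2 = B * e ^ 4 := by rw [h1]; ring
      have hN : N ≠ 0 := by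
        rintro rfl
        apply mul_ne_zero hB (pow_ne_zero 4 he)
        rw [← h2]; ring
      refine Or.inr (Or.inl ⟨e ^ 2 / N, div_ne_zero (pow_ne_zero 2 he) hN, ?_⟩)
      field_simp
      linear_combination h2
    · refine Or.inr (Or.inr ⟨d * M ^ 2 / e ^ 2, d * M * N / e ^ 3, e / M, ?_, ?_, ?_, ?_⟩)
      · exact div_ne_zero (mul_ne_zero hd (pow_ne_zero 2 hM)) (pow_ne_zero 2 he)
      · exact div_ne_zero he hM
      · field_simp
      · field_simp
        linear_combination (e ^ 0) * h1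

/-- The line through two points. -/
theorem hasPoint_mul_of_points {A B x1 y1 x2 y2 : F} (hx1 : x1 ≠ 0) (hx2 : x2 ≠ 0)
    (h1 : y1 ^ 2 = x1 * (x1 ^ 2 + A * x1 + B)) (h2 : y2 ^ 2 = x2 * (x2 ^ 2 + A * x2 + B)) :
    HasPoint A B (x1 * x2) := by
  by_cases hx : x1 = x2
  · subst hx
    have := (hasPoint_one A B).mul_sq hx1
    rwa [one_mul, sq] at this
  · have hx' : x1 - x2 ≠ 0 := sub_ne_zero.mpr hx
    obtain ⟨l, hl⟩ : ∃ l, l = (y1 - y2) / (x1 - x2) := ⟨_, rfl⟩
    obtain ⟨n, hn⟩ : ∃ n, n = y1 - l * x1 := ⟨_, rfl⟩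
    have hl' : l * (x1 - x2) = y1 - y2 := by rw [hl]; field_simp
    have hy1 : y1 = l * x1 + n := by rw [hn]; ring
    have hy2 : y2 = l * x2 + n := by linear_combination hy1 + hl'
    obtain ⟨x3, hx3⟩ : ∃ x3, x3 = l ^ 2 - A - x1 - x2 := ⟨_, rfl⟩
    rw [hy1] at h1
    rw [hy2] at h2
    have hlin : B - 2 * l * n = x1 * x2 + x3 * (x1 + x2) := by
      apply mul_left_cancel₀ hx'
      rw [hx3]
      linear_combination h2 - h1
    have hprod : x1 * x2 * x3 = n ^ 2 := by
      rw [hx3] at hlin ⊢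
      linear_combination (-x1) * hlin - h1
    have h3 : (l * x3 + n) ^ 2 = x3 * (x3 ^ 2 + A * x3 + B) := by
      have hA : A = l ^ 2 - x1 - x2 - x3 := by rw [hx3]; ring
      rw [hA]
      linear_combination (-1 : F) * hprod - x3 * hlin
    by_cases hn0 : n = 0
    · rw [hn0] at hprod hlin
      have hx30 : x3 = 0 := by
        rcases mul_eq_zero.1 (hprod.trans (by ring : (0 : F) ^ 2 = 0)) with h | h
        · exact absurd h (mul_ne_zero hx1 hx2)
        · exact h
      have hB : B = x1 * x2 := by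
        rw [hx30] at hlin
        linear_combination hlin
      rw [← hB]
      exact hasPoint_B A B
    · have hx30 : x3 ≠ 0 := by
        rintro h
        rw [h, mul_zero] at hprod
        exact pow_ne_zero 2 hn0 hprod.symm
      have h4 := (hasPoint_of_point hx30 h3).mul_sq (div_ne_zero hn0 hx30)
      have h5 : x3 * (n / x3) ^ 2 = x1 * x2 := by
        rw [div_pow, ← hprod]
        field_simp
      rwa [h5] at h4

/-- The classes whose covering has a point are closed under products. -/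
theorem HasPoint.mul {A B d1 d2 : F} (hB : B ≠ 0) (hd1 : d1 ≠ 0) (hd2 : d2 ≠ 0)
    (h1 : HasPoint A B d1) (h2 : HasPoint A B d2) : HasPoint A B (d1 * d2) := by
  rcases h1.cases hd1 hB with ⟨r, hr, e1⟩ | ⟨r, hr, e1⟩ | ⟨x1, y1, r1, hx1, hr1, e1, p1⟩
  · have h3 := h2.mul_sq hr
    rwa [show d2 * r ^ 2 = d1 * d2 by rw [e1]; ring] at h3
  · have h3 := (h2.mul_B hd2).mul_sq hr
    rwa [show B * d2 * r ^ 2 = d1 * d2 by rw [e1]; ring] at h3
  · rcases h2.cases hd2 hB with ⟨r, hr, e2⟩ | ⟨r, hr, e2⟩ | ⟨x2, y2, r2, hx2, hr2, e2, p2⟩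
    · have h3 := h1.mul_sq hr
      rwa [show d1 * r ^ 2 = d1 * d2 by rw [e2]; ring] at h3
    · have h3 := (h1.mul_B hd1).mul_sq hr
      rwa [show B * d1 * r ^ 2 = d1 * d2 by rw [e2]; ring] at h3
    · have h3 := (hasPoint_mul_of_points hx1 hx2 p1 p2).mul_sq (mul_ne_zero hr1 hr2)
      rwa [show x1 * x2 * (r1 * r2) ^ 2 = d1 * d2 by rw [e1, e2]; ring] at h3

/-- Quotients. -/
theorem HasPoint.of_mul {A B d1 d2 : F} (hB : B ≠ 0) (hd1 : d1 ≠ 0) (hd2 : d2 ≠ 0)
    (h1 : HasPoint A B d1) (h2 : HasPoint A B (d1 * d2)) : HasPoint A B d2 := by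
  have h3 := h1.mul hB hd1 (mul_ne_zero hd1 hd2) h2
  exact HasPoint.of_mul_sq hd1 (by rwa [show d1 * (d1 * d2) = d2 * d1 ^ 2 by ring] at h3)

end Pool.Agent.MP009fd8S
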