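import Pool.Agent.Lib.MP_009fd8_agS.Base

/-!
MP_009fd8_ag, definitions for the 2-isogeny descent on the curves
y^2 = x (x^2 + a n x + 16 c n^2), first form.
-/

namespace Pool.Agent.MP009fd8S

open IsDedekindDomain NumberField

variable {K : Type*} [Field K] [NumberField K]

/-- Real embeddings of type I: c is positive, and a n or a^2 - 64 c is negative. -/
def TypeI (a c n : 𝓞 K) (f : K →+* ℝ) : Prop :=
  0 < f (algebraMap (𝓞 K) K c) ∧
    (f (algebraMap (𝓞 K) K (a * n)) < 0 ∨ f (algebraMap (𝓞 K) K (a ^ 2 - 64 * c)) < 0)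

/-- The group G_A: even valuation at the primes not containing c, positive at the real
embeddings of type I, and a square up to smaller terms at the primes v not containing c n at
which a^2 - 64 c has odd valuation. -/
def GroupA (a c n : 𝓞 K) (d : K) : Prop :=
  (∀ v : HeightOneSpectrum (𝓞 K), c ∉ v.asIdeal → IsSquare (v.valuation K d)) ∧
    (∀ f : K →+* ℝ, TypeI a c n f → 0 < f d) ∧
    ∀ v : HeightOneSpectrum (𝓞 K), c * n ∉ v.asIdeal →
      ¬ IsSquare (v.valuation K (algebraMap (𝓞 K) K (a ^ 2 - 64 * c))) →
        ∃ g : K, v.valuation K (d - g ^ 2) < v.valuation K d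

/-- The group G_B: even valuation at the primes not containing b = a^2 - 64 c, a square up to
multiples of 4 d at the primes above 2, positive at the real embeddings not of type I, and a
square up to smaller terms at the primes v not containing b n at which c has odd valuation. -/
def GroupB (a c n : 𝓞 K) (d : K) : Prop :=
  (∀ v : HeightOneSpectrum (𝓞 K), a ^ 2 - 64 * c ∉ v.asIdeal → IsSquare (v.valuation K d)) ∧
    (∀ v : HeightOneSpectrum (𝓞 K), (2 : 𝓞 K) ∈ v.asIdeal →
      ∃ g : K, v.valuation K (d - g ^ 2) ≤ v.valuation K 4 * v.valuation K d) ∧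
    (∀ f : K →+* ℝ, ¬ TypeI a c n f → 0 < f d) ∧
    ∀ v : HeightOneSpectrum (𝓞 K), (a ^ 2 - 64 * c) * n ∉ v.asIdeal →
      ¬ IsSquare (v.valuation K (algebraMap (𝓞 K) K c)) →
        ∃ g : K, v.valuation K (d - g ^ 2) < v.valuation K d

/-- The set S generates the group G modulo squares: every nonzero d in G is a finite product of
different elements of S times the square of a nonzero element. -/
def Generates (S : Set K) (G : K → Prop) : Prop :=
  ∀ d : K, d ≠ 0 → G d → ∃ (s : Finset K) (w : K), (s : Set K) ⊆ S ∧ w ≠ 0 ∧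
    d = (∏ g ∈ s, g) * w ^ 2

end Pool.Agent.MP009fd8S
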