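import Pool.Agent.Lib.MP_009fd8_agS.Group
import Pool.Agent.Lib.MP_009fd8_agS.SignSq

/-!
MP_009fd8_ag, 2-isogeny descent on y^2 = x (x^2 + a n x + 16 c n^2): the final form.
-/

namespace Pool.Agent.MP009fd8S

open IsDedekindDomain NumberField Pool.Agent.MP009fd8

variable {K : Type*} [Field K] [NumberField K]

/-- A unit in G_B is a square when the units take all signs at the real embeddings of type I. -/
theorem isSquare_unit_groupB (hclass : Odd (NumberField.classNumber K)) (a c n : 𝓞 K)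
    (hV : ∀ S : Set (K →+* ℝ), ∃ t : (𝓞 K)ˣ, ∀ f : K →+* ℝ, TypeI a c n f →
      (f (algebraMap (𝓞 K) K (t : 𝓞 K)) < 0 ↔ f ∈ S))
    (u : (𝓞 K)ˣ) (hu : GroupB a c n (algebraMap (𝓞 K) K (u : 𝓞 K))) : IsSquare u := by
  obtain ⟨m, hm⟩ := exists_four_dvd (u : 𝓞 K) (by
    intro v hv
    obtain ⟨g, hg⟩ := hu.2.1 v hv
    refine ⟨algebraMap K (v.adicCompletion K) g, ?_⟩
    rw [← map_pow, ← map_sub, val_completion]
    rwa [val_unit, mul_one] at hg)
  refine isSquare_of_sq_mod_four_of_sign hclass u m hm fun S => ?_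
  obtain ⟨t, ht⟩ := hV S
  refine ⟨t, fun f hf => ht f ?_⟩
  by_contra hcon
  exact absurd hf (not_lt.mpr (hu.2.2.1 f hcon).le)

/-- A group of classes containing c, with even valuations outside c, whose units are 1 or c. -/
theorem classes_of_onePlace (hclass : Odd (NumberField.classNumber K)) (c : 𝓞 K)
    (hc : OnePlace c) (G : K → Prop) (hmul : ∀ x y : K, G x → G y → G (x * y))
    (hsq : ∀ s : K, s ≠ 0 → G (s ^ 2)) (hGc : G (algebraMap (𝓞 K) K c))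
    (hval : ∀ x : K, G x → ∀ v : HeightOneSpectrum (𝓞 K), c ∉ v.asIdeal →
      IsSquare (v.valuation K x))
    (hU : ∀ u : (𝓞 K)ˣ, G (algebraMap (𝓞 K) K (u : 𝓞 K)) → ∃ t : K,
      algebraMap (𝓞 K) K (u : 𝓞 K) = t ^ 2 ∨
        algebraMap (𝓞 K) K (u : 𝓞 K) = algebraMap (𝓞 K) K c * t ^ 2)
    (d : K) (hd : d ≠ 0) (h : G d) :
    ∃ w : K, w ≠ 0 ∧ (d = w ^ 2 ∨ d = algebraMap (𝓞 K) K c * w ^ 2) := by
  have kc : algebraMap (𝓞 K) K c ≠ 0 :=
    (map_ne_zero_iff _ (FaithfulSMul.algebraMap_injective (𝓞 K) K)).mpr hc.ne_zero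
  have hu0 : ∀ u : (𝓞 K)ˣ, algebraMap (𝓞 K) K (u : 𝓞 K) ≠ 0 := fun u => by simp
  rcases all_square_or c d hc (hval d h) with hs | hs
  · obtain ⟨u, w, hw, e⟩ := exists_unit_mul_sq hclass d hd hs
    have g := hmul _ _ h (hsq _ (inv_ne_zero hw))
    have e1 : d * w⁻¹ ^ 2 = algebraMap (𝓞 K) K (u : 𝓞 K) := by
      rw [e]; field_simp
    rw [e1] at g
    obtain ⟨t, ht | ht⟩ := hU u g
    · have t0 : t ≠ 0 := by
        rintro rfl
        exact hu0 u (by rw [ht]; ring)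
      exact ⟨t * w, mul_ne_zero t0 hw, Or.inl (by rw [e, ht]; ring)⟩
    · have t0 : t ≠ 0 := by
        rintro rfl
        exact hu0 u (by rw [ht]; ring)
      exact ⟨t * w, mul_ne_zero t0 hw, Or.inr (by rw [e, ht]; ring)⟩
  · obtain ⟨u, w, hw, e⟩ := exists_unit_mul_sq hclass _ (mul_ne_zero kc hd) hs
    have g := hmul _ _ (hmul _ _ hGc h) (hsq _ (inv_ne_zero hw))
    have e1 : algebraMap (𝓞 K) K c * d * w⁻¹ ^ 2 = algebraMap (𝓞 K) K (u : 𝓞 K) := by
      rw [e]; field_simp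
    rw [e1] at g
    obtain ⟨t, ht | ht⟩ := hU u g
    · have t0 : t ≠ 0 := by
        rintro rfl
        exact hu0 u (by rw [ht]; ring)
      refine ⟨t * w / algebraMap (𝓞 K) K c, div_ne_zero (mul_ne_zero t0 hw) kc, Or.inr ?_⟩
      rw [ht] at e
      field_simp
      linear_combination e
    · have t0 : t ≠ 0 := by
        rintro rfl
        exact hu0 u (by rw [ht]; ring)
      refine ⟨t * w, mul_ne_zero t0 hw, Or.inl ?_⟩
      apply mul_left_cancel₀ kc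
      rw [e, ht]; ring

/-- The two descents. -/
theorem final (a c n r : 𝓞 K) (h4 : 4 ∣ a * n - r ^ 2) (ha : IsCoprime (a * n) 2)
    (hc : IsCoprime c 2) (hb : a ^ 2 - 64 * c ≠ 0)
    (hn : ∀ v : HeightOneSpectrum (𝓞 K), n ∈ v.asIdeal → ∀ m : 𝓞 K,
      c - m ^ 2 ∉ v.asIdeal ∧ a ^ 2 - 64 * c - m ^ 2 ∉ v.asIdeal)
    (A B A' B' : K) (hA : A = algebraMap (𝓞 K) K (a * n))
    (hB : B = algebraMap (𝓞 K) K (16 * (c * n ^ 2)))
    (hA' : A' = -2 * A) (hB' : B' = A ^ 2 - 4 * B) :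
    (∀ d : K, d ≠ 0 →
      (LocSol K A B d → GroupA a c n d) ∧ (LocSol K A' B' d → GroupB a c n d)) ∧
    (∀ S : Set K, (∀ g ∈ S, g ≠ 0 ∧ HasPoint A B g) → Generates S (GroupA a c n) →
      ∀ d : K, d ≠ 0 →
        (LocSol K A B d ↔ HasPoint A B d) ∧ (HasPoint A B d ↔ GroupA a c n d)) ∧
    (∀ T : Set K, (∀ g ∈ T, g ≠ 0 ∧ HasPoint A' B' g) → Generates T (GroupB a c n) →
      ∀ d : K, d ≠ 0 →
        (LocSol K A' B' d ↔ HasPoint A' B' d) ∧ (HasPoint A' B' d ↔ GroupB a c n d)) ∧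
    (Odd (NumberField.classNumber K) → OnePlace c → OnePlace (a ^ 2 - 64 * c) →
      (∀ u : (𝓞 K)ˣ, GroupA a c n (algebraMap (𝓞 K) K (u : 𝓞 K)) → ∃ t : K,
        algebraMap (𝓞 K) K (u : 𝓞 K) = t ^ 2 ∨
          algebraMap (𝓞 K) K (u : 𝓞 K) = algebraMap (𝓞 K) K c * t ^ 2) →
      (∀ S : Set (K →+* ℝ), ∃ t : (𝓞 K)ˣ, ∀ f : K →+* ℝ, TypeI a c n f →
        (f (algebraMap (𝓞 K) K (t : 𝓞 K)) < 0 ↔ f ∈ S)) →
      ∀ d : K, d ≠ 0 →
        (LocSol K A B d ↔ ∃ w : K, w ≠ 0 ∧ (d = w ^ 2 ∨ d = algebraMap (𝓞 K) K c * w ^ 2)) ∧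
        (LocSol K A' B' d ↔
          ∃ w : K, w ≠ 0 ∧ (d = w ^ 2 ∨ d = algebraMap (𝓞 K) K (a ^ 2 - 64 * c) * w ^ 2))) := by
  have eA : A' = algebraMap (𝓞 K) K (-2 * (a * n)) := by
    rw [hA', hA]
    simp only [map_mul, map_neg, map_ofNat]
  have eB : B' = algebraMap (𝓞 K) K ((a * n) ^ 2 - 64 * (c * n ^ 2)) := by
    rw [hB', hA, hB]
    simp only [map_mul, map_sub, map_pow, map_ofNat]
    ring
  have hinj := FaithfulSMul.algebraMap_injective (𝓞 K) K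
  have hn2 : IsCoprime n 2 := IsCoprime.of_mul_left_right ha
  have hn0 : n ≠ 0 := ne_zero_of_isCoprime_two hn2
  have kn : algebraMap (𝓞 K) K n ≠ 0 := (map_ne_zero_iff _ hinj).mpr hn0
  have hc0 : c ≠ 0 := ne_zero_of_isCoprime_two hc
  have hBv : B = (4 * algebraMap (𝓞 K) K n) ^ 2 * algebraMap (𝓞 K) K c := by
    rw [hB]
    simp only [map_mul, map_pow, map_ofNat]
    ring
  have hBv' : B' = algebraMap (𝓞 K) K n ^ 2 * algebraMap (𝓞 K) K (a ^ 2 - 64 * c) := by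
    rw [eB]
    simp only [map_mul, map_sub, map_pow, map_ofNat]
    ring
  have hB0 : B ≠ 0 := by
    rw [hBv]
    exact mul_ne_zero (pow_ne_zero 2 (mul_ne_zero (by norm_num) kn))
      ((map_ne_zero_iff _ hinj).mpr hc0)
  have hB0' : B' ≠ 0 := by
    rw [hBv']
    exact mul_ne_zero (pow_ne_zero 2 kn) ((map_ne_zero_iff _ hinj).mpr hb)
  have a1 : ∀ d : K, d ≠ 0 → LocSol K A B d → GroupA a c n d := by
    intro d hd h
    rw [hA, hB] at h
    exact groupA_of_locSol a c n r h4 ha hc hn d hd h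
  have b1 : ∀ d : K, d ≠ 0 → LocSol K A' B' d → GroupB a c n d := by
    intro d hd h
    rw [eA, eB] at h
    exact groupB_of_locSol a c n r h4 ha hc hb hn d hd h
  refine ⟨fun d hd => ⟨a1 d hd, b1 d hd⟩, ?_, ?_, ?_⟩
  · intro S hS gS d hd
    have a2 := hasPoint_of_generates hB0 hS gS d hd
    exact ⟨⟨fun h => a2 (a1 d hd h), LocSol.of_hasPoint⟩,
      fun h => a1 d hd (LocSol.of_hasPoint h), a2⟩
  · intro T hT gT d hd
    have b2 := hasPoint_of_generates hB0' hT gT d hd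
    exact ⟨⟨fun h => b2 (b1 d hd h), LocSol.of_hasPoint⟩,
      fun h => b1 d hd (LocSol.of_hasPoint h), b2⟩
  · intro hclass hc1 hb1 hU hV d hd
    have hptc : ∀ w : K, w ≠ 0 → HasPoint A B (algebraMap (𝓞 K) K c * w ^ 2) := fun w hw =>
      hasPoint_mul_sq A B _ _ w hw hBv
    have hptb : ∀ w : K, w ≠ 0 →
        HasPoint A' B' (algebraMap (𝓞 K) K (a ^ 2 - 64 * c) * w ^ 2) := fun w hw =>
      hasPoint_mul_sq A' B' _ _ w hw hBv'
    have kc : algebraMap (𝓞 K) K c ≠ 0 := (map_ne_zero_iff _ hinj).mpr hc0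
    have kb : algebraMap (𝓞 K) K (a ^ 2 - 64 * c) ≠ 0 := (map_ne_zero_iff _ hinj).mpr hb
    have hGc : GroupA a c n (algebraMap (𝓞 K) K c) := by
      have h := hptc 1 one_ne_zero
      rw [one_pow, mul_one] at h
      exact a1 _ kc (LocSol.of_hasPoint h)
    have hGb : GroupB a c n (algebraMap (𝓞 K) K (a ^ 2 - 64 * c)) := by
      have h := hptb 1 one_ne_zero
      rw [one_pow, mul_one] at h
      exact b1 _ kb (LocSol.of_hasPoint h)
    refine ⟨⟨fun h => ?_, ?_⟩, ⟨fun h => ?_, ?_⟩⟩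
    · exact classes_of_onePlace hclass c hc1 (GroupA a c n) (fun x y hx hy => hx.mul hy)
        (fun s hs => GroupA.sq a c n hs) hGc (fun x hx => hx.1) hU d hd (a1 d hd h)
    · rintro ⟨w, hw, rfl | rfl⟩
      · exact LocSol.of_hasPoint (hasPoint_sq _ _ _)
      · exact LocSol.of_hasPoint (hptc w hw)
    · refine classes_of_onePlace hclass (a ^ 2 - 64 * c) hb1 (GroupB a c n)
        (fun x y hx hy => hx.mul hy) (fun s hs => GroupB.sq a c n hs) hGb (fun x hx => hx.1)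
        (fun u hu => ?_) d hd (b1 d hd h)
      obtain ⟨t, ht⟩ := isSquare_unit_groupB hclass a c n hV u hu
      exact ⟨algebraMap (𝓞 K) K (t : 𝓞 K), Or.inl (by rw [ht, Units.val_mul, map_mul]; ring)⟩
    · rintro ⟨w, hw, rfl | rfl⟩
      · exact LocSol.of_hasPoint (hasPoint_sq _ _ _)
      · exact LocSol.of_hasPoint (hptb w hw)

end Pool.Agent.MP009fd8S
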