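import Pool.Agent.Lib.MP_009fd8_agS.Base

/-!
MP_009fd8_ag, definitions for the 2-isogeny descent on all curves y^2 = x (x^2 + A x + B):
the local conditions, place by place. (In the comments v is written additively.)
-/

namespace Pool.Agent.MP009fd8S

open IsDedekindDomain NumberField

variable {K : Type*} [Field K] [NumberField K]

/-- x is a square modulo v: v(x - g ^ 2) > v(x) for some g (so v(x) is even). -/
def SqMod (v : HeightOneSpectrum (𝓞 K)) (x : K) : Prop :=
  ∃ g : K, v.valuation K (x - g ^ 2) < v.valuation K x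

/-- x is a square modulo 4 x at v. -/
def SqFour (v : HeightOneSpectrum (𝓞 K)) (x : K) : Prop :=
  ∃ g : K, v.valuation K (x - g ^ 2) ≤ v.valuation K 4 * v.valuation K x

/-- v(B) is divisible by 4 and v(B) ≤ 2 v(A). -/
def UnitAt (A B : K) (v : HeightOneSpectrum (𝓞 K)) : Prop :=
  (∃ s : K, v.valuation K B = v.valuation K s ^ 4) ∧
    v.valuation K A ^ 2 ≤ v.valuation K B

/-- The places at which the classes have even valuation: (i) UnitAt; (ii) v(B) > 2 v(A), v(A) and
v(B) are even and A is not a square modulo v; (iii) v lies above 2, A is a square modulo 4 A and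
v(B) = v(16 A ^ 2). -/
def EvenAt (A B : K) (v : HeightOneSpectrum (𝓞 K)) : Prop :=
  UnitAt A B v ∨
  (v.valuation K B < v.valuation K A ^ 2 ∧ IsSquare (v.valuation K B) ∧
    IsSquare (v.valuation K A) ∧ ¬ SqMod v A) ∨
  ((2 : 𝓞 K) ∈ v.asIdeal ∧ SqFour v A ∧ v.valuation K B = v.valuation K (16 * A ^ 2))

/-- The places at which the classes are squares modulo v: (i) v(A ^ 2 - 4 B) > 2 v(A) and - 2 A is
a square modulo v; (ii) UnitAt and v(A ^ 2 - 4 B) is odd. -/
def SqAt (A B : K) (v : HeightOneSpectrum (𝓞 K)) : Prop :=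
  (v.valuation K (A ^ 2 - 4 * B) < v.valuation K A ^ 2 ∧ SqMod v (-2 * A)) ∨
  (UnitAt A B v ∧ ¬ IsSquare (v.valuation K (A ^ 2 - 4 * B)))

/-- The places at which the classes are 1 or B times a square modulo v: (i) v(B) and
v(A ^ 2 - 4 B) are odd; (ii) v(B) = v(A ^ 2 - 4 B) is 2 modulo 4, v(B) ≤ 2 v(A) and A ^ 2 - 4 B
is not a square modulo v. -/
def TorAt (A B : K) (v : HeightOneSpectrum (𝓞 K)) : Prop :=
  (¬ IsSquare (v.valuation K B) ∧ ¬ IsSquare (v.valuation K (A ^ 2 - 4 * B))) ∨
  ((∃ s : K, v.valuation K B = v.valuation K s ^ 2 ∧ ¬ IsSquare (v.valuation K s)) ∧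
    v.valuation K A ^ 2 ≤ v.valuation K B ∧
    v.valuation K (A ^ 2 - 4 * B) = v.valuation K B ∧ ¬ SqMod v (A ^ 2 - 4 * B))

/-- The places v above 2 at which - 2 A is a square modulo 8 A and v(A ^ 2 - 4 B) is at least
v(64 A ^ 2). -/
def FourAt (A B : K) (v : HeightOneSpectrum (𝓞 K)) : Prop :=
  (2 : 𝓞 K) ∈ v.asIdeal ∧ SqFour v (-2 * A) ∧
    v.valuation K (A ^ 2 - 4 * B) ≤ v.valuation K (64 * A ^ 2)

/-- The real embeddings at which B is positive and A or A ^ 2 - 4 B is negative. -/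
def NegAt (A B : K) (f : K →+* ℝ) : Prop :=
  0 < f B ∧ (f A < 0 ∨ f (A ^ 2 - 4 * B) < 0)

/-- The group G(A, B): v(d) is even at the places EvenAt; d is a square modulo v at the places
SqAt; d or B d is a square modulo v at the places TorAt; d is a square modulo 4 d at the places
FourAt; d is positive at the real embeddings NegAt. -/
def Grp (A B : K) (d : K) : Prop :=
  (∀ v : HeightOneSpectrum (𝓞 K), EvenAt A B v → IsSquare (v.valuation K d)) ∧
  (∀ v : HeightOneSpectrum (𝓞 K), SqAt A B v → SqMod v d) ∧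
  (∀ v : HeightOneSpectrum (𝓞 K), TorAt A B v → SqMod v d ∨ SqMod v (B * d)) ∧
  (∀ v : HeightOneSpectrum (𝓞 K), FourAt A B v → SqFour v d) ∧
  ∀ f : K →+* ℝ, NegAt A B f → 0 < f d

/-- d is a finite product of different elements of S times the square of a nonzero element. -/
def InClasses (S : Set K) (d : K) : Prop :=
  ∃ (s : Finset K) (w : K), (s : Set K) ⊆ S ∧ w ≠ 0 ∧ d = (∏ g ∈ s, g) * w ^ 2

end Pool.Agent.MP009fd8S
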