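import Pool.Agent.Lib.MP_009fd8_agS.GFinal

/-!
MP_009fd8_ag, 2-isogeny descent on y^2 = x (x^2 + A x + B): the family A = a n, B = 16 c n^2.
-/

namespace Pool.Agent.MP009fd8S

open IsDedekindDomain NumberField Pool.Agent.MP009fd8

variable {K : Type*} [Field K] [NumberField K]

/-- An integer which is a square modulo v (as an element of K) is a square modulo v. -/
theorem exists_int_of_sqMod {v : HeightOneSpectrum (𝓞 K)} {x : 𝓞 K} (hx : x ∉ v.asIdeal)
    (h : SqMod v (algebraMap (𝓞 K) K x)) : ∃ m : 𝓞 K, x - m ^ 2 ∈ v.asIdeal := by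
  obtain ⟨g, hg⟩ := near_of_sqMod h
  refine exists_int_of_sq v x (algebraMap K (v.adicCompletion K) g) ?_
  rw [val_completion v (algebraMap (𝓞 K) K x), val_eq_one v hx] at hg
  rw [← neg_sub, Valuation.map_neg]
  exact hg

/-- A number with even valuation has the valuation of a square. -/
theorem exists_sq_of_isSquare {v : HeightOneSpectrum (𝓞 K)} {x : K}
    (h : IsSquare (v.valuation K x)) : ∃ s : K, v.valuation K x = v.valuation K s ^ 2 := by
  obtain ⟨γ, hγ⟩ := h
  obtain ⟨s, hs⟩ := v.valuation_surjective K γ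
  exact ⟨s, by rw [hs, hγ, pow_two]⟩

/-- Even valuation at a twist place: the general shape, A of valuation at least that of n,
B of valuation twice that of n. -/
theorem even_of_twist {A B x n b : K} {v : HeightOneSpectrum (𝓞 K)} (hn : n ≠ 0)
    (hG : Grp A B x)
    (hA : v.valuation K A ≤ v.valuation K n) (hB : v.valuation K B = v.valuation K n ^ 2)
    (hB' : A ^ 2 - 4 * B = b * n ^ 2) (hb : v.valuation K b = 1) (hns : ¬ SqMod v b) :
    IsSquare (v.valuation K x) := by
  have hAB : v.valuation K A ^ 2 ≤ v.valuation K B := by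
    rw [hB]; gcongr
  by_cases hsq : IsSquare (v.valuation K n)
  · obtain ⟨s, hs⟩ := exists_sq_of_isSquare hsq
    refine hG.1 v (Or.inl ⟨⟨s, ?_⟩, hAB⟩)
    rw [hB, hs, ← pow_mul]
  · have hT : TorAt A B v := by
      refine Or.inr ⟨⟨n, hB, hsq⟩, hAB, ?_, ?_⟩
      · rw [hB', map_mul, hb, one_mul, map_pow, hB]
      · rw [hB']
        exact fun h => hns (h.of_mul_sq hn)
    have even_of : ∀ {y : K}, SqMod v y → IsSquare (v.valuation K y) := by
      rintro y ⟨g, hg⟩
      have := val_eq_of_sub_lt (v.valuation K) hg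
      rw [← this, map_pow]
      exact IsSquare.sq _
    rcases hG.2.2.1 v hT with h | h
    · exact even_of h
    · have h1 := even_of h
      rw [map_mul, hB] at h1
      have hn0 : v.valuation K n ^ 2 ≠ 0 := pow_ne_zero 2 ((Valuation.ne_zero_iff _).2 hn)
      have h2 : v.valuation K x = (v.valuation K n ^ 2 * v.valuation K x) /
          v.valuation K n ^ 2 := by
        rw [mul_div_cancel_left₀ _ hn0]
      rw [h2]
      exact h1.div (IsSquare.sq _)

section Family

variable (a c n r : 𝓞 K) (h4 : 4 ∣ a * n - r ^ 2) (ha : IsCoprime (a * n) 2)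
  (hn : ∀ v : HeightOneSpectrum (𝓞 K), n ∈ v.asIdeal → ∀ m : 𝓞 K,
    c - m ^ 2 ∉ v.asIdeal ∧ a ^ 2 - 64 * c - m ^ 2 ∉ v.asIdeal)

include h4 ha in
theorem sqFour_family (v : HeightOneSpectrum (𝓞 K)) (hv : (2 : 𝓞 K) ∈ v.asIdeal) :
    SqFour v (algebraMap (𝓞 K) K (a * n)) := by
  refine ⟨algebraMap (𝓞 K) K r, ?_⟩
  rw [val_eq_one v (notMem_of_isCoprime ha v hv), mul_one, ← map_pow, ← map_sub]
  exact val_le_of_four_dvd v h4

include h4 ha hn in
/-- First side: even valuations outside c. -/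
theorem even_family_A (x : K)
    (hG : Grp (algebraMap (𝓞 K) K (a * n)) (algebraMap (𝓞 K) K (16 * (c * n ^ 2))) x)
    (v : HeightOneSpectrum (𝓞 K)) (hcv : c ∉ v.asIdeal) : IsSquare (v.valuation K x) := by
  have hn2 : IsCoprime n 2 := IsCoprime.of_mul_left_right ha
  have hn0 : n ≠ 0 := ne_zero_of_isCoprime_two hn2
  have kn : algebraMap (𝓞 K) K n ≠ 0 :=
    (map_ne_zero_iff _ (FaithfulSMul.algebraMap_injective (𝓞 K) K)).mpr hn0
  have vc : v.valuation K (algebraMap (𝓞 K) K c) = 1 := val_eq_one v hcv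
  have hBv : v.valuation K (algebraMap (𝓞 K) K (16 * (c * n ^ 2))) =
      v.valuation K 16 * v.valuation K (algebraMap (𝓞 K) K n) ^ 2 := by
    simp only [map_mul, map_pow, map_ofNat, vc, one_mul]
  by_cases h2v : (2 : 𝓞 K) ∈ v.asIdeal
  · refine hG.1 v (Or.inr (Or.inr ⟨h2v, sqFour_family a n r h4 ha v h2v, ?_⟩))
    rw [hBv, map_mul, map_pow, val_eq_one v (notMem_of_isCoprime ha v h2v),
      val_eq_one v (notMem_of_isCoprime hn2 v h2v)]
  · have v2 : v.valuation K 2 = 1 := by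
      rw [← map_ofNat (algebraMap (𝓞 K) K) 2]
      exact val_eq_one v h2v
    have v16 : v.valuation K 16 = 1 := by
      rw [show (16 : K) = 2 ^ 4 by norm_num, map_pow, v2, one_pow]
    by_cases hnv : n ∈ v.asIdeal
    · have hbv : a ^ 2 - 64 * c ∉ v.asIdeal := by
        have := (hn v hnv 0).2
        simpa using this
      refine even_of_twist (n := algebraMap (𝓞 K) K n)
        (b := algebraMap (𝓞 K) K (a ^ 2 - 64 * c)) kn hG ?_ ?_ ?_ (val_eq_one v hbv) ?_
      · rw [map_mul, map_mul]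
        calc _ ≤ 1 * v.valuation K (algebraMap (𝓞 K) K n) :=
              mul_le_mul' (v.valuation_le_one _) le_rfl
          _ = _ := one_mul _
      · rw [hBv, v16, one_mul]
      · simp only [map_mul, map_sub, map_pow, map_ofNat]
        ring
      · intro h
        obtain ⟨m, hm⟩ := exists_int_of_sqMod hbv h
        exact (hn v hnv m).2 hm
    · refine hG.1 v (Or.inl ⟨⟨1, ?_⟩, ?_⟩)
      · rw [hBv, v16, val_eq_one v hnv, map_one]; simp
      · rw [hBv, v16, val_eq_one v hnv, one_pow, one_mul]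
        exact pow_le_one₀ zero_le (v.valuation_le_one _)

include ha hn in
/-- Second side: even valuations outside a^2 - 64 c. -/
theorem even_family_B (x : K)
    (hG : Grp (-2 * algebraMap (𝓞 K) K (a * n)) (algebraMap (𝓞 K) K (a * n) ^ 2 -
      4 * algebraMap (𝓞 K) K (16 * (c * n ^ 2))) x)
    (v : HeightOneSpectrum (𝓞 K)) (hbv : a ^ 2 - 64 * c ∉ v.asIdeal) :
    IsSquare (v.valuation K x) := by
  have hn2 : IsCoprime n 2 := IsCoprime.of_mul_left_right ha
  have hn0 : n ≠ 0 := ne_zero_of_isCoprime_two hn2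
  have kn : algebraMap (𝓞 K) K n ≠ 0 :=
    (map_ne_zero_iff _ (FaithfulSMul.algebraMap_injective (𝓞 K) K)).mpr hn0
  have e : algebraMap (𝓞 K) K (a * n) ^ 2 - 4 * algebraMap (𝓞 K) K (16 * (c * n ^ 2)) =
      algebraMap (𝓞 K) K (a ^ 2 - 64 * c) * algebraMap (𝓞 K) K n ^ 2 := by
    simp only [map_mul, map_sub, map_pow, map_ofNat]
    ring
  have hAv : v.valuation K (-2 * algebraMap (𝓞 K) K (a * n)) ≤
      v.valuation K (algebraMap (𝓞 K) K n) := by
    have e1 : -2 * algebraMap (𝓞 K) K (a * n) =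
        algebraMap (𝓞 K) K (-2 * a) * algebraMap (𝓞 K) K n := by
      simp only [map_mul, map_neg, map_ofNat]
      ring
    rw [e1, map_mul]
    calc _ ≤ 1 * v.valuation K (algebraMap (𝓞 K) K n) :=
          mul_le_mul' (v.valuation_le_one _) le_rfl
      _ = _ := one_mul _
  have hBv : v.valuation K (algebraMap (𝓞 K) K (a * n) ^ 2 -
      4 * algebraMap (𝓞 K) K (16 * (c * n ^ 2))) =
      v.valuation K (algebraMap (𝓞 K) K n) ^ 2 := by
    rw [e, map_mul, val_eq_one v hbv, one_mul, map_pow]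
  by_cases hnv : n ∈ v.asIdeal
  · have h2v : (2 : 𝓞 K) ∉ v.asIdeal := notMem_of_isCoprime hn2.symm v hnv
    have hcv : c ∉ v.asIdeal := by
      have := (hn v hnv 0).1
      simpa using this
    have v2 : v.valuation K 2 = 1 := by
      rw [← map_ofNat (algebraMap (𝓞 K) K) 2]
      exact val_eq_one v h2v
    have h8 : (16 : K) ≠ 0 := by norm_num
    refine even_of_twist (n := algebraMap (𝓞 K) K n)
      (b := algebraMap (𝓞 K) K c * 16 ^ 2) kn hG hAv hBv ?_ ?_ ?_
    · simp only [map_mul, map_pow, map_ofNat]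
      ring
    · rw [map_mul, val_eq_one v hcv, one_mul, show (16 : K) = 2 ^ 4 by norm_num, map_pow,
        map_pow, v2, one_pow, one_pow]
    · intro h
      obtain ⟨m, hm⟩ := exists_int_of_sqMod hcv (h.of_mul_sq h8)
      exact (hn v hnv m).1 hm
  · refine hG.1 v (Or.inl ⟨⟨1, ?_⟩, ?_⟩)
    · rw [hBv, val_eq_one v hnv, map_one]; simp
    · rw [hBv]
      gcongr

include h4 ha in
/-- The places above 2 are FourAt for the isogenous curve. -/
theorem fourAt_family (v : HeightOneSpectrum (𝓞 K)) (h2v : (2 : 𝓞 K) ∈ v.asIdeal) :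
    FourAt (-2 * algebraMap (𝓞 K) K (a * n)) (algebraMap (𝓞 K) K (a * n) ^ 2 -
      4 * algebraMap (𝓞 K) K (16 * (c * n ^ 2))) v := by
  refine ⟨h2v, ?_, ?_⟩
  · have h1 := (sqFour_family a n r h4 ha v h2v).mul (SqFour.sq v 2)
    rwa [show algebraMap (𝓞 K) K (a * n) * 2 ^ 2 =
      -2 * (-2 * algebraMap (𝓞 K) K (a * n)) by ring] at h1
  · have e1 : (-2 * algebraMap (𝓞 K) K (a * n)) ^ 2 - 4 * (algebraMap (𝓞 K) K (a * n) ^ 2 -
        4 * algebraMap (𝓞 K) K (16 * (c * n ^ 2))) =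
        256 * algebraMap (𝓞 K) K (c * n ^ 2) := by
      simp only [map_mul, map_pow, map_ofNat]
      ring
    have e2 : (64 : K) * (-2 * algebraMap (𝓞 K) K (a * n)) ^ 2 =
        256 * algebraMap (𝓞 K) K (a * n) ^ 2 := by ring
    rw [e1, e2, map_mul (v.valuation K) 256 (algebraMap (𝓞 K) K (c * n ^ 2)),
      map_mul (v.valuation K) 256 (algebraMap (𝓞 K) K (a * n) ^ 2), map_pow (v.valuation K),
      val_eq_one v (notMem_of_isCoprime ha v h2v), one_pow]
    exact mul_le_mul' le_rfl (v.valuation_le_one _)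

end Family

/-- The real embeddings which are not NegAt for the isogenous curve. -/
theorem negAt_of_not_dual {A B : K} (hB : B ≠ 0) (hB' : A ^ 2 - 4 * B ≠ 0) {f : K →+* ℝ}
    (h : ¬ NegAt (-2 * A) (A ^ 2 - 4 * B) f) : NegAt A B f := by
  unfold NegAt at *
  have hfB : f B ≠ 0 := (map_ne_zero f).mpr hB
  have hfB' : f (A ^ 2 - 4 * B) ≠ 0 := (map_ne_zero f).mpr hB'
  have e1 : f (-2 * A) = -2 * f A := by simp only [map_mul, map_neg, map_ofNat]
  have e2 : f ((-2 * A) ^ 2 - 4 * (A ^ 2 - 4 * B)) = 16 * f B := by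
    rw [show (-2 * A) ^ 2 - 4 * (A ^ 2 - 4 * B) = 16 * B by ring, map_mul, map_ofNat]
  have e3 : f (A ^ 2 - 4 * B) = f A ^ 2 - 4 * f B := by
    simp only [map_sub, map_mul, map_pow, map_ofNat]
  rw [e1, e2] at h
  rcases lt_or_gt_of_ne hfB' with h1 | h1
  · refine ⟨?_, Or.inr h1⟩
    rw [e3] at h1
    nlinarith [sq_nonneg (f A)]
  · have h2 : ¬ (-2 * f A < 0 ∨ 16 * f B < 0) := fun h3 => h ⟨h1, h3⟩
    push Not at h2
    obtain ⟨h3, h4⟩ := h2
    have h5 : 0 < f B := lt_of_le_of_ne (by linarith) (Ne.symm hfB)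
    refine ⟨h5, Or.inl ?_⟩
    have h6 : f A ≠ 0 := by
      intro h7
      rw [e3, h7] at h1
      linarith
    exact lt_of_le_of_ne (by linarith) h6

end Pool.Agent.MP009fd8S
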