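import Pool.Agent.Lib.MP_009fd8_agS.Global

/-!
MP_009fd8_ag, 2-isogeny descent on y^2 = x (x^2 + a n x + 16 c n^2): the primes dividing n.
-/

namespace Pool.Agent.MP009fd8S

open IsDedekindDomain NumberField Pool.Agent.MP009fd8

section Valued

variable {F : Type*} [Field F] {Γ : Type*} [LinearOrderedCommGroupWithZero Γ] (v : Valuation F Γ)

private theorem sq_aux3 {x s r : Γ} (h : x * s = r) (hs : s ≠ 0) (h1 : IsSquare s)
    (h2 : IsSquare r) : IsSquare x := by
  have e : x = r / s := eq_div_of_mul_eq hs h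
  rw [e]
  exact h2.div h1

/-- Twisting by n: even valuations as soon as the quadratic polynomial has no root modulo v. -/
theorem isSquare_twist (α β n d : F) (hα : v α ≤ 1) (hβ : v β = 1) (hn : n ≠ 0) (hd : d ≠ 0)
    (hroot : ∀ δ : F, v δ = 1 → ¬ v (δ ^ 2 + α * δ + β) < 1)
    (h : HasPoint (α * n) (β * n ^ 2) d) : IsSquare (v d) := by
  obtain ⟨M, e, N, hne, h1⟩ := h
  have vd : v d ≠ 0 := (Valuation.ne_zero_iff v).2 hd
  have vn : v n ≠ 0 := (Valuation.ne_zero_iff v).2 hn
  have β0 : β ≠ 0 := by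
    rintro rfl
    rw [map_zero] at hβ
    exact zero_ne_one hβ
  have hsq : ∀ x : Γ, IsSquare (x ^ 2) := fun x => IsSquare.sq x
  have hsq4 : ∀ x : Γ, IsSquare (x ^ 4) := fun x => ⟨x ^ 2, by rw [← pow_add]⟩
  have eL : v (d * N ^ 2) = v d * v N ^ 2 := by rw [map_mul, map_pow]
  by_cases hM : M = 0
  · subst hM
    have he : e ≠ 0 := by simpa using hne
    have h3 : d * N ^ 2 = β * n ^ 2 * e ^ 4 := by rw [h1]; ring
    have h4 : v d * v N ^ 2 = v n ^ 2 * v e ^ 4 := by
      rw [← eL, h3, map_mul, map_mul, hβ, one_mul, map_pow, map_pow]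
    have hN : v N ^ 2 ≠ 0 := by
      intro h0
      rw [h0, mul_zero] at h4
      exact mul_ne_zero (pow_ne_zero 2 vn) (pow_ne_zero 4 ((Valuation.ne_zero_iff v).2 he)) h4.symm
    exact sq_aux3 h4 hN (hsq _) ((hsq _).mul (hsq4 _))
  by_cases he : e = 0
  · subst he
    have h3 : d * N ^ 2 = d ^ 2 * M ^ 4 := by rw [h1]; ring
    have h4 : N ^ 2 = d * M ^ 4 := by
      apply mul_left_cancel₀ hd
      rw [h3]; ring
    have h5 : v d * v M ^ 4 = v N ^ 2 := by rw [← map_pow, ← map_pow, ← map_mul, h4]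
    exact sq_aux3 h5 (pow_ne_zero 4 ((Valuation.ne_zero_iff v).2 hM)) (hsq4 _) (hsq _)
  have vM : v M ≠ 0 := (Valuation.ne_zero_iff v).2 hM
  have ve : v e ≠ 0 := (Valuation.ne_zero_iff v).2 he
  set δ := d * M ^ 2 / (n * e ^ 2) with hδ
  have h3 : d * N ^ 2 = n ^ 2 * e ^ 4 * (δ ^ 2 + α * δ + β) := by
    rw [h1, hδ]
    field_simp
  have δ0 : δ ≠ 0 := div_ne_zero (mul_ne_zero hd (pow_ne_zero 2 hM))
    (mul_ne_zero hn (pow_ne_zero 2 he))
  have vδ : 0 < v δ := zero_lt_iff.mpr ((Valuation.ne_zero_iff v).2 δ0)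
  have hαδ : v (α * δ) ≤ v δ := by
    rw [map_mul]
    calc v α * v δ ≤ 1 * v δ := mul_le_mul' hα le_rfl
      _ = _ := one_mul _
  -- the valuation of the polynomial is a nonzero square
  have key : v (δ ^ 2 + α * δ + β) ≠ 0 ∧ IsSquare (v (δ ^ 2 + α * δ + β)) := by
    rcases lt_trichotomy (v δ) 1 with hlt | heq | hgt
    · have h4 : v (δ ^ 2 + α * δ + β) = 1 := by
        rw [← hβ]
        apply Valuation.map_add_eq_of_lt_right
        rw [hβ]
        refine Valuation.map_add_lt v ?_ (lt_of_le_of_lt hαδ hlt)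
        rw [map_pow]
        exact pow_lt_one₀ zero_le hlt two_ne_zero
      rw [h4]
      exact ⟨one_ne_zero, ⟨1, by simp⟩⟩
    · have h4 : v (δ ^ 2 + α * δ + β) = 1 := by
        apply le_antisymm _ (not_lt.mp (hroot δ heq))
        refine Valuation.map_add_le v (Valuation.map_add_le v ?_ (hαδ.trans heq.le)) hβ.le
        rw [map_pow, heq, one_pow]
      rw [h4]
      exact ⟨one_ne_zero, ⟨1, by simp⟩⟩
    · have h4 : v (δ ^ 2 + α * δ + β) = v δ ^ 2 := by
        rw [add_assoc, ← map_pow]
        apply Valuation.map_add_eq_of_lt_left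
        have h5 : v δ < v (δ ^ 2) := by
          rw [map_pow, pow_two]
          calc v δ = v δ * 1 := (mul_one _).symm
            _ < v δ * v δ := mul_lt_mul_of_pos_left hgt vδ
        refine Valuation.map_add_lt v (lt_of_le_of_lt hαδ h5) ?_
        rw [hβ]
        exact hgt.trans h5
      rw [h4]
      exact ⟨pow_ne_zero 2 vδ.ne', hsq _⟩
  have h6 : v d * v N ^ 2 = v n ^ 2 * v e ^ 4 * v (δ ^ 2 + α * δ + β) := by
    rw [← eL, h3, map_mul, map_mul, map_pow, map_pow]
  have hN : v N ^ 2 ≠ 0 := by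
    intro h0
    rw [h0, mul_zero] at h6
    exact mul_ne_zero (mul_ne_zero (pow_ne_zero 2 vn) (pow_ne_zero 4 ve)) key.1 h6.symm
  exact sq_aux3 h6 hN (hsq _) (((hsq _).mul (hsq4 _)).mul key.2)

end Valued

variable {K : Type*} [Field K] [NumberField K]

/-- A congruence X^2 = x modulo v in the completion gives one in the integers. -/
theorem exists_int_of_sq (v : HeightOneSpectrum (𝓞 K)) (x : 𝓞 K) (X : v.adicCompletion K)
    (h : Valued.v (X ^ 2 - algebraMap K (v.adicCompletion K) (algebraMap (𝓞 K) K x)) < 1) :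
    ∃ m : 𝓞 K, x - m ^ 2 ∈ v.asIdeal := by
  have vx : Valued.v (algebraMap K (v.adicCompletion K) (algebraMap (𝓞 K) K x)) ≤ 1 := by
    rw [val_completion]; exact v.valuation_le_one _
  have hX1 : Valued.v X ≤ 1 := by
    have h2 : Valued.v (X ^ 2) ≤ 1 := by
      have h3 : X ^ 2 = (X ^ 2 - algebraMap K (v.adicCompletion K) (algebraMap (𝓞 K) K x)) +
          algebraMap K (v.adicCompletion K) (algebraMap (𝓞 K) K x) := by ring
      rw [h3]
      exact Valuation.map_add_le _ h.le vx
    rw [map_pow] at h2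
    by_contra hcon
    exact absurd h2 (not_le.mpr (one_lt_pow₀ (not_le.mp hcon) two_ne_zero))
  obtain ⟨m, hm⟩ := exists_int_sub_lt v X hX1 1 zero_lt_one
  refine ⟨m, ?_⟩
  have vm : Valued.v (algebraMap K (v.adicCompletion K) (algebraMap (𝓞 K) K m)) ≤ 1 := by
    rw [val_completion]; exact v.valuation_le_one _
  refine (v.valuation_lt_one_iff_mem (K := K) _).mp ?_
  change v.valuation K (algebraMap (𝓞 K) K (x - m ^ 2)) < 1
  rw [← val_completion, map_sub, map_sub, map_pow, map_pow]
  have e : algebraMap K (v.adicCompletion K) (algebraMap (𝓞 K) K x) -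
      algebraMap K (v.adicCompletion K) (algebraMap (𝓞 K) K m) ^ 2 =
      (X - algebraMap K (v.adicCompletion K) (algebraMap (𝓞 K) K m)) *
        (X + algebraMap K (v.adicCompletion K) (algebraMap (𝓞 K) K m)) -
      (X ^ 2 - algebraMap K (v.adicCompletion K) (algebraMap (𝓞 K) K x)) := by ring
  rw [e]
  refine Valuation.map_sub_lt _ ?_ h
  rw [map_mul]
  have h5 : Valued.v (X + algebraMap K (v.adicCompletion K) (algebraMap (𝓞 K) K m)) ≤ 1 :=
    Valuation.map_add_le _ hX1 vm
  calc _ ≤ Valued.v (X - algebraMap K (v.adicCompletion K) (algebraMap (𝓞 K) K m)) * 1 :=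
        mul_le_mul' le_rfl h5
    _ < 1 := by rw [mul_one]; exact hm

/-- Even valuations on the first side at a prime not dividing c modulo which a^2 - 64 c is not a
square. -/
theorem sideA_twist (a c n : 𝓞 K) (hn0 : n ≠ 0) (d : K) (hd : d ≠ 0)
    (v : HeightOneSpectrum (𝓞 K)) (h2v : (2 : 𝓞 K) ∉ v.asIdeal) (hcv : c ∉ v.asIdeal)
    (hb : ∀ m : 𝓞 K, a ^ 2 - 64 * c - m ^ 2 ∉ v.asIdeal)
    (h : HasPoint (algebraMap K (v.adicCompletion K) (algebraMap (𝓞 K) K (a * n)))
      (algebraMap K (v.adicCompletion K) (algebraMap (𝓞 K) K (16 * (c * n ^ 2))))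
      (algebraMap K (v.adicCompletion K) d)) : IsSquare (v.valuation K d) := by
  have hd' : algebraMap K (v.adicCompletion K) d ≠ 0 := by simpa using hd
  have hn' : algebraMap K (v.adicCompletion K) (algebraMap (𝓞 K) K n) ≠ 0 := by simpa using hn0
  rw [← val_completion]
  have e1 : algebraMap K (v.adicCompletion K) (algebraMap (𝓞 K) K (a * n)) =
      algebraMap K (v.adicCompletion K) (algebraMap (𝓞 K) K a) *
        algebraMap K (v.adicCompletion K) (algebraMap (𝓞 K) K n) := by
    rw [map_mul, map_mul]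
  have e2 : algebraMap K (v.adicCompletion K) (algebraMap (𝓞 K) K (16 * (c * n ^ 2))) =
      (16 * algebraMap K (v.adicCompletion K) (algebraMap (𝓞 K) K c)) *
        algebraMap K (v.adicCompletion K) (algebraMap (𝓞 K) K n) ^ 2 := by
    simp only [map_mul, map_pow, map_ofNat]
    ring
  rw [e1, e2] at h
  have v2 : v.valuation K 2 = 1 := by
    rw [← map_ofNat (algebraMap (𝓞 K) K) 2]
    exact val_eq_one v h2v
  have v2' : Valued.v (2 : v.adicCompletion K) = 1 := by
    rw [← algebraMap_two v, val_completion]; exact v2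
  refine isSquare_twist (Valued.v : Valuation (v.adicCompletion K) _) _ _ _ _ ?_ ?_ hn' hd' ?_ h
  · rw [val_completion]; exact v.valuation_le_one _
  · rw [map_mul, val_completion, val_eq_one v hcv, mul_one,
      show (16 : v.adicCompletion K) = 2 ^ 4 by norm_num, map_pow, v2', one_pow]
  · intro δ _ hlt
    obtain ⟨m, hm⟩ := exists_int_of_sq v (a ^ 2 - 64 * c)
      (2 * δ + algebraMap K (v.adicCompletion K) (algebraMap (𝓞 K) K a)) (by
        have e3 : (2 * δ + algebraMap K (v.adicCompletion K) (algebraMap (𝓞 K) K a)) ^ 2 -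
            algebraMap K (v.adicCompletion K) (algebraMap (𝓞 K) K (a ^ 2 - 64 * c)) =
            2 ^ 2 * (δ ^ 2 + algebraMap K (v.adicCompletion K) (algebraMap (𝓞 K) K a) * δ +
              16 * algebraMap K (v.adicCompletion K) (algebraMap (𝓞 K) K c)) := by
          simp only [map_mul, map_sub, map_pow, map_ofNat]
          ring
        rw [e3, map_mul, map_pow, v2', one_pow, one_mul]
        exact hlt)
    exact hb m hm

/-- Even valuations on the second side at a prime not dividing a^2 - 64 c modulo which c is not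
a square. -/
theorem sideB_twist (a c n : 𝓞 K) (hn0 : n ≠ 0) (d : K) (hd : d ≠ 0)
    (v : HeightOneSpectrum (𝓞 K)) (h2v : (2 : 𝓞 K) ∉ v.asIdeal)
    (hbv : a ^ 2 - 64 * c ∉ v.asIdeal) (hc : ∀ m : 𝓞 K, c - m ^ 2 ∉ v.asIdeal)
    (h : HasPoint (algebraMap K (v.adicCompletion K) (algebraMap (𝓞 K) K (-2 * (a * n))))
      (algebraMap K (v.adicCompletion K)
        (algebraMap (𝓞 K) K ((a * n) ^ 2 - 64 * (c * n ^ 2))))
      (algebraMap K (v.adicCompletion K) d)) : IsSquare (v.valuation K d) := by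
  have hd' : algebraMap K (v.adicCompletion K) d ≠ 0 := by simpa using hd
  have hn' : algebraMap K (v.adicCompletion K) (algebraMap (𝓞 K) K n) ≠ 0 := by simpa using hn0
  rw [← val_completion]
  have e1 : algebraMap K (v.adicCompletion K) (algebraMap (𝓞 K) K (-2 * (a * n))) =
      algebraMap K (v.adicCompletion K) (algebraMap (𝓞 K) K (-2 * a)) *
        algebraMap K (v.adicCompletion K) (algebraMap (𝓞 K) K n) := by
    simp only [map_mul, map_neg, map_ofNat]
    ring
  have e2 : algebraMap K (v.adicCompletion K)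
      (algebraMap (𝓞 K) K ((a * n) ^ 2 - 64 * (c * n ^ 2))) =
      algebraMap K (v.adicCompletion K) (algebraMap (𝓞 K) K (a ^ 2 - 64 * c)) *
        algebraMap K (v.adicCompletion K) (algebraMap (𝓞 K) K n) ^ 2 := by
    simp only [map_mul, map_sub, map_pow, map_ofNat]
    ring
  rw [e1, e2] at h
  have v2 : v.valuation K 2 = 1 := by
    rw [← map_ofNat (algebraMap (𝓞 K) K) 2]
    exact val_eq_one v h2v
  have v2' : Valued.v (2 : v.adicCompletion K) = 1 := by
    rw [← algebraMap_two v, val_completion]; exact v2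
  have h20 : (2 : v.adicCompletion K) ≠ 0 := by
    rw [← algebraMap_two v]; simp
  refine isSquare_twist (Valued.v : Valuation (v.adicCompletion K) _) _ _ _ _ ?_ ?_ hn' hd' ?_ h
  · rw [val_completion]; exact v.valuation_le_one _
  · rw [val_completion, val_eq_one v hbv]
  · intro δ _ hlt
    obtain ⟨m, hm⟩ := exists_int_of_sq v c
      ((δ - algebraMap K (v.adicCompletion K) (algebraMap (𝓞 K) K a)) / 2 ^ 3) (by
        have e3 : ((δ - algebraMap K (v.adicCompletion K) (algebraMap (𝓞 K) K a)) / 2 ^ 3) ^ 2 -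
            algebraMap K (v.adicCompletion K) (algebraMap (𝓞 K) K c) =
            (δ ^ 2 + algebraMap K (v.adicCompletion K) (algebraMap (𝓞 K) K (-2 * a)) * δ +
              algebraMap K (v.adicCompletion K) (algebraMap (𝓞 K) K (a ^ 2 - 64 * c))) /
                2 ^ 6 := by
          simp only [map_mul, map_sub, map_pow, map_neg, map_ofNat]
          field_simp
          ring
        rw [e3, map_div₀, map_pow, v2', one_pow, div_one]
        exact hlt)
    exact hc m hm

end Pool.Agent.MP009fd8S
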