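import Pool.Agent.Lib.MP_009fd8_agS.Near
import Pool.Agent.Lib.MP_009fd8_agS.Closure
import Pool.Agent.Lib.MP_009fd8_agS.Twist

/-!
MP_009fd8_ag, 2-isogeny descent on y^2 = x (x^2 + a n x + 16 c n^2) over an arbitrary number
field: the locally soluble classes lie in the groups G_A and G_B.
-/

namespace Pool.Agent.MP009fd8S

open IsDedekindDomain NumberField Pool.Agent.MP009fd8

variable {K : Type*} [Field K] [NumberField K]

theorem exists_place : Nonempty (HeightOneSpectrum (𝓞 K)) := by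
  obtain ⟨M, hM⟩ := Ideal.exists_maximal (𝓞 K)
  exact ⟨⟨M, hM.isPrime,
    Ring.ne_bot_of_isMaximal_of_not_isField hM (NumberField.RingOfIntegers.not_isField K)⟩⟩

theorem OnePlace.ne_zero {x : 𝓞 K} (h : OnePlace x) : x ≠ 0 := by
  rintro rfl
  obtain ⟨v⟩ := exists_place (K := K)
  obtain ⟨h1, -⟩ := h v v.asIdeal.zero_mem
  exact h1 ⟨0, by simp⟩

theorem not_isUnit_two : ¬ IsUnit (2 : 𝓞 K) := by
  intro h
  have h1 : IsIntegral ℤ ((1 : ℚ) / 2) := by
    obtain ⟨y, hy⟩ := h.exists_right_inv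
    have h2 : algebraMap ℚ K (1 / 2) = algebraMap (𝓞 K) K y := by
      have h3 : (2 : K) * algebraMap (𝓞 K) K y = 1 := by
        have := congrArg (algebraMap (𝓞 K) K) hy
        rwa [map_mul, map_ofNat, map_one] at this
      rw [map_div₀, map_one, map_ofNat]
      field_simp
      linear_combination -h3
    have h4 : IsIntegral ℤ (algebraMap ℚ K (1 / 2)) := by
      rw [h2]
      exact y.2
    exact (isIntegral_algebraMap_iff (algebraMap ℚ K).injective).mp h4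
  obtain ⟨z, hz⟩ := IsIntegrallyClosed.isIntegral_iff.mp h1
  have h5 : (2 * z : ℚ) = 1 := by
    have : ((algebraMap ℤ ℚ) z : ℚ) = z := rfl
    rw [this] at hz
    rw [hz]; norm_num
  have h6 : (2 * z : ℤ) = 1 := by exact_mod_cast h5
  omega

theorem ne_zero_of_isCoprime_two {c : 𝓞 K} (h : IsCoprime c 2) : c ≠ 0 := by
  rintro rfl
  exact not_isUnit_two (isCoprime_zero_left.mp h)

theorem LocSol.of_hasPoint {A B d : K} (h : HasPoint A B d) : LocSol K A B d :=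
  ⟨fun v => h.map (algebraMap K (v.adicCompletion K)), fun f => h.map f⟩

/-- The two descriptions of the real embeddings of type I. -/
theorem typeI_iff (a c n : 𝓞 K) (hn : n ≠ 0) (f : K →+* ℝ) :
    TypeI a c n f ↔ TypeOne (a * n) (c * n ^ 2) f := by
  have hinj := FaithfulSMul.algebraMap_injective (𝓞 K) K
  have hn' : f (algebraMap (𝓞 K) K n) ≠ 0 := by
    rw [map_ne_zero]
    exact (map_ne_zero_iff _ hinj).mpr hn
  have hn2 : 0 < f (algebraMap (𝓞 K) K n) ^ 2 := by positivity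
  unfold TypeI TypeOne
  have e1 : f (algebraMap (𝓞 K) K (c * n ^ 2)) =
      f (algebraMap (𝓞 K) K c) * f (algebraMap (𝓞 K) K n) ^ 2 := by
    simp only [map_mul, map_pow]
  have e2 : f (algebraMap (𝓞 K) K (a * n)) ^ 2 - 64 * f (algebraMap (𝓞 K) K (c * n ^ 2)) =
      f (algebraMap (𝓞 K) K (a ^ 2 - 64 * c)) * f (algebraMap (𝓞 K) K n) ^ 2 := by
    simp only [map_mul, map_pow, map_sub, map_ofNat]
    ring
  have h1 : 0 < f (algebraMap (𝓞 K) K (c * n ^ 2)) ↔ 0 < f (algebraMap (𝓞 K) K c) := by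
    rw [e1]
    exact ⟨fun h => pos_of_mul_pos_left h hn2.le, fun h => mul_pos h hn2⟩
  have h2 : f (algebraMap (𝓞 K) K (a * n)) ^ 2 < 64 * f (algebraMap (𝓞 K) K (c * n ^ 2)) ↔
      f (algebraMap (𝓞 K) K (a ^ 2 - 64 * c)) < 0 := by
    rw [← sub_neg, e2]
    exact ⟨fun h => neg_of_mul_neg_left h hn2.le, fun h => mul_neg_of_neg_of_pos h hn2⟩
  rw [h1, h2]

theorem val_bn (a c n : 𝓞 K) (v : HeightOneSpectrum (𝓞 K)) (hn : n ∉ v.asIdeal) :
    v.valuation K (algebraMap (𝓞 K) K ((a * n) ^ 2 - 64 * (c * n ^ 2))) =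
      v.valuation K (algebraMap (𝓞 K) K (a ^ 2 - 64 * c)) := by
  have e : (a * n) ^ 2 - 64 * (c * n ^ 2) = (a ^ 2 - 64 * c) * n ^ 2 := by ring
  rw [e, map_mul, map_mul, map_pow, map_pow, val_eq_one v hn, one_pow, mul_one]

theorem val_cn (c n : 𝓞 K) (v : HeightOneSpectrum (𝓞 K)) (hn : n ∉ v.asIdeal) :
    v.valuation K (algebraMap (𝓞 K) K (c * n ^ 2)) = v.valuation K (algebraMap (𝓞 K) K c) := by
  rw [map_mul, map_mul, map_pow, map_pow, val_eq_one v hn, one_pow, mul_one]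

theorem notMem_mul_sq {c n : 𝓞 K} {v : HeightOneSpectrum (𝓞 K)} (hc : c ∉ v.asIdeal)
    (hn : n ∉ v.asIdeal) : c * n ^ 2 ∉ v.asIdeal := by
  intro hmem
  rcases v.isPrime.mem_or_mem hmem with h' | h'
  · exact hc h'
  · exact hn (v.isPrime.mem_of_pow_mem 2 h')

/-- First side: the locally soluble classes lie in G_A. -/
theorem groupA_of_locSol (a c n r : 𝓞 K) (h4 : 4 ∣ a * n - r ^ 2) (ha : IsCoprime (a * n) 2)
    (hc : IsCoprime c 2)
    (hn : ∀ v : HeightOneSpectrum (𝓞 K), n ∈ v.asIdeal → ∀ m : 𝓞 K,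
      c - m ^ 2 ∉ v.asIdeal ∧ a ^ 2 - 64 * c - m ^ 2 ∉ v.asIdeal)
    (d : K) (hd : d ≠ 0)
    (h : LocSol K (algebraMap (𝓞 K) K (a * n)) (algebraMap (𝓞 K) K (16 * (c * n ^ 2))) d) :
    GroupA a c n d := by
  have hn2 : IsCoprime n 2 := IsCoprime.of_mul_left_right ha
  have hn0 : n ≠ 0 := ne_zero_of_isCoprime_two hn2
  have hcn : IsCoprime (c * n ^ 2) 2 := hc.mul_left hn2.pow_left
  have hadm := admA_of_locSol (a * n) (c * n ^ 2) r h4 ha hcn d hd h
  refine ⟨fun v hcv => ?_, fun f hf => hadm.1 f ((typeI_iff a c n hn0 f).mp hf),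
    fun v h1 h2 => ?_⟩
  · by_cases hnv : n ∈ v.asIdeal
    · exact sideA_twist a c n hn0 d hd v
        (notMem_of_isCoprime hn2.symm v hnv) hcv (fun m => (hn v hnv m).2) (h.1 v)
    · exact sideA_val (a * n) (c * n ^ 2) r h4 ha hcn d hd v (h.1 v) (notMem_mul_sq hcv hnv)
  · have hcv : c ∉ v.asIdeal := fun hcv => h1 (v.asIdeal.mul_mem_right _ hcv)
    have hnv : n ∉ v.asIdeal := fun hnv => h1 (v.asIdeal.mul_mem_left _ hnv)
    exact (hadm.2 v (notMem_mul_sq hcv hnv) (by rwa [val_bn a c n v hnv])).exists_K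

/-- Second side: the locally soluble classes lie in G_B. -/
theorem groupB_of_locSol (a c n r : 𝓞 K) (h4 : 4 ∣ a * n - r ^ 2) (ha : IsCoprime (a * n) 2)
    (hc : IsCoprime c 2) (hb : a ^ 2 - 64 * c ≠ 0)
    (hn : ∀ v : HeightOneSpectrum (𝓞 K), n ∈ v.asIdeal → ∀ m : 𝓞 K,
      c - m ^ 2 ∉ v.asIdeal ∧ a ^ 2 - 64 * c - m ^ 2 ∉ v.asIdeal)
    (d : K) (hd : d ≠ 0)
    (h : LocSol K (algebraMap (𝓞 K) K (-2 * (a * n)))
      (algebraMap (𝓞 K) K ((a * n) ^ 2 - 64 * (c * n ^ 2))) d) :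
    GroupB a c n d := by
  have hn2 : IsCoprime n 2 := IsCoprime.of_mul_left_right ha
  have hn0 : n ≠ 0 := ne_zero_of_isCoprime_two hn2
  have hc0 : c ≠ 0 := ne_zero_of_isCoprime_two hc
  have e64 : (a * n) ^ 2 - 64 * (c * n ^ 2) = (a ^ 2 - 64 * c) * n ^ 2 := by ring
  have hcn0 : c * n ^ 2 ≠ 0 := mul_ne_zero hc0 (pow_ne_zero 2 hn0)
  have hbn0 : (a * n) ^ 2 - 64 * (c * n ^ 2) ≠ 0 := by
    rw [e64]; exact mul_ne_zero hb (pow_ne_zero 2 hn0)
  have hadm := admB_of_locSol (a * n) (c * n ^ 2) r h4 ha hcn0 hbn0 d hd h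
  refine ⟨fun v hbv => ?_, fun v h2 => (hadm.2.1 v h2).exists_K,
    fun f hf => hadm.1 f (fun h' => hf ((typeI_iff a c n hn0 f).mpr h')), fun v h1 h2 => ?_⟩
  · by_cases hnv : n ∈ v.asIdeal
    · exact sideB_twist a c n hn0 d hd v (notMem_of_isCoprime hn2.symm v hnv) hbv
        (fun m => (hn v hnv m).1) (h.1 v)
    · refine sideB_val (a * n) (c * n ^ 2) d hd v (h.1 v) ?_
      rw [e64]
      exact notMem_mul_sq hbv hnv
  · have hbv : a ^ 2 - 64 * c ∉ v.asIdeal := fun hbv => h1 (v.asIdeal.mul_mem_right _ hbv)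
    have hnv : n ∉ v.asIdeal := fun hnv => h1 (v.asIdeal.mul_mem_left _ hnv)
    refine (hadm.2.2 v ?_ (by rwa [val_cn c n v hnv])).exists_K
    rw [e64]
    exact notMem_mul_sq hbv hnv

/-- A set of classes with points generating G: every class of G has a point. -/
theorem hasPoint_of_generates {A B : K} (hB : B ≠ 0) {S : Set K}
    (hS : ∀ g ∈ S, g ≠ 0 ∧ HasPoint A B g) {G : K → Prop} (hgen : Generates S G) (d : K)
    (hd : d ≠ 0) (h : G d) : HasPoint A B d := by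
  classical
  obtain ⟨s, w, hs, hw, rfl⟩ := hgen d hd h
  have key : ∀ s : Finset K, (s : Set K) ⊆ S → (∏ g ∈ s, g) ≠ 0 ∧ HasPoint A B (∏ g ∈ s, g) := by
    intro s
    induction s using Finset.induction_on with
    | empty => intro _; simpa using hasPoint_one A B
    | insert g s hg ih =>
      intro hs
      rw [Finset.coe_insert, Set.insert_subset_iff] at hs
      obtain ⟨h1, h2⟩ := ih hs.2
      obtain ⟨h3, h4⟩ := hS g hs.1
      rw [Finset.prod_insert hg]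
      exact ⟨mul_ne_zero h3 h1, h4.mul hB h3 h1 h2⟩
  exact (key s hs).2.mul_sq hw

theorem GroupA.mul {a c n : 𝓞 K} {x y : K} (hx : GroupA a c n x) (hy : GroupA a c n y) :
    GroupA a c n (x * y) := by
  refine ⟨fun v h => ?_, fun f hf => ?_, fun v h1 h2 => ?_⟩
  · rw [map_mul]; exact (hx.1 v h).mul (hy.1 v h)
  · rw [map_mul]; exact mul_pos (hx.2.1 f hf) (hy.2.1 f hf)
  · obtain ⟨g, hg⟩ := hx.2.2 v h1 h2
    obtain ⟨h, hh⟩ := hy.2.2 v h1 h2
    exact ⟨g * h, near_mul _ _ _ _ _ hg hh⟩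

theorem GroupA.sq (a c n : 𝓞 K) {s : K} (hs : s ≠ 0) : GroupA a c n (s ^ 2) := by
  refine ⟨fun v h => ?_, fun f hf => ?_, fun v h1 h2 => ⟨s, ?_⟩⟩
  · rw [map_pow]; exact IsSquare.sq _
  · rw [map_pow]
    have : f s ≠ 0 := (map_ne_zero f).mpr hs
    positivity
  · rw [sub_self, map_zero]
    exact zero_lt_iff.mpr ((Valuation.ne_zero_iff _).mpr (pow_ne_zero 2 hs))

theorem GroupB.mul {a c n : 𝓞 K} {x y : K} (hx : GroupB a c n x) (hy : GroupB a c n y) :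
    GroupB a c n (x * y) := by
  refine ⟨fun v h => ?_, fun v h => ?_, fun f hf => ?_, fun v h1 h2 => ?_⟩
  · rw [map_mul]; exact (hx.1 v h).mul (hy.1 v h)
  · obtain ⟨g, hg⟩ := hx.2.1 v h
    obtain ⟨h, hh⟩ := hy.2.1 v h
    exact ⟨g * h, near_mul' _ _ _ _ _ _ (val_four_le v) hg hh⟩
  · rw [map_mul]; exact mul_pos (hx.2.2.1 f hf) (hy.2.2.1 f hf)
  · obtain ⟨g, hg⟩ := hx.2.2.2 v h1 h2
    obtain ⟨h, hh⟩ := hy.2.2.2 v h1 h2
    exact ⟨g * h, near_mul _ _ _ _ _ hg hh⟩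

theorem GroupB.sq (a c n : 𝓞 K) {s : K} (hs : s ≠ 0) : GroupB a c n (s ^ 2) := by
  refine ⟨fun v h => ?_, fun v h => ⟨s, ?_⟩, fun f hf => ?_, fun v h1 h2 => ⟨s, ?_⟩⟩
  · rw [map_pow]; exact IsSquare.sq _
  · rw [sub_self, map_zero]; exact zero_le
  · rw [map_pow]
    have : f s ≠ 0 := (map_ne_zero f).mpr hs
    positivity
  · rw [sub_self, map_zero]
    exact zero_lt_iff.mpr ((Valuation.ne_zero_iff _).mpr (pow_ne_zero 2 hs))

end Pool.Agent.MP009fd8S
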