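import Pool.Agent.Lib.MP_009fd8_agS.GMain
import Pool.Agent.Lib.MP_009fd8_agS.Group
import Pool.Agent.Lib.MP_009fd8_agS.SignSq
import Pool.Agent.Lib.MP_009fd8_agS.Final

/-!
MP_009fd8_ag, 2-isogeny descent on y^2 = x (x^2 + A x + B): the final form.
-/

namespace Pool.Agent.MP009fd8S

open IsDedekindDomain NumberField Pool.Agent.MP009fd8

variable {K : Type*} [Field K] [NumberField K]

/-- The elements of G(A, B) have even valuation at all places with at most one exception, at which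
the valuation of B is odd. -/
def OneBad (A B : K) : Prop :=
  ∀ (v : HeightOneSpectrum (𝓞 K)) (x : K), x ≠ 0 → Grp A B x → ¬ IsSquare (v.valuation K x) →
    ¬ IsSquare (v.valuation K B) ∧
      ∀ (w : HeightOneSpectrum (𝓞 K)) (y : K), y ≠ 0 → Grp A B y →
        ¬ IsSquare (w.valuation K y) → w = v

/-- Odd class number: elements with even valuations in G(A, B), from the units. -/
theorem even_of_unit {A B : K} (hB : B ≠ 0) (hclass : Odd (NumberField.classNumber K))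
    (hU : ∀ u : (𝓞 K)ˣ, Grp A B (algebraMap (𝓞 K) K (u : 𝓞 K)) → ∃ t : K,
      algebraMap (𝓞 K) K (u : 𝓞 K) = t ^ 2 ∨ algebraMap (𝓞 K) K (u : 𝓞 K) = B * t ^ 2)
    (x : K) (hx : x ≠ 0) (hG : Grp A B x)
    (hs : ∀ v : HeightOneSpectrum (𝓞 K), IsSquare (v.valuation K x)) :
    ∃ t : K, x = t ^ 2 ∨ x = B * t ^ 2 := by
  obtain ⟨u, w, hw, e⟩ := exists_unit_mul_sq hclass x hx hs
  have g := hG.mul hB (Grp.sq A B (inv_ne_zero hw))
  have e1 : x * w⁻¹ ^ 2 = algebraMap (𝓞 K) K (u : 𝓞 K) := by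
    rw [e]; field_simp
  rw [e1] at g
  obtain ⟨t, ht | ht⟩ := hU u g
  · exact ⟨t * w, Or.inl (by rw [e, ht]; ring)⟩
  · exact ⟨t * w, Or.inr (by rw [e, ht]; ring)⟩

/-- Rank 0. -/
theorem torsion_of_oneBad {A B : K} (hB : B ≠ 0) (hB' : A ^ 2 - 4 * B ≠ 0)
    (hbad : OneBad A B)
    (hE : ∀ x : K, x ≠ 0 → Grp A B x →
      (∀ v : HeightOneSpectrum (𝓞 K), IsSquare (v.valuation K x)) →
      ∃ t : K, x = t ^ 2 ∨ x = B * t ^ 2)
    (d : K) (hd : d ≠ 0) (h : Grp A B d) : ∃ w : K, w ≠ 0 ∧ (d = w ^ 2 ∨ d = B * w ^ 2) := by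
  have hGB : Grp A B B :=
    grp_of_locSol hB hB' hB (LocSol.of_hasPoint (hasPoint_B A B))
  have even : ∀ x : K, x ≠ 0 → Grp A B x →
      (∀ v : HeightOneSpectrum (𝓞 K), IsSquare (v.valuation K x)) →
      ∃ w : K, w ≠ 0 ∧ (x = w ^ 2 ∨ x = B * w ^ 2) := by
    intro x hx hG hs
    obtain ⟨t, ht | ht⟩ := hE x hx hG hs
    · exact ⟨t, by rintro rfl; exact hx (by rw [ht]; ring), Or.inl ht⟩
    · exact ⟨t, by rintro rfl; exact hx (by rw [ht]; ring), Or.inr ht⟩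
  by_cases hall : ∀ v : HeightOneSpectrum (𝓞 K), IsSquare (v.valuation K d)
  · exact even d hd h hall
  · push Not at hall
    obtain ⟨v0, hv0⟩ := hall
    obtain ⟨h1, h2⟩ := hbad v0 d hd h hv0
    obtain ⟨w, hw, e | e⟩ := even (B * d) (mul_ne_zero hB hd) (hGB.mul hB h) (fun w => by
      by_cases hw : w = v0
      · rw [hw, map_mul]
        exact isSquare_mul_of_not h1 hv0
      · rw [map_mul]
        refine IsSquare.mul ?_ ?_
        · by_contra hcon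
          exact hw (h2 w B hB hGB hcon)
        · by_contra hcon
          exact hw (h2 w d hd h hcon))
    · refine ⟨w / B, div_ne_zero hw hB, Or.inr ?_⟩
      field_simp
      linear_combination e
    · refine ⟨w, hw, Or.inl ?_⟩
      apply mul_left_cancel₀ hB
      exact e

/-- Odd class number: the units of G(A, B) are squares. -/
theorem unit_square {A B : K} (hclass : Odd (NumberField.classNumber K))
    (h2 : ∀ v : HeightOneSpectrum (𝓞 K), (2 : 𝓞 K) ∈ v.asIdeal → FourAt A B v)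
    (hV : ∀ S : Set (K →+* ℝ), ∃ t : (𝓞 K)ˣ, ∀ f : K →+* ℝ, ¬ NegAt A B f →
      (f (algebraMap (𝓞 K) K (t : 𝓞 K)) < 0 ↔ f ∈ S))
    (u : (𝓞 K)ˣ) (hu : Grp A B (algebraMap (𝓞 K) K (u : 𝓞 K))) : IsSquare u := by
  obtain ⟨m, hm⟩ := exists_four_dvd (u : 𝓞 K) (by
    intro v hv
    obtain ⟨g, hg⟩ := hu.2.2.2.1 v (h2 v hv)
    refine ⟨algebraMap K (v.adicCompletion K) g, ?_⟩
    rw [← map_pow, ← map_sub, val_completion]
    rwa [val_unit, mul_one] at hg)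
  refine isSquare_of_sq_mod_four_of_sign hclass u m hm fun S => ?_
  obtain ⟨t, ht⟩ := hV S
  refine ⟨t, fun f hf => ht f ?_⟩
  intro hcon
  exact absurd hf (not_lt.mpr (hu.2.2.2.2 f hcon).le)

/-- The descent. -/
theorem gfinal (A B : K) (hB : B ≠ 0) (hB' : A ^ 2 - 4 * B ≠ 0) :
    (∀ d : K, d ≠ 0 → LocSol K A B d → Grp A B d) ∧
    (∀ S : Set K, (∀ g ∈ S, g ≠ 0 ∧ HasPoint A B g) → Generates S (Grp A B) →
      ∀ d : K, d ≠ 0 → (LocSol K A B d ↔ HasPoint A B d) ∧ (HasPoint A B d ↔ Grp A B d)) ∧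
    (OneBad A B →
      (∀ x : K, x ≠ 0 → Grp A B x →
        (∀ v : HeightOneSpectrum (𝓞 K), IsSquare (v.valuation K x)) →
        ∃ t : K, x = t ^ 2 ∨ x = B * t ^ 2) →
      ∀ d : K, d ≠ 0 →
        (LocSol K A B d ↔ ∃ w : K, w ≠ 0 ∧ (d = w ^ 2 ∨ d = B * w ^ 2))) ∧
    (Odd (NumberField.classNumber K) →
      ((∀ u : (𝓞 K)ˣ, Grp A B (algebraMap (𝓞 K) K (u : 𝓞 K)) → ∃ t : K,
          algebraMap (𝓞 K) K (u : 𝓞 K) = t ^ 2 ∨
            algebraMap (𝓞 K) K (u : 𝓞 K) = B * t ^ 2) →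
        ∀ x : K, x ≠ 0 → Grp A B x →
          (∀ v : HeightOneSpectrum (𝓞 K), IsSquare (v.valuation K x)) →
          ∃ t : K, x = t ^ 2 ∨ x = B * t ^ 2) ∧
      ((∀ v : HeightOneSpectrum (𝓞 K), (2 : 𝓞 K) ∈ v.asIdeal → FourAt A B v) →
        (∀ S : Set (K →+* ℝ), ∃ t : (𝓞 K)ˣ, ∀ f : K →+* ℝ, ¬ NegAt A B f →
          (f (algebraMap (𝓞 K) K (t : 𝓞 K)) < 0 ↔ f ∈ S)) →
        ∀ u : (𝓞 K)ˣ, Grp A B (algebraMap (𝓞 K) K (u : 𝓞 K)) → IsSquare u)) := by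
  have a1 : ∀ d : K, d ≠ 0 → LocSol K A B d → Grp A B d :=
    fun d hd h => grp_of_locSol hB hB' hd h
  refine ⟨a1, ?_, ?_, fun hclass => ⟨?_, ?_⟩⟩
  · intro S hS gS d hd
    have a2 := hasPoint_of_generates hB hS gS d hd
    exact ⟨⟨fun h => a2 (a1 d hd h), LocSol.of_hasPoint⟩,
      fun h => a1 d hd (LocSol.of_hasPoint h), a2⟩
  · intro hbad hE d hd
    refine ⟨fun h => torsion_of_oneBad hB hB' hbad hE d hd (a1 d hd h), ?_⟩
    rintro ⟨w, hw, rfl | rfl⟩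
    · exact LocSol.of_hasPoint (hasPoint_sq _ _ _)
    · exact LocSol.of_hasPoint ((hasPoint_B A B).mul_sq hw)
  · intro hU
    exact even_of_unit hB hclass hU
  · intro h2 hV u hu
    exact unit_square hclass h2 hV u hu

end Pool.Agent.MP009fd8S
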