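import Pool.Agent.Lib.MP_009fd8_agS.AtTwo
import Pool.Agent.Lib.MP_009fd8_agS.Closure

/-!
MP_009fd8_ag, 2-isogeny descent on y^2 = x (x^2 + A x + B): local lemmas over a valued field.
-/

namespace Pool.Agent.MP009fd8S

/-- Rescaling the curve. -/
theorem HasPoint.rescale {F : Type*} [Field F] {A B d t : F} (ht : t ≠ 0)
    (h : HasPoint A B d) : HasPoint (A * t ^ 2) (B * t ^ 4) d := by
  obtain ⟨M, e, N, h0, h1⟩ := h
  refine ⟨M, e / t, N, ?_, ?_⟩
  · rcases h0 with h0 | h0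
    · exact Or.inl h0
    · exact Or.inr (div_ne_zero h0 ht)
  · rw [h1]
    field_simp

section Valued

variable {F : Type*} [Field F] {Γ : Type*} [LinearOrderedCommGroupWithZero Γ] (v : Valuation F Γ)

private theorem sq_auxG {x s r : Γ} (h : x * s = r) (hs : s ≠ 0) (h1 : IsSquare s)
    (h2 : IsSquare r) : IsSquare x := by
  have e : x = r / s := eq_div_of_mul_eq hs h
  rw [e]
  exact h2.div h1

/-- If N ^ 2 is q * y ^ 2 up to smaller terms (y nonzero), then q is near a square. -/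
theorem near_of_mul_sq {q y N : F} (hy : y ≠ 0) (h : v (q * y ^ 2 - N ^ 2) < v (q * y ^ 2)) :
    v (q - (N / y) ^ 2) < v q := by
  have vy : 0 < v (y ^ 2) := zero_lt_iff.mpr ((Valuation.ne_zero_iff v).2 (pow_ne_zero 2 hy))
  have e : q - (N / y) ^ 2 = (q * y ^ 2 - N ^ 2) / y ^ 2 := by field_simp
  have e2 : v q = v (q * y ^ 2) / v (y ^ 2) := by
    rw [map_mul, mul_div_assoc, div_self vy.ne', mul_one]
  rw [e, map_div₀, e2]
  exact div_lt_div_of_pos_right h vy

/-- If d is q * y ^ 2 up to smaller terms and q is near a square then d is near a square. -/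
theorem near_trans {q d y g : F} (h : v (d - q * y ^ 2) < v d) (hg : v (q - g ^ 2) < v q) :
    v (d - (g * y) ^ 2) < v d := by
  have e0 : v (q * y ^ 2) = v d := by
    have e : q * y ^ 2 = d - (d - q * y ^ 2) := by ring
    rw [e, Valuation.map_sub_eq_of_lt_left v h]
  have vd : 0 < v d := lt_of_le_of_lt zero_le h
  have vy : 0 < v (y ^ 2) := by
    rw [zero_lt_iff]
    intro h0
    rw [map_mul, h0, mul_zero] at e0
    exact vd.ne e0
  have e : d - (g * y) ^ 2 = (d - q * y ^ 2) + (q - g ^ 2) * y ^ 2 := by ring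
  rw [e]
  refine Valuation.map_add_lt v h ?_
  rw [← e0, map_mul, map_mul]
  exact mul_lt_mul_of_pos_right hg vy

/-- Classes r ^ 2 * q with q near a square. -/
theorem near_mul_sq {q g r : F} (hr : r ≠ 0) (hg : v (q - g ^ 2) < v q) :
    v (q * r ^ 2 - (g * r) ^ 2) < v (q * r ^ 2) := by
  apply near_trans v _ hg
  rw [sub_self, map_zero]
  have vq : 0 < v q := lt_of_le_of_lt zero_le hg
  rw [map_mul]
  exact mul_pos vq (zero_lt_iff.mpr ((Valuation.ne_zero_iff v).2 (pow_ne_zero 2 hr)))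

/-- (i) of EvenAt. -/
theorem even_one (A B s d : F) (hs : s ≠ 0) (hd : d ≠ 0) (hA : v A ^ 2 ≤ v B)
    (hB : v B = v s ^ 4) (h : HasPoint A B d) : IsSquare (v d) := by
  have h1 := h.rescale (inv_ne_zero hs)
  have vs : 0 < v s := zero_lt_iff.mpr ((Valuation.ne_zero_iff v).2 hs)
  refine isSquare_away v _ _ d hd ?_ ?_ h1
  · have h2 : v A ≤ v s ^ 2 := by
      have h3 : v A ^ 2 ≤ (v s ^ 2) ^ 2 := by rw [← pow_mul]; exact hA.trans hB.le
      exact (pow_le_pow_iff_left₀ zero_le zero_le two_ne_zero).mp h3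
    rw [map_mul, map_pow, map_inv₀]
    calc v A * (v s)⁻¹ ^ 2 ≤ v s ^ 2 * (v s)⁻¹ ^ 2 := by gcongr
      _ = 1 := by rw [← mul_pow, mul_inv_cancel₀ vs.ne', one_pow]
  · rw [map_mul, map_pow, map_inv₀, hB, ← mul_pow, mul_inv_cancel₀ vs.ne', one_pow]

/-- A point (x, y) of the curve with v(x) larger than all the rest. -/
theorem val_point_large {A B x y σ : F} (hx : x ≠ 0) (hA : v A ≤ v σ) (hB : v B ≤ v σ ^ 2)
    (hσ : v σ < v x) (h : y ^ 2 = x * (x ^ 2 + A * x + B)) :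
    v (x * x ^ 2 - y ^ 2) < v (x * x ^ 2) := by
  have vx : 0 < v x := zero_lt_iff.mpr ((Valuation.ne_zero_iff v).2 hx)
  have e : x * x ^ 2 - y ^ 2 = x * (-(A * x + B)) := by rw [h]; ring
  rw [e, map_mul, map_mul, Valuation.map_neg]
  refine mul_lt_mul_of_pos_left ?_ vx
  rw [map_pow]
  refine Valuation.map_add_lt v ?_ ?_
  · rw [map_mul, pow_two]
    exact mul_lt_mul_of_pos_right (lt_of_le_of_lt hA hσ) vx
  · exact lt_of_le_of_lt hB (pow_lt_pow_left₀ hσ zero_le two_ne_zero)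

/-- A point (x, y) of the curve with v(x) smaller than all the rest. -/
theorem val_point_small {A B x y σ : F} (hx : x ≠ 0) (hA : v A ≤ v σ) (hB : v B = v σ ^ 2)
    (hσ : v x < v σ) (h : y ^ 2 = x * (x ^ 2 + A * x + B)) :
    v (x * B - y ^ 2) < v (x * B) := by
  have vx : 0 < v x := zero_lt_iff.mpr ((Valuation.ne_zero_iff v).2 hx)
  have vσ : 0 < v σ := lt_of_le_of_lt zero_le hσ
  have e : x * B - y ^ 2 = x * (-(x ^ 2 + A * x)) := by rw [h]; ring
  rw [e, map_mul, map_mul, Valuation.map_neg]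
  refine mul_lt_mul_of_pos_left ?_ vx
  rw [hB]
  refine Valuation.map_add_lt v ?_ ?_
  · rw [map_pow]
    exact pow_lt_pow_left₀ hσ zero_le two_ne_zero
  · rw [map_mul, pow_two]
    calc v A * v x ≤ v σ * v x := mul_le_mul' hA le_rfl
      _ < v σ * v σ := mul_lt_mul_of_pos_left hσ vσ

theorem val_eq_of_sub_lt {x y : F} (h : v (x - y) < v x) : v y = v x := by
  have e : y = x - (x - y) := by ring
  rw [e, Valuation.map_sub_eq_of_lt_left v h]

/-- Even valuations at the places TorAt (ii). -/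
theorem even_two (A B s d : F) (hB0 : B ≠ 0) (hd : d ≠ 0) (h4 : v 4 ≤ 1)
    (hA : v A ^ 2 ≤ v B) (hB : v B = v s ^ 2) (hB' : v (A ^ 2 - 4 * B) = v B)
    (hns : ∀ g : F, ¬ v (A ^ 2 - 4 * B - g ^ 2) < v (A ^ 2 - 4 * B))
    (h : HasPoint A B d) : IsSquare (v d) := by
  have hsq : ∀ x : Γ, IsSquare (x ^ 2) := fun x => IsSquare.sq x
  have hAs : v A ≤ v s := by
    rw [hB] at hA
    exact (pow_le_pow_iff_left₀ zero_le zero_le two_ne_zero).mp hA
  rcases h.cases hd hB0 with ⟨r, hr, e⟩ | ⟨r, hr, e⟩ | ⟨x, y, r, hx, hr, e, hxy⟩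
  · rw [e, one_mul, map_pow]
    exact hsq _
  · rw [e, map_mul, hB, map_pow]
    exact (hsq _).mul (hsq _)
  · rw [e, map_mul, map_pow]
    refine IsSquare.mul ?_ (hsq _)
    have vx : v x ≠ 0 := (Valuation.ne_zero_iff v).2 hx
    rcases lt_trichotomy (v x) (v s) with hlt | heq | hgt
    · have h1 := val_eq_of_sub_lt v (val_point_small v hx hAs hB hlt hxy)
      rw [map_mul, hB, map_pow] at h1
      exact sq_auxG h1.symm (by rw [← hB]; exact (Valuation.ne_zero_iff v).2 hB0) (hsq _) (hsq _)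
    · have h2 : v (x ^ 2 + A * x + B) = v s ^ 2 := by
        apply le_antisymm
        · refine Valuation.map_add_le v (Valuation.map_add_le v ?_ ?_) hB.le
          · rw [map_pow, heq]
          · rw [map_mul, heq, pow_two]
            exact mul_le_mul' hAs le_rfl
        · by_contra hcon
          have hcon := not_le.mp hcon
          apply hns (2 * x + A)
          rw [hB', hB]
          have e : A ^ 2 - 4 * B - (2 * x + A) ^ 2 = -(4 * (x ^ 2 + A * x + B)) := by ring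
          rw [e, Valuation.map_neg, map_mul]
          calc v 4 * v (x ^ 2 + A * x + B) ≤ 1 * v (x ^ 2 + A * x + B) := mul_le_mul' h4 le_rfl
            _ = v (x ^ 2 + A * x + B) := one_mul _
            _ < _ := hcon
      have h3 : v x * v s ^ 2 = v y ^ 2 := by
        rw [← h2, ← map_mul, ← map_pow, hxy]
      exact sq_auxG h3 (by rw [← hB]; exact (Valuation.ne_zero_iff v).2 hB0) (hsq _) (hsq _)
    · have h1 := val_eq_of_sub_lt v (val_point_large v hx hAs hB.le hgt hxy)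
      rw [map_mul, map_pow, map_pow] at h1
      exact sq_auxG h1.symm (pow_ne_zero 2 vx) (hsq _) (hsq _)

/-- (ii) of EvenAt. -/
theorem even_three (A B d : F) (hB0 : B ≠ 0) (hd : d ≠ 0) (hAB : v B < v A ^ 2)
    (hB : IsSquare (v B)) (hA : IsSquare (v A)) (hns : ∀ g : F, ¬ v (A - g ^ 2) < v A)
    (h : HasPoint A B d) : IsSquare (v d) := by
  have hsq : ∀ x : Γ, IsSquare (x ^ 2) := fun x => IsSquare.sq x
  rcases h.cases hd hB0 with ⟨r, hr, e⟩ | ⟨r, hr, e⟩ | ⟨x, y, r, hx, hr, e, hxy⟩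
  · rw [e, one_mul, map_pow]
    exact hsq _
  · rw [e, map_mul, map_pow]
    exact hB.mul (hsq _)
  · rw [e, map_mul, map_pow]
    refine IsSquare.mul ?_ (hsq _)
    by_contra hcon
    have vx : 0 < v x := zero_lt_iff.mpr ((Valuation.ne_zero_iff v).2 hx)
    have vB : v B ≠ 0 := (Valuation.ne_zero_iff v).2 hB0
    rcases lt_trichotomy (v x) (v A) with hlt | heq | hgt
    · have vA : 0 < v A := lt_trans vx hlt
      rcases lt_trichotomy (v A * v x) (v B) with hlt2 | heq2 | hgt2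
      · -- B dominates
        have h1 : v (x ^ 2 + A * x + B) = v B := by
          apply Valuation.map_add_eq_of_lt_right
          refine Valuation.map_add_lt v ?_ (by rw [map_mul]; exact hlt2)
          rw [map_pow, pow_two]
          exact lt_trans (mul_lt_mul_of_pos_right hlt vx) hlt2
        have h3 : v x * v B = v y ^ 2 := by
          rw [← h1, ← map_mul, ← map_pow, hxy]
        exact hcon (sq_auxG h3 vB hB (hsq _))
      · apply hcon
        rw [mul_comm] at heq2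
        exact sq_auxG heq2 vA.ne' hA hB
      · -- A x dominates
        have hA0 : A ≠ 0 := (Valuation.ne_zero_iff v).1 vA.ne'
        apply hns (y / x)
        refine near_of_mul_sq v hx ?_
        have e : A * x ^ 2 - y ^ 2 = x * (-(x ^ 2 + B)) := by rw [hxy]; ring
        have e2 : A * x ^ 2 = x * (A * x) := by ring
        rw [e, e2, map_mul v x, map_mul v x (A * x), Valuation.map_neg]
        refine mul_lt_mul_of_pos_left ?_ vx
        refine Valuation.map_add_lt v ?_ (by rw [map_mul]; exact hgt2)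
        rw [map_pow, pow_two, map_mul]
        exact mul_lt_mul_of_pos_right hlt vx
    · exact hcon (heq ▸ hA)
    · -- x ^ 2 dominates
      have h1 := val_eq_of_sub_lt v (val_point_large v hx le_rfl hAB.le hgt hxy)
      rw [map_mul, map_pow, map_pow] at h1
      exact hcon (sq_auxG h1.symm (pow_ne_zero 2 vx.ne') (hsq _) (hsq _))

/-- (iii) of EvenAt. -/
theorem even_four (A B r d : F) (h2 : v 2 < 1) (h20 : (2 : F) ≠ 0) (hd : d ≠ 0) (hB0 : B ≠ 0)
    (hA : v (A - r ^ 2) ≤ v 4 * v A) (hB : v B = v 16 * v A ^ 2)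
    (h : HasPoint A B d) : IsSquare (v d) := by
  have v4 : v 4 = v 2 ^ 2 := by rw [← map_pow]; norm_num
  have v16 : v 16 = v 2 ^ 4 := by rw [← map_pow]; norm_num
  have h160 : (16 : F) ≠ 0 := by
    rw [show (16 : F) = 2 ^ 4 by norm_num]; exact pow_ne_zero 4 h20
  have vA : 0 < v A := by
    rw [zero_lt_iff]
    intro h0
    rw [h0, zero_pow two_ne_zero, mul_zero] at hB
    exact (Valuation.ne_zero_iff v).2 hB0 hB
  have h4 : v 4 < 1 := by rw [v4]; exact pow_lt_one₀ zero_le h2 two_ne_zero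
  have hlt : v (A - r ^ 2) < v A := by
    refine lt_of_le_of_lt hA ?_
    calc v 4 * v A < 1 * v A := mul_lt_mul_of_pos_right h4 vA
      _ = _ := one_mul _
  have vr : v r ^ 2 = v A := by rw [← map_pow]; exact val_eq_of_sub_lt v hlt
  have hr : r ≠ 0 := by
    rintro rfl
    rw [map_zero, zero_pow two_ne_zero] at vr
    exact vA.ne vr
  have h1 := h.rescale (inv_ne_zero hr)
  rw [show B * r⁻¹ ^ 4 = 16 * (B * r⁻¹ ^ 4 / 16) by field_simp] at h1
  have vr0 : v r ≠ 0 := (Valuation.ne_zero_iff v).2 hr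
  refine isSquare_two v (A * r⁻¹ ^ 2) (B * r⁻¹ ^ 4 / 16) 1 d h2 ?_ ?_ (map_one v) ?_ hd h20 h1
  · rw [map_mul, map_pow, map_inv₀, ← vr, ← mul_pow, mul_inv_cancel₀ vr0, one_pow]
  · rw [map_div₀, map_mul, map_pow, map_inv₀, hB, ← vr, ← pow_mul, mul_assoc, ← mul_pow,
      mul_inv_cancel₀ vr0, one_pow, mul_one, div_self ((Valuation.ne_zero_iff v).2 h160)]
  · have e : A * r⁻¹ ^ 2 - 1 ^ 2 = (A - r ^ 2) * r⁻¹ ^ 2 := by field_simp
    rw [e, map_mul, map_pow, map_inv₀, ← v4]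
    calc v (A - r ^ 2) * (v r)⁻¹ ^ 2 ≤ v 4 * v A * (v r)⁻¹ ^ 2 := mul_le_mul' hA le_rfl
      _ = v 4 := by
        rw [← vr, mul_assoc, ← mul_pow, mul_inv_cancel₀ vr0, one_pow, mul_one]

/-- The places FourAt. -/
theorem four_of_dual (A B r d : F) (h2 : v 2 < 1) (h20 : (2 : F) ≠ 0) (hd : d ≠ 0)
    (hB' : A ^ 2 - 4 * B ≠ 0)
    (hA : v (-2 * A - r ^ 2) ≤ v 4 * v (-2 * A))
    (hB : v (A ^ 2 - 4 * B) ≤ v 16 * v (-2 * A) ^ 2)
    (h : HasPoint A B d) : ∃ g : F, v (d - g ^ 2) ≤ v 4 * v d := by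
  have v4 : v 4 = v 2 ^ 2 := by rw [← map_pow]; norm_num
  have h160 : (16 : F) ≠ 0 := by
    rw [show (16 : F) = 2 ^ 4 by norm_num]; exact pow_ne_zero 4 h20
  have v160 : 0 < v 16 := zero_lt_iff.mpr ((Valuation.ne_zero_iff v).2 h160)
  have vA : 0 < v (-2 * A) := by
    rw [zero_lt_iff]
    intro h0
    rw [h0, zero_pow two_ne_zero, mul_zero] at hB
    exact (Valuation.ne_zero_iff v).2 hB' (le_antisymm hB zero_le)
  have h4 : v 4 < 1 := by rw [v4]; exact pow_lt_one₀ zero_le h2 two_ne_zero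
  have hlt : v (-2 * A - r ^ 2) < v (-2 * A) := by
    refine lt_of_le_of_lt hA ?_
    calc v 4 * v (-2 * A) < 1 * v (-2 * A) := mul_lt_mul_of_pos_right h4 vA
      _ = _ := one_mul _
  have vr : v r ^ 2 = v (-2 * A) := by rw [← map_pow]; exact val_eq_of_sub_lt v hlt
  have hr : r ≠ 0 := by
    rintro rfl
    rw [map_zero, zero_pow two_ne_zero] at vr
    exact vA.ne vr
  have vr0 : v r ≠ 0 := (Valuation.ne_zero_iff v).2 hr
  have h1 := h.rescale (div_ne_zero h20 hr)
  have e1 : A * (2 / r) ^ 2 = -2 * (-2 * A * r⁻¹ ^ 2) := by field_simp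
  have e2 : B * (2 / r) ^ 4 =
      (-2 * A * r⁻¹ ^ 2) ^ 2 - 64 * ((A ^ 2 - 4 * B) * r⁻¹ ^ 4 / 16) := by
    field_simp; ring
  rw [e1, e2] at h1
  obtain ⟨g, hg⟩ := sq_mod_four v (-2 * A * r⁻¹ ^ 2) ((A ^ 2 - 4 * B) * r⁻¹ ^ 4 / 16) 1 d h2
    (by rw [map_mul, map_pow, map_inv₀, ← vr, ← mul_pow, mul_inv_cancel₀ vr0, one_pow])
    (by
      rw [map_div₀, map_mul, map_pow, map_inv₀, div_le_one₀ v160]
      calc v (A ^ 2 - 4 * B) * (v r)⁻¹ ^ 4 ≤ v 16 * v (-2 * A) ^ 2 * (v r)⁻¹ ^ 4 :=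
            mul_le_mul' hB le_rfl
        _ = v 16 := by
          rw [← vr, ← pow_mul, mul_assoc, ← mul_pow, mul_inv_cancel₀ vr0, one_pow, mul_one])
    (by
      have e : -2 * A * r⁻¹ ^ 2 - 1 ^ 2 = (-2 * A - r ^ 2) * r⁻¹ ^ 2 := by field_simp
      rw [e, map_mul, map_pow, map_inv₀, ← v4]
      calc v (-2 * A - r ^ 2) * (v r)⁻¹ ^ 2 ≤ v 4 * v (-2 * A) * (v r)⁻¹ ^ 2 :=
            mul_le_mul' hA le_rfl
        _ = v 4 := by
          rw [← vr, mul_assoc, ← mul_pow, mul_inv_cancel₀ vr0, one_pow, mul_one])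
    hd h1
  exact ⟨g, by rw [v4]; exact hg⟩

/-- (i) of SqAt. -/
theorem sq_one (A B d g : F) (h20 : (2 : F) ≠ 0) (hB0 : B ≠ 0) (hd : d ≠ 0)
    (hB' : v (A ^ 2 - 4 * B) < v A ^ 2) (hg : v (-2 * A - g ^ 2) < v (-2 * A))
    (h : HasPoint A B d) : ∃ k : F, v (d - k ^ 2) < v d := by
  have h40 : (4 : F) ≠ 0 := by
    rw [show (4 : F) = 2 ^ 2 by norm_num]; exact pow_ne_zero 2 h20
  have vA : 0 < v A ^ 2 := lt_of_le_of_lt zero_le hB'
  rcases h.cases hd hB0 with ⟨r, hr, e⟩ | ⟨r, hr, e⟩ | ⟨x, y, r, hx, hr, e, hxy⟩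
  · refine ⟨r, ?_⟩
    rw [e, one_mul, sub_self, map_zero]
    exact zero_lt_iff.mpr ((Valuation.ne_zero_iff v).2 (pow_ne_zero 2 hr))
  · refine ⟨(A / 2) * r, ?_⟩
    rw [e]
    refine near_mul_sq v hr (near_of_mul_sq v h20 ?_)
    have e1 : B * 2 ^ 2 - A ^ 2 = -(A ^ 2 - 4 * B) := by ring
    have e2 : v (B * 2 ^ 2) = v A ^ 2 := by
      have e3 : B * 2 ^ 2 = A ^ 2 - (A ^ 2 - 4 * B) := by ring
      rw [e3, ← map_pow]
      exact Valuation.map_sub_eq_of_lt_left v (by rw [map_pow]; exact hB')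
    rw [e1, Valuation.map_neg, e2]
    exact hB'
  · have hxn : ∃ k : F, v (x - k ^ 2) < v x := by
      have e4 : 4 * y ^ 2 = x * ((2 * x + A) ^ 2 - (A ^ 2 - 4 * B)) := by rw [hxy]; ring
      rcases lt_or_ge (v (A ^ 2 - 4 * B)) (v (2 * x + A) ^ 2) with hlt | hge
      · have hX : 2 * x + A ≠ 0 := by
          intro h0
          rw [h0, map_zero, zero_pow two_ne_zero] at hlt
          exact absurd hlt (not_lt.mpr zero_le)
        refine ⟨2 * y / (2 * x + A), near_of_mul_sq v hX ?_⟩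
        have e5 : x * (2 * x + A) ^ 2 - (2 * y) ^ 2 = x * (A ^ 2 - 4 * B) := by
          linear_combination -e4
        rw [e5, map_mul, map_mul, map_pow]
        exact mul_lt_mul_of_pos_left hlt (zero_lt_iff.mpr ((Valuation.ne_zero_iff v).2 hx))
      · have hlt : v (2 * x + A) < v A := by
          have := lt_of_le_of_lt hge hB'
          exact lt_of_pow_lt_pow_left₀ 2 zero_le this
        refine ⟨g * (1 / 2), near_trans v (q := -2 * A) ?_ hg⟩
        have e5 : x - -2 * A * (1 / 2) ^ 2 = (2 * x + A) / 2 := by field_simp; ring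
        have e6 : v x = v A / v 2 := by
          have e7 : v (2 * x) = v A := by
            have e8 : 2 * x = (2 * x + A) - A := by ring
            rw [e8]
            exact Valuation.map_sub_eq_of_lt_right v hlt
          rw [← e7, map_mul, mul_div_cancel_left₀ _ ((Valuation.ne_zero_iff v).2 h20)]
        rw [e5, map_div₀, e6]
        exact div_lt_div_of_pos_right hlt (zero_lt_iff.mpr ((Valuation.ne_zero_iff v).2 h20))
    obtain ⟨k, hk⟩ := hxn
    exact ⟨k * r, by rw [e]; exact near_mul_sq v hr hk⟩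

/-- (ii) of SqAt. -/
theorem sq_two (A B d : F) (h20 : (2 : F) ≠ 0) (hd : d ≠ 0)
    (hdv : IsSquare (v d)) (hB' : ¬ IsSquare (v (A ^ 2 - 4 * B)))
    (h : HasPoint A B d) : ∃ k : F, v (d - k ^ 2) < v d := by
  obtain ⟨M, e, N, hne, h1⟩ := h
  refine sq_mod v d (2 * N) (2 * d * M ^ 2 + A * e ^ 2) (A ^ 2 - 4 * B) e hd hdv hB' ?_ ?_
  · by_cases he : e = 0
    · left
      have hM : M ≠ 0 := by
        rcases hne with h' | h'
        · exact h'
        · exact absurd he h'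
      rw [he, zero_pow two_ne_zero, mul_zero, add_zero]
      exact mul_ne_zero (mul_ne_zero h20 hd) (pow_ne_zero 2 hM)
    · exact Or.inr he
  · linear_combination 4 * h1

/-- (ii) of TorAt. -/
theorem tor_two (A B s d : F) (hB0 : B ≠ 0) (hd : d ≠ 0) (h4 : v 4 ≤ 1)
    (hA : v A ^ 2 ≤ v B) (hB : v B = v s ^ 2) (hs : ¬ IsSquare (v s))
    (hB' : v (A ^ 2 - 4 * B) = v B)
    (hns : ∀ g : F, ¬ v (A ^ 2 - 4 * B - g ^ 2) < v (A ^ 2 - 4 * B))
    (h : HasPoint A B d) :
    (∃ k : F, v (d - k ^ 2) < v d) ∨ ∃ k : F, v (B * d - k ^ 2) < v (B * d) := by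
  have hAs : v A ≤ v s := by
    rw [hB] at hA
    exact (pow_le_pow_iff_left₀ zero_le zero_le two_ne_zero).mp hA
  rcases h.cases hd hB0 with ⟨r, hr, e⟩ | ⟨r, hr, e⟩ | ⟨x, y, r, hx, hr, e, hxy⟩
  · refine Or.inl ⟨r, ?_⟩
    rw [e, one_mul, sub_self, map_zero]
    exact zero_lt_iff.mpr ((Valuation.ne_zero_iff v).2 (pow_ne_zero 2 hr))
  · refine Or.inr ⟨B * r, ?_⟩
    rw [e, show B * (B * r ^ 2) - (B * r) ^ 2 = 0 by ring, map_zero]
    exact zero_lt_iff.mpr ((Valuation.ne_zero_iff v).2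
      (mul_ne_zero hB0 (mul_ne_zero hB0 (pow_ne_zero 2 hr))))
  · have hxv : IsSquare (v x) :=
      even_two v A B s x hB0 hx h4 hA hB hB' hns (hasPoint_of_point hx hxy)
    rcases lt_trichotomy (v x) (v s) with hlt | heq | hgt
    · refine Or.inr ⟨y * r, ?_⟩
      rw [e, ← mul_assoc]
      refine near_mul_sq v hr ?_
      rw [mul_comm B x]
      exact val_point_small v hx hAs hB hlt hxy
    · exact absurd (heq ▸ hxv) hs
    · refine Or.inl ⟨y / x * r, ?_⟩
      rw [e]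
      exact near_mul_sq v hr (near_of_mul_sq v hx (val_point_large v hx hAs hB.le hgt hxy))

end Valued

end Pool.Agent.MP009fd8S
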