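import Pool.Agent.Lib.MP_009fd8_agS.Adm

/-!
MP_009fd8_ag: approximate square roots in the completion can be taken in the number field.
-/

namespace Pool.Agent.MP009fd8S

open IsDedekindDomain NumberField Pool.Agent.MP009fd8

variable {K : Type*} [Field K] [NumberField K]

/-- Density of K in the completion. -/
theorem exists_sub_lt (v : HeightOneSpectrum (𝓞 K))
    (x : v.adicCompletion K) (γ : WithZero (Multiplicative ℤ)) (hγ : 0 < γ) :
    ∃ k : K, Valued.v (x - algebraMap K (v.adicCompletion K) k) < γ := by
  obtain ⟨π, hπ⟩ := v.valuation_exists_uniformizer K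
  have hπ1 : v.valuation K π < 1 := by
    rw [hπ, ← WithZero.exp_zero, WithZero.exp_lt_exp]
    norm_num
  have hπ0 : v.valuation K π ≠ 0 := by
    rw [hπ]
    exact WithZero.exp_ne_zero
  obtain ⟨n, hn⟩ := exists_pow_lt₀ hπ1 (Units.mk0 _ hγ.ne')
  rw [Units.val_mk0] at hn
  have hy : Valued.v (algebraMap K (v.adicCompletion K) (π ^ n)) = v.valuation K π ^ n := by
    rw [← map_pow (v.valuation K)]
    exact HeightOneSpectrum.valuedAdicCompletion_eq_valuation' v (π ^ n)
  have hy0 : 0 < Valued.v (algebraMap K (v.adicCompletion K) (π ^ n)) := by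
    rw [hy]
    exact pow_pos (zero_lt_iff.mpr hπ0) n
  have hopen : IsOpen {y : v.adicCompletion K | Valued.v (y - x)
      < Valued.v (algebraMap K (v.adicCompletion K) (π ^ n))} := by
    have h := (Valued.isOpen_ball (v.adicCompletion K)
      (Valued.v.restrict (algebraMap K (v.adicCompletion K) (π ^ n)))).preimage
      (continuous_id.sub (continuous_const (y := x)))
    convert h using 1
    ext y
    exact (Valuation.restrict_lt_iff
      (Valued.v (R := v.adicCompletion K) (Γ₀ := WithZero (Multiplicative ℤ)))).symm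
  obtain ⟨k, hk⟩ := (HeightOneSpectrum.denseRange_algebraMap K v).exists_mem_open hopen
    ⟨x, by simpa using hy0⟩
  refine ⟨k, ?_⟩
  have hk' : Valued.v (algebraMap K (v.adicCompletion K) k - x) < γ :=
    lt_trans hk (by rw [hy]; exact hn)
  rwa [← Valuation.map_neg, neg_sub]

/-- Approximate square roots smaller than d. -/
theorem NearSq.exists_K {v : HeightOneSpectrum (𝓞 K)} {d : K} (h : NearSq v d) :
    ∃ g : K, v.valuation K (d - g ^ 2) < v.valuation K d := by
  obtain ⟨g, hg⟩ := h
  have vd : 0 < v.valuation K d := lt_of_le_of_lt zero_le hg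
  have hgd : Valued.v g ^ 2 = v.valuation K d := by
    have e : g ^ 2 = algebraMap K (v.adicCompletion K) d -
        (algebraMap K (v.adicCompletion K) d - g ^ 2) := by ring
    rw [← map_pow, e, Valuation.map_sub_eq_of_lt_left _ (by rwa [val_completion]), val_completion]
  have vg : 0 < Valued.v g := by
    rw [zero_lt_iff]
    intro h0
    rw [h0, zero_pow two_ne_zero] at hgd
    exact vd.ne hgd
  obtain ⟨k, hk⟩ := exists_sub_lt v g _ vg
  refine ⟨k, ?_⟩
  rw [← val_completion v (d - k ^ 2), map_sub, map_pow]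
  have e : algebraMap K (v.adicCompletion K) d - algebraMap K (v.adicCompletion K) k ^ 2 =
      (algebraMap K (v.adicCompletion K) d - g ^ 2) +
      (g - algebraMap K (v.adicCompletion K) k) * (2 * g - (g - algebraMap K (v.adicCompletion K) k))
      := by ring
  rw [e]
  refine Valuation.map_add_lt _ hg ?_
  have h2 : Valued.v (2 * g - (g - algebraMap K (v.adicCompletion K) k)) ≤ Valued.v g := by
    refine Valuation.map_sub_le _ ?_ hk.le
    rw [map_mul]
    have : Valued.v (2 : v.adicCompletion K) ≤ 1 := by
      rw [← algebraMap_two v, val_completion, ← map_ofNat (algebraMap (𝓞 K) K) 2]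
      exact v.valuation_le_one _
    calc _ ≤ 1 * Valued.v g := mul_le_mul' this le_rfl
      _ = _ := one_mul _
  rw [map_mul, ← hgd, pow_two]
  calc _ ≤ Valued.v (g - algebraMap K (v.adicCompletion K) k) * Valued.v g :=
        mul_le_mul' le_rfl h2
    _ < _ := mul_lt_mul_of_pos_right hk vg

/-- Approximate square roots modulo 4 d. -/
theorem NearSq4.exists_K {v : HeightOneSpectrum (𝓞 K)} {d : K} (h : NearSq4 v d) :
    ∃ g : K, v.valuation K (d - g ^ 2) ≤ v.valuation K 4 * v.valuation K d := by
  obtain ⟨g, hg⟩ := h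
  by_cases hg0 : g = 0
  · refine ⟨0, ?_⟩
    rw [hg0, zero_pow two_ne_zero, sub_zero, val_completion] at hg
    rwa [zero_pow two_ne_zero, sub_zero]
  have vg : 0 < Valued.v g := zero_lt_iff.mpr ((Valuation.ne_zero_iff _).mpr hg0)
  have v40 : 0 < v.valuation K 4 := by
    rw [zero_lt_iff, Valuation.ne_zero_iff]; norm_num
  have hgd : Valued.v g ^ 2 ≤ v.valuation K d := by
    have e : g ^ 2 = algebraMap K (v.adicCompletion K) d -
        (algebraMap K (v.adicCompletion K) d - g ^ 2) := by ring
    rw [← map_pow, e]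
    refine Valuation.map_sub_le _ (by rw [val_completion]) (hg.trans ?_)
    calc _ ≤ 1 * v.valuation K d := mul_le_mul' (val_four_le v) le_rfl
      _ = _ := one_mul _
  obtain ⟨k, hk⟩ := exists_sub_lt v g (v.valuation K 4 * Valued.v g) (mul_pos v40 vg)
  have hk' : Valued.v (g - algebraMap K (v.adicCompletion K) k) ≤ Valued.v g := by
    refine hk.le.trans ?_
    calc _ ≤ 1 * Valued.v g := mul_le_mul' (val_four_le v) le_rfl
      _ = _ := one_mul _
  refine ⟨k, ?_⟩
  rw [← val_completion v (d - k ^ 2), map_sub, map_pow]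
  have e : algebraMap K (v.adicCompletion K) d - algebraMap K (v.adicCompletion K) k ^ 2 =
      (algebraMap K (v.adicCompletion K) d - g ^ 2) +
      (g - algebraMap K (v.adicCompletion K) k) * (2 * g - (g - algebraMap K (v.adicCompletion K) k))
      := by ring
  rw [e]
  refine Valuation.map_add_le _ hg ?_
  have h2 : Valued.v (2 * g - (g - algebraMap K (v.adicCompletion K) k)) ≤ Valued.v g := by
    refine Valuation.map_sub_le _ ?_ hk'
    rw [map_mul]
    have : Valued.v (2 : v.adicCompletion K) ≤ 1 := by
      rw [← algebraMap_two v, val_completion, ← map_ofNat (algebraMap (𝓞 K) K) 2]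
      exact v.valuation_le_one _
    calc _ ≤ 1 * Valued.v g := mul_le_mul' this le_rfl
      _ = _ := one_mul _
  rw [map_mul]
  calc _ ≤ (v.valuation K 4 * Valued.v g) * Valued.v g := mul_le_mul' hk.le h2
    _ = v.valuation K 4 * Valued.v g ^ 2 := by rw [pow_two]; ac_rfl
    _ ≤ _ := mul_le_mul' le_rfl hgd

end Pool.Agent.MP009fd8S
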