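import Pool.Agent.Lib.MP_009fd8_agS.GDef
import Pool.Agent.Lib.MP_009fd8_agS.GLocal
import Pool.Agent.Lib.MP_009fd8_agS.Near

/-!
MP_009fd8_ag, 2-isogeny descent on y^2 = x (x^2 + A x + B) over an arbitrary number field:
the locally soluble classes lie in the group G(A, B).
-/

namespace Pool.Agent.MP009fd8S

open IsDedekindDomain NumberField Pool.Agent.MP009fd8

variable {K : Type*} [Field K] [NumberField K]

/-- Not a square modulo v: not near a square in the completion. -/
theorem not_near_of_not_sqMod {v : HeightOneSpectrum (𝓞 K)} {x : K} (h : ¬ SqMod v x)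
    (g : v.adicCompletion K) :
    ¬ Valued.v (algebraMap K (v.adicCompletion K) x - g ^ 2) <
      Valued.v (algebraMap K (v.adicCompletion K) x) := by
  intro hcon
  rw [val_completion v x] at hcon
  exact h (NearSq.exists_K ⟨g, hcon⟩)

theorem sqMod_of_near {v : HeightOneSpectrum (𝓞 K)} {x : K}
    (h : ∃ g : v.adicCompletion K, Valued.v (algebraMap K (v.adicCompletion K) x - g ^ 2) <
      Valued.v (algebraMap K (v.adicCompletion K) x)) : SqMod v x := by
  obtain ⟨g, hg⟩ := h
  rw [val_completion v x] at hg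
  exact NearSq.exists_K ⟨g, hg⟩

theorem near_of_sqMod {v : HeightOneSpectrum (𝓞 K)} {x : K} (h : SqMod v x) :
    ∃ g : K, Valued.v (algebraMap K (v.adicCompletion K) x -
      algebraMap K (v.adicCompletion K) g ^ 2) <
      Valued.v (algebraMap K (v.adicCompletion K) x) := by
  obtain ⟨g, hg⟩ := h
  exact ⟨g, by rw [← map_pow, ← map_sub, val_completion, val_completion]; exact hg⟩

theorem alg_disc (v : HeightOneSpectrum (𝓞 K)) (A B : K) :
    algebraMap K (v.adicCompletion K) (A ^ 2 - 4 * B) =
      algebraMap K (v.adicCompletion K) A ^ 2 - 4 * algebraMap K (v.adicCompletion K) B := by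
  simp only [map_sub, map_mul, map_pow, map_ofNat]

theorem alg_two_ne (v : HeightOneSpectrum (𝓞 K)) : (2 : v.adicCompletion K) ≠ 0 := by
  rw [← algebraMap_two v]; simp

theorem alg_four_le (v : HeightOneSpectrum (𝓞 K)) : Valued.v (4 : v.adicCompletion K) ≤ 1 := by
  rw [← map_ofNat (algebraMap K (v.adicCompletion K)) 4, val_completion]
  exact val_four_le v

theorem alg_two_lt {v : HeightOneSpectrum (𝓞 K)} (h : (2 : 𝓞 K) ∈ v.asIdeal) :
    Valued.v (2 : v.adicCompletion K) < 1 := by
  rw [← algebraMap_two v, val_completion, ← map_ofNat (algebraMap (𝓞 K) K) 2,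
    v.valuation_lt_one_iff_mem]
  exact h

theorem isSquare_of_evenAt {A B d : K} (hB : B ≠ 0) (hd : d ≠ 0)
    (v : HeightOneSpectrum (𝓞 K)) (hv : EvenAt A B v)
    (h : HasPoint (algebraMap K (v.adicCompletion K) A) (algebraMap K (v.adicCompletion K) B)
      (algebraMap K (v.adicCompletion K) d)) : IsSquare (v.valuation K d) := by
  have hd' : algebraMap K (v.adicCompletion K) d ≠ 0 := by simpa using hd
  have hB' : algebraMap K (v.adicCompletion K) B ≠ 0 := by simpa using hB
  have vB : v.valuation K B ≠ 0 := (Valuation.ne_zero_iff _).2 hB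
  rw [← val_completion]
  rcases hv with ⟨⟨s, hs⟩, hA⟩ | ⟨h1, h2, h3, h4⟩ | ⟨h1, ⟨r, hr⟩, h3⟩
  · have s0 : s ≠ 0 := by
      rintro rfl
      rw [map_zero, zero_pow (by norm_num)] at hs
      exact vB hs
    refine even_one (Valued.v : Valuation (v.adicCompletion K) _) _ _
      (algebraMap K (v.adicCompletion K) s) _ (by simpa using s0) hd' ?_ ?_ h
    · rw [val_completion, val_completion]; exact hA
    · rw [val_completion, val_completion]; exact hs
  · refine even_three (Valued.v : Valuation (v.adicCompletion K) _) _ _ _ hB' hd' ?_ ?_ ?_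
      (not_near_of_not_sqMod h4) h
    · rw [val_completion, val_completion]; exact h1
    · rw [val_completion]; exact h2
    · rw [val_completion]; exact h3
  · refine even_four (Valued.v : Valuation (v.adicCompletion K) _) _ _
      (algebraMap K (v.adicCompletion K) r) _ (alg_two_lt h1) (alg_two_ne v) hd' hB' ?_ ?_ h
    · rw [← map_pow, ← map_sub, val_completion, val_completion,
        ← map_ofNat (algebraMap K (v.adicCompletion K)) 4, val_completion]
      exact hr
    · rw [val_completion, val_completion, ← map_ofNat (algebraMap K (v.adicCompletion K)) 16,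
        val_completion, h3, map_mul, map_pow]

theorem sqMod_of_sqAt {A B d : K} (hB : B ≠ 0) (hd : d ≠ 0)
    (v : HeightOneSpectrum (𝓞 K)) (hv : SqAt A B v)
    (h : HasPoint (algebraMap K (v.adicCompletion K) A) (algebraMap K (v.adicCompletion K) B)
      (algebraMap K (v.adicCompletion K) d)) : SqMod v d := by
  have hd' : algebraMap K (v.adicCompletion K) d ≠ 0 := by simpa using hd
  have hB' : algebraMap K (v.adicCompletion K) B ≠ 0 := by simpa using hB
  apply sqMod_of_near
  rcases hv with ⟨h1, h2⟩ | ⟨h1, h2⟩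
  · obtain ⟨g, hg⟩ := near_of_sqMod h2
    refine sq_one (Valued.v : Valuation (v.adicCompletion K) _) _ _ _
      (algebraMap K (v.adicCompletion K) g) (alg_two_ne v) hB' hd' ?_ ?_ h
    · rw [← alg_disc, val_completion, val_completion]; exact h1
    · have e : algebraMap K (v.adicCompletion K) (-2 * A) =
          -2 * algebraMap K (v.adicCompletion K) A := by
        simp only [map_mul, map_neg, map_ofNat]
      rwa [e] at hg
  · refine sq_two (Valued.v : Valuation (v.adicCompletion K) _) _ _ _ (alg_two_ne v) hd' ?_ ?_ h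
    · rw [val_completion]
      exact isSquare_of_evenAt hB hd v (Or.inl h1) h
    · rw [← alg_disc, val_completion]; exact h2

theorem sqMod_of_torAt {A B d : K} (hB : B ≠ 0) (hd : d ≠ 0)
    (v : HeightOneSpectrum (𝓞 K)) (hv : TorAt A B v)
    (h : HasPoint (algebraMap K (v.adicCompletion K) A) (algebraMap K (v.adicCompletion K) B)
      (algebraMap K (v.adicCompletion K) d)) : SqMod v d ∨ SqMod v (B * d) := by
  have hd' : algebraMap K (v.adicCompletion K) d ≠ 0 := by simpa using hd
  have hB' : algebraMap K (v.adicCompletion K) B ≠ 0 := by simpa using hB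
  rcases hv with ⟨h1, h2⟩ | ⟨⟨s, h1, h2⟩, h3, h4, h5⟩
  · by_cases hdv : IsSquare (v.valuation K d)
    · left
      apply sqMod_of_near
      refine sq_two (Valued.v : Valuation (v.adicCompletion K) _) _ _ _ (alg_two_ne v) hd' ?_ ?_ h
      · rw [val_completion]; exact hdv
      · rw [← alg_disc, val_completion]; exact h2
    · right
      apply sqMod_of_near
      rw [map_mul]
      refine sq_two (Valued.v : Valuation (v.adicCompletion K) _) _ _ _ (alg_two_ne v)
        (mul_ne_zero hB' hd') ?_ ?_ (h.mul_B hd')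
      · rw [← map_mul, val_completion, map_mul]
        exact isSquare_mul_of_not h1 hdv
      · rw [← alg_disc, val_completion]; exact h2
  · have h6 := tor_two (Valued.v : Valuation (v.adicCompletion K) _)
      (algebraMap K (v.adicCompletion K) A) (algebraMap K (v.adicCompletion K) B)
      (algebraMap K (v.adicCompletion K) s) (algebraMap K (v.adicCompletion K) d) hB' hd'
      (alg_four_le v) (by rw [val_completion, val_completion]; exact h3)
      (by rw [val_completion, val_completion]; exact h1)
      (by rw [val_completion]; exact h2)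
      (by rw [← alg_disc, val_completion, val_completion]; exact h4)
      (by rw [← alg_disc]; exact not_near_of_not_sqMod h5) h
    rcases h6 with h6 | h6
    · exact Or.inl (sqMod_of_near h6)
    · rw [← map_mul] at h6
      exact Or.inr (sqMod_of_near h6)

theorem sqFour_of_fourAt {A B d : K} (hB' : A ^ 2 - 4 * B ≠ 0) (hd : d ≠ 0)
    (v : HeightOneSpectrum (𝓞 K)) (hv : FourAt A B v)
    (h : HasPoint (algebraMap K (v.adicCompletion K) A) (algebraMap K (v.adicCompletion K) B)
      (algebraMap K (v.adicCompletion K) d)) : SqFour v d := by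
  have hd' : algebraMap K (v.adicCompletion K) d ≠ 0 := by simpa using hd
  obtain ⟨h1, ⟨r, hr⟩, h3⟩ := hv
  have e : algebraMap K (v.adicCompletion K) (-2 * A) =
      -2 * algebraMap K (v.adicCompletion K) A := by
    simp only [map_mul, map_neg, map_ofNat]
  obtain ⟨g, hg⟩ := four_of_dual (Valued.v : Valuation (v.adicCompletion K) _)
    (algebraMap K (v.adicCompletion K) A) (algebraMap K (v.adicCompletion K) B)
    (algebraMap K (v.adicCompletion K) r) (algebraMap K (v.adicCompletion K) d)
    (alg_two_lt h1) (alg_two_ne v) hd'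
    (by rw [← alg_disc]; exact (map_ne_zero _).mpr hB')
    (by
      rw [← e, ← map_pow, ← map_sub, val_completion, val_completion,
        ← map_ofNat (algebraMap K (v.adicCompletion K)) 4, val_completion]
      exact hr)
    (by
      rw [← e, ← alg_disc, val_completion, val_completion,
        ← map_ofNat (algebraMap K (v.adicCompletion K)) 16, val_completion, ← map_pow, ← map_mul]
      convert h3 using 2
      ring)
    h
  refine NearSq4.exists_K ⟨g, ?_⟩
  rwa [← map_ofNat (algebraMap K (v.adicCompletion K)) 4, val_completion,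
    val_completion v d] at hg

theorem pos_of_negAt {A B d : K} (hd : d ≠ 0) (f : K →+* ℝ) (hf : NegAt A B f)
    (h : HasPoint (f A) (f B) (f d)) : 0 < f d := by
  have e : f B = 16 * (f B / 16) := by ring
  rw [e] at h
  refine real_pos (f A) (f B / 16) (f d) (by have := hf.1; positivity) ?_
    ((map_ne_zero f).mpr hd) h
  rcases hf.2 with h1 | h1
  · exact Or.inl h1
  · right
    have e2 : f (A ^ 2 - 4 * B) = f A ^ 2 - 4 * f B := by
      simp only [map_sub, map_mul, map_pow, map_ofNat]
    rw [e2] at h1
    linarith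

/-- (1): the everywhere locally soluble classes lie in G(A, B). -/
theorem grp_of_locSol {A B d : K} (hB : B ≠ 0) (hB' : A ^ 2 - 4 * B ≠ 0) (hd : d ≠ 0)
    (h : LocSol K A B d) : Grp A B d :=
  ⟨fun v hv => isSquare_of_evenAt hB hd v hv (h.1 v),
    fun v hv => sqMod_of_sqAt hB hd v hv (h.1 v),
    fun v hv => sqMod_of_torAt hB hd v hv (h.1 v),
    fun v hv => sqFour_of_fourAt hB' hd v hv (h.1 v),
    fun f hf => pos_of_negAt hd f hf (h.2 f)⟩

/-! ### The group structure -/

theorem SqMod.mul {v : HeightOneSpectrum (𝓞 K)} {x y : K} (hx : SqMod v x) (hy : SqMod v y) :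
    SqMod v (x * y) := by
  obtain ⟨g, hg⟩ := hx
  obtain ⟨h, hh⟩ := hy
  exact ⟨g * h, near_mul _ _ _ _ _ hg hh⟩

theorem SqMod.sq (v : HeightOneSpectrum (𝓞 K)) {s : K} (hs : s ≠ 0) : SqMod v (s ^ 2) := by
  refine ⟨s, ?_⟩
  rw [sub_self, map_zero]
  exact zero_lt_iff.mpr ((Valuation.ne_zero_iff _).mpr (pow_ne_zero 2 hs))

theorem SqMod.of_mul_sq {v : HeightOneSpectrum (𝓞 K)} {x s : K} (hs : s ≠ 0)
    (h : SqMod v (x * s ^ 2)) : SqMod v x := by
  have h1 := h.mul (SqMod.sq v (inv_ne_zero hs))
  rwa [show x * s ^ 2 * s⁻¹ ^ 2 = x by field_simp] at h1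

theorem SqFour.mul {v : HeightOneSpectrum (𝓞 K)} {x y : K} (hx : SqFour v x)
    (hy : SqFour v y) : SqFour v (x * y) := by
  obtain ⟨g, hg⟩ := hx
  obtain ⟨h, hh⟩ := hy
  exact ⟨g * h, near_mul' _ _ _ _ _ _ (val_four_le v) hg hh⟩

theorem SqFour.sq (v : HeightOneSpectrum (𝓞 K)) (s : K) : SqFour v (s ^ 2) := by
  refine ⟨s, ?_⟩
  rw [sub_self, map_zero]
  exact zero_le

theorem Grp.mul {A B x y : K} (hB : B ≠ 0) (hx : Grp A B x) (hy : Grp A B y) :
    Grp A B (x * y) := by
  refine ⟨fun v hv => by rw [map_mul]; exact (hx.1 v hv).mul (hy.1 v hv),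
    fun v hv => (hx.2.1 v hv).mul (hy.2.1 v hv), fun v hv => ?_,
    fun v hv => (hx.2.2.2.1 v hv).mul (hy.2.2.2.1 v hv),
    fun f hf => by rw [map_mul]; exact mul_pos (hx.2.2.2.2 f hf) (hy.2.2.2.2 f hf)⟩
  rcases hx.2.2.1 v hv with h1 | h1 <;> rcases hy.2.2.1 v hv with h2 | h2
  · exact Or.inl (h1.mul h2)
  · right
    have := h1.mul h2
    rwa [show x * (B * y) = B * (x * y) by ring] at this
  · right
    have := h1.mul h2
    rwa [show B * x * y = B * (x * y) by ring] at this
  · left
    have := h1.mul h2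
    rw [show B * x * (B * y) = x * y * B ^ 2 by ring] at this
    exact this.of_mul_sq hB

theorem Grp.sq (A B : K) {s : K} (hs : s ≠ 0) : Grp A B (s ^ 2) :=
  ⟨fun v _ => by rw [map_pow]; exact IsSquare.sq _, fun v _ => SqMod.sq v hs,
    fun v _ => Or.inl (SqMod.sq v hs), fun v _ => SqFour.sq v s,
    fun f _ => by
      rw [map_pow]
      have : f s ≠ 0 := (map_ne_zero f).mpr hs
      positivity⟩

end Pool.Agent.MP009fd8S
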