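import Pool.Agent.Lib.MP_009fd8_agS.GFamily

/-!
MP_009fd8_ag, 2-isogeny descent on y^2 = x (x^2 + A x + B): explicit ranks for the family
A = a n, B = 16 c n^2.
-/

namespace Pool.Agent.MP009fd8S

open IsDedekindDomain NumberField Pool.Agent.MP009fd8

variable {K : Type*} [Field K] [NumberField K]

theorem InClasses.mul_sq {S : Set K} {d r : K} (h : InClasses S d) (hr : r ≠ 0) :
    InClasses S (d * r ^ 2) := by
  obtain ⟨s, w, hs, hw, e⟩ := h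
  exact ⟨s, w * r, hs, mul_ne_zero hw hr, by rw [e]; ring⟩

theorem InClasses.mul_mem {S : Set K} {d g : K} (h : InClasses S d) (hg : g ∈ S) (hg0 : g ≠ 0) :
    InClasses S (g * d) := by
  classical
  obtain ⟨s, w, hs, hw, e⟩ := h
  by_cases hgs : g ∈ s
  · refine ⟨s.erase g, g * w, ?_, mul_ne_zero hg0 hw, ?_⟩
    · exact (Finset.coe_subset.2 (Finset.erase_subset g s)).trans hs
    · rw [e, ← Finset.mul_prod_erase s (fun x => x) hgs]
      ring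
  · refine ⟨insert g s, w, ?_, hw, ?_⟩
    · rw [Finset.coe_insert, Set.insert_subset_iff]
      exact ⟨hg, hs⟩
    · rw [e, Finset.prod_insert hgs]
      ring

theorem InClasses.of_sq {S : Set K} {w : K} (hw : w ≠ 0) : InClasses S (w ^ 2) :=
  ⟨∅, w, by simp, hw, by simp⟩

theorem hasPoint_of_inClasses {A B : K} (hB : B ≠ 0) {S : Set K}
    (hS : ∀ g ∈ S, g ≠ 0 ∧ HasPoint A B g) {d : K} (hd : d ≠ 0) (h : InClasses S d) :
    HasPoint A B d :=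
  hasPoint_of_generates hB hS (G := InClasses S) (fun _ _ h => h) d hd h

/-- A group of classes containing c, with even valuations outside c, whose units are in the
classes of c and U. -/
theorem inClasses_of_onePlace (hclass : Odd (NumberField.classNumber K)) (c : 𝓞 K)
    (hc : OnePlace c) (G : K → Prop) (hmul : ∀ x y : K, G x → G y → G (x * y))
    (hsq : ∀ s : K, s ≠ 0 → G (s ^ 2)) (hGc : G (algebraMap (𝓞 K) K c))
    (hval : ∀ x : K, G x → ∀ v : HeightOneSpectrum (𝓞 K), c ∉ v.asIdeal →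
      IsSquare (v.valuation K x)) {S : Set K} (hcS : algebraMap (𝓞 K) K c ∈ S)
    (hU : ∀ u : (𝓞 K)ˣ, G (algebraMap (𝓞 K) K (u : 𝓞 K)) →
      InClasses S (algebraMap (𝓞 K) K (u : 𝓞 K)))
    (d : K) (hd : d ≠ 0) (h : G d) : InClasses S d := by
  have kc : algebraMap (𝓞 K) K c ≠ 0 :=
    (map_ne_zero_iff _ (FaithfulSMul.algebraMap_injective (𝓞 K) K)).mpr hc.ne_zero
  rcases all_square_or c d hc (hval d h) with hs | hs
  · obtain ⟨u, w, hw, e⟩ := exists_unit_mul_sq hclass d hd hs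
    have g := hmul _ _ h (hsq _ (inv_ne_zero hw))
    have e1 : d * w⁻¹ ^ 2 = algebraMap (𝓞 K) K (u : 𝓞 K) := by
      rw [e]; field_simp
    rw [e1] at g
    rw [e]
    exact (hU u g).mul_sq hw
  · obtain ⟨u, w, hw, e⟩ := exists_unit_mul_sq hclass _ (mul_ne_zero kc hd) hs
    have g := hmul _ _ (hmul _ _ hGc h) (hsq _ (inv_ne_zero hw))
    have e1 : algebraMap (𝓞 K) K c * d * w⁻¹ ^ 2 = algebraMap (𝓞 K) K (u : 𝓞 K) := by
      rw [e]; field_simp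
    rw [e1] at g
    have h1 := ((hU u g).mul_sq hw).mul_mem hcS kc
    rw [← e] at h1
    have h2 := h1.mul_sq (inv_ne_zero kc)
    rwa [show algebraMap (𝓞 K) K c * (algebraMap (𝓞 K) K c * d) * (algebraMap (𝓞 K) K c)⁻¹ ^ 2 =
      d by field_simp] at h2

/-- Both sides for the family. -/
theorem family_rank (U : Set K) (a c n r : 𝓞 K) (h4 : 4 ∣ a * n - r ^ 2)
    (ha : IsCoprime (a * n) 2) (hb : a ^ 2 - 64 * c ≠ 0)
    (hn : ∀ v : HeightOneSpectrum (𝓞 K), n ∈ v.asIdeal → ∀ m : 𝓞 K,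
      c - m ^ 2 ∉ v.asIdeal ∧ a ^ 2 - 64 * c - m ^ 2 ∉ v.asIdeal)
    (A B : K) (hUp : ∀ g ∈ U, g ≠ 0 ∧ HasPoint A B g)
    (hA : A = algebraMap (𝓞 K) K (a * n))
    (hBe : B = algebraMap (𝓞 K) K (16 * (c * n ^ 2)))
    (hclass : Odd (NumberField.classNumber K)) (hc1 : OnePlace c)
    (hb1 : OnePlace (a ^ 2 - 64 * c))
    (hU : ∀ u : (𝓞 K)ˣ, Grp A B (algebraMap (𝓞 K) K (u : 𝓞 K)) →
      InClasses (insert (algebraMap (𝓞 K) K c) U) (algebraMap (𝓞 K) K (u : 𝓞 K)))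
    (hV : ∀ S : Set (K →+* ℝ), ∃ t : (𝓞 K)ˣ, ∀ f : K →+* ℝ, NegAt A B f →
      (f (algebraMap (𝓞 K) K (t : 𝓞 K)) < 0 ↔ f ∈ S))
    (d : K) (hd : d ≠ 0) :
    ((LocSol K A B d ↔ HasPoint A B d) ∧
      (HasPoint A B d ↔ InClasses (insert (algebraMap (𝓞 K) K c) U) d)) ∧
    ((LocSol K (-2 * A) (A ^ 2 - 4 * B) d ↔ HasPoint (-2 * A) (A ^ 2 - 4 * B) d) ∧
      (HasPoint (-2 * A) (A ^ 2 - 4 * B) d ↔
        InClasses {algebraMap (𝓞 K) K (a ^ 2 - 64 * c)} d)) := by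
  have hinj := FaithfulSMul.algebraMap_injective (𝓞 K) K
  have hn2 : IsCoprime n 2 := IsCoprime.of_mul_left_right ha
  have hn0 : n ≠ 0 := ne_zero_of_isCoprime_two hn2
  have kn : algebraMap (𝓞 K) K n ≠ 0 := (map_ne_zero_iff _ hinj).mpr hn0
  have hc0 : c ≠ 0 := hc1.ne_zero
  have kc : algebraMap (𝓞 K) K c ≠ 0 := (map_ne_zero_iff _ hinj).mpr hc0
  have kb : algebraMap (𝓞 K) K (a ^ 2 - 64 * c) ≠ 0 := (map_ne_zero_iff _ hinj).mpr hb
  have hBv : B = (4 * algebraMap (𝓞 K) K n) ^ 2 * algebraMap (𝓞 K) K c := by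
    rw [hBe]
    simp only [map_mul, map_pow, map_ofNat]
    ring
  have hBv' : A ^ 2 - 4 * B =
      algebraMap (𝓞 K) K n ^ 2 * algebraMap (𝓞 K) K (a ^ 2 - 64 * c) := by
    rw [hA, hBe]
    simp only [map_mul, map_sub, map_pow, map_ofNat]
    ring
  have hB0 : B ≠ 0 := by
    rw [hBv]
    exact mul_ne_zero (pow_ne_zero 2 (mul_ne_zero (by norm_num) kn)) kc
  have hB0' : A ^ 2 - 4 * B ≠ 0 := by
    rw [hBv']
    exact mul_ne_zero (pow_ne_zero 2 kn) kb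
  have hB0'' : (-2 * A) ^ 2 - 4 * (A ^ 2 - 4 * B) ≠ 0 := by
    rw [show (-2 * A) ^ 2 - 4 * (A ^ 2 - 4 * B) = 16 * B by ring]
    exact mul_ne_zero (by norm_num) hB0
  have hptc : HasPoint A B (algebraMap (𝓞 K) K c) := by
    have h := hasPoint_mul_sq A B _ _ 1 one_ne_zero hBv
    rwa [one_pow, mul_one] at h
  have hptb : HasPoint (-2 * A) (A ^ 2 - 4 * B) (algebraMap (𝓞 K) K (a ^ 2 - 64 * c)) := by
    have h := hasPoint_mul_sq (-2 * A) (A ^ 2 - 4 * B) _ _ 1 one_ne_zero hBv'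
    rwa [one_pow, mul_one] at h
  have hSp : ∀ g ∈ insert (algebraMap (𝓞 K) K c) U, g ≠ 0 ∧ HasPoint A B g := by
    rintro g (rfl | hg)
    · exact ⟨kc, hptc⟩
    · exact hUp g hg
  have hTp : ∀ g ∈ ({algebraMap (𝓞 K) K (a ^ 2 - 64 * c)} : Set K), g ≠ 0 ∧
      HasPoint (-2 * A) (A ^ 2 - 4 * B) g := by
    rintro g rfl
    exact ⟨kb, hptb⟩
  have a1 : ∀ d : K, d ≠ 0 → LocSol K A B d → Grp A B d :=
    fun d hd h => grp_of_locSol hB0 hB0' hd h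
  have b1 : ∀ d : K, d ≠ 0 → LocSol K (-2 * A) (A ^ 2 - 4 * B) d →
      Grp (-2 * A) (A ^ 2 - 4 * B) d :=
    fun d hd h => grp_of_locSol hB0' hB0'' hd h
  have hGc : Grp A B (algebraMap (𝓞 K) K c) := a1 _ kc (LocSol.of_hasPoint hptc)
  have hGb : Grp (-2 * A) (A ^ 2 - 4 * B) (algebraMap (𝓞 K) K (a ^ 2 - 64 * c)) :=
    b1 _ kb (LocSol.of_hasPoint hptb)
  have kA : ∀ d : K, d ≠ 0 → Grp A B d → InClasses (insert (algebraMap (𝓞 K) K c) U) d := by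
    intro d hd h
    refine inClasses_of_onePlace hclass c hc1 (Grp A B) (fun x y hx hy => hx.mul hB0 hy)
      (fun s hs => Grp.sq A B hs) hGc (fun x hx => ?_) (Set.mem_insert _ _) hU d hd h
    rw [hA, hBe] at hx
    exact even_family_A a c n r h4 ha hn x hx
  have kB : ∀ d : K, d ≠ 0 → Grp (-2 * A) (A ^ 2 - 4 * B) d →
      InClasses {algebraMap (𝓞 K) K (a ^ 2 - 64 * c)} d := by
    intro d hd h
    refine inClasses_of_onePlace hclass (a ^ 2 - 64 * c) hb1 (Grp (-2 * A) (A ^ 2 - 4 * B))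
      (fun x y hx hy => hx.mul hB0' hy) (fun s hs => Grp.sq _ _ hs) hGb (fun x hx => ?_)
      (Set.mem_singleton _) (fun u hu => ?_) d hd h
    · rw [hA, hBe] at hx
      exact even_family_B a c n ha hn x hx
    · obtain ⟨t, ht⟩ := unit_square hclass
        (fun v hv => by rw [hA, hBe]; exact fourAt_family a c n r h4 ha v hv)
        (fun S => by
          obtain ⟨t, ht⟩ := hV S
          exact ⟨t, fun f hf => ht f (negAt_of_not_dual hB0 hB0' hf)⟩) u hu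
      have e1 : algebraMap (𝓞 K) K (u : 𝓞 K) = algebraMap (𝓞 K) K (t : 𝓞 K) ^ 2 := by
        rw [ht, Units.val_mul, map_mul]; ring
      rw [e1]
      exact InClasses.of_sq (by simp)
  have pA : InClasses (insert (algebraMap (𝓞 K) K c) U) d → HasPoint A B d :=
    hasPoint_of_inClasses hB0 hSp hd
  have pB : InClasses {algebraMap (𝓞 K) K (a ^ 2 - 64 * c)} d →
      HasPoint (-2 * A) (A ^ 2 - 4 * B) d :=
    hasPoint_of_inClasses hB0' hTp hd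
  exact ⟨⟨⟨fun h => pA (kA d hd (a1 d hd h)), LocSol.of_hasPoint⟩,
      fun h => kA d hd (a1 d hd (LocSol.of_hasPoint h)), pA⟩,
    ⟨⟨fun h => pB (kB d hd (b1 d hd h)), LocSol.of_hasPoint⟩,
      fun h => kB d hd (b1 d hd (LocSol.of_hasPoint h)), pB⟩⟩

/-- The explicit family with points in the classes -1 and u. -/
theorem two_units (u Q R a c : 𝓞 K) (ha : a = 1 + 16 * (u * (Q ^ 2 - R ^ 2)))
    (hc : c = u * (Q ^ 2 - R ^ 2 - 16 * (u * (Q ^ 2 * R ^ 2)))) (A B : K)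
    (hA : A = algebraMap (𝓞 K) K a) (hB : B = algebraMap (𝓞 K) K (16 * c))
    (hclass : Odd (NumberField.classNumber K)) (hc1 : OnePlace c)
    (hb1 : OnePlace (a ^ 2 - 64 * c))
    (hU : ∀ t : (𝓞 K)ˣ, InClasses {algebraMap (𝓞 K) K c, -1, algebraMap (𝓞 K) K u}
      (algebraMap (𝓞 K) K (t : 𝓞 K)))
    (d : K) (hd : d ≠ 0) :
    ((LocSol K A B d ↔ HasPoint A B d) ∧
      (HasPoint A B d ↔
        InClasses {algebraMap (𝓞 K) K c, -1, algebraMap (𝓞 K) K u} d)) ∧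
    ((LocSol K (-2 * A) (A ^ 2 - 4 * B) d ↔ HasPoint (-2 * A) (A ^ 2 - 4 * B) d) ∧
      (HasPoint (-2 * A) (A ^ 2 - 4 * B) d ↔
        InClasses {algebraMap (𝓞 K) K (a ^ 2 - 64 * c)} d)) := by
  have hinj := FaithfulSMul.algebraMap_injective (𝓞 K) K
  have kc : algebraMap (𝓞 K) K c ≠ 0 := (map_ne_zero_iff _ hinj).mpr hc1.ne_zero
  have kb : algebraMap (𝓞 K) K (a ^ 2 - 64 * c) ≠ 0 :=
    (map_ne_zero_iff _ hinj).mpr hb1.ne_zero
  have hB0 : B ≠ 0 := by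
    rw [hB, map_mul, map_ofNat]
    exact mul_ne_zero (by norm_num) kc
  have hB0' : A ^ 2 - 4 * B ≠ 0 := by
    have e : A ^ 2 - 4 * B = algebraMap (𝓞 K) K (a ^ 2 - 64 * c) := by
      rw [hA, hB]
      simp only [map_mul, map_sub, map_pow, map_ofNat]
      ring
    rwa [e]
  have eA : A = 1 + 16 * (algebraMap (𝓞 K) K u * (algebraMap (𝓞 K) K Q ^ 2 -
      algebraMap (𝓞 K) K R ^ 2)) := by
    rw [hA, ha]
    simp only [map_mul, map_sub, map_add, map_pow, map_ofNat, map_one]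
  have eB : B = 16 * (algebraMap (𝓞 K) K u * (algebraMap (𝓞 K) K Q ^ 2 -
      algebraMap (𝓞 K) K R ^ 2 - 16 * (algebraMap (𝓞 K) K u * (algebraMap (𝓞 K) K Q ^ 2 *
        algebraMap (𝓞 K) K R ^ 2)))) := by
    rw [hB, hc]
    simp only [map_mul, map_sub, map_pow, map_ofNat]
  have e1 : B = (-1) * ((16 * (algebraMap (𝓞 K) K u * (algebraMap (𝓞 K) K Q *
      algebraMap (𝓞 K) K R))) ^ 2 - (-1) * 1 ^ 4 - A * 1 ^ 2) := by
    rw [eA, eB]; ring
  have e2 : B = algebraMap (𝓞 K) K u * ((4 * algebraMap (𝓞 K) K Q) ^ 2 -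
      algebraMap (𝓞 K) K u * (4 * algebraMap (𝓞 K) K R) ^ 4 -
        A * (4 * algebraMap (𝓞 K) K R) ^ 2) := by
    rw [eA, eB]; ring
  have hp : HasPoint A B (-1 : K) :=
    ⟨1, 1, 16 * (algebraMap (𝓞 K) K u * (algebraMap (𝓞 K) K Q * algebraMap (𝓞 K) K R)),
      Or.inr one_ne_zero, by linear_combination (-1 : K) * e1⟩
  have hpu : HasPoint A B (algebraMap (𝓞 K) K u) :=
    ⟨4 * algebraMap (𝓞 K) K R, 1, 4 * algebraMap (𝓞 K) K Q, Or.inr one_ne_zero,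
      by linear_combination (-1 : K) * e2⟩
  have hu0 : algebraMap (𝓞 K) K u ≠ 0 := by
    intro h
    rw [h, zero_mul] at e2
    exact hB0 e2
  have hneg : ∀ f : K →+* ℝ, ¬ NegAt A B f := by
    intro f hf
    have h := (grp_of_locSol hB0 hB0' (neg_ne_zero.mpr one_ne_zero)
      (LocSol.of_hasPoint hp)).2.2.2.2 f hf
    rw [map_neg, map_one] at h
    linarith
  refine family_rank {-1, algebraMap (𝓞 K) K u} a c 1 1 ?_ ?_ hb1.ne_zero ?_ A B ?_ ?_ ?_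
    hclass hc1 hb1 (fun t _ => hU t) ?_ d hd
  · refine ⟨4 * (u * (Q ^ 2 - R ^ 2)), ?_⟩
    rw [ha]; ring
  · refine ⟨1, -(8 * (u * (Q ^ 2 - R ^ 2))), ?_⟩
    rw [ha]; ring
  · intro v hv
    exact absurd ((Ideal.eq_top_iff_one _).mpr hv) v.isPrime.ne_top
  · rintro g (rfl | rfl)
    · exact ⟨neg_ne_zero.mpr one_ne_zero, hp⟩
    · exact ⟨hu0, hpu⟩
  · rw [hA, mul_one]
  · rw [hB, one_pow, mul_one]
  · intro S
    exact ⟨1, fun f hf => absurd hf (hneg f)⟩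

/-- The theorem. -/
theorem theRank (A B A' B' : K)
    (hA' : A' = -2 * A) (hB' : B' = A ^ 2 - 4 * B) (hB : B ≠ 0) (hB0 : B' ≠ 0) :
    (∀ d : K, d ≠ 0 →
      (LocSol K A B d → Grp A B d) ∧ (LocSol K A' B' d → Grp A' B' d)) ∧
    (∀ S : Set K, (∀ g ∈ S, g ≠ 0 ∧ HasPoint A B g) →
      (∀ x : K, x ≠ 0 → Grp A B x → InClasses S x) →
      ∀ d : K, d ≠ 0 →
        (LocSol K A B d ↔ HasPoint A B d) ∧ (HasPoint A B d ↔ Grp A B d)) ∧
    (∀ S : Set K, (∀ g ∈ S, g ≠ 0 ∧ HasPoint A' B' g) →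
      (∀ x : K, x ≠ 0 → Grp A' B' x → InClasses S x) →
      ∀ d : K, d ≠ 0 →
        (LocSol K A' B' d ↔ HasPoint A' B' d) ∧ (HasPoint A' B' d ↔ Grp A' B' d)) ∧
    (∀ (U : Set K) (a c n r : 𝓞 K),
      (∀ g ∈ U, g ≠ 0 ∧ HasPoint A B g) →
      A = algebraMap (𝓞 K) K (a * n) → B = algebraMap (𝓞 K) K (16 * (c * n ^ 2)) →
      4 ∣ a * n - r ^ 2 → IsCoprime (a * n) 2 →
      (∀ v : HeightOneSpectrum (𝓞 K), n ∈ v.asIdeal → ∀ m : 𝓞 K,
        c - m ^ 2 ∉ v.asIdeal ∧ a ^ 2 - 64 * c - m ^ 2 ∉ v.asIdeal) →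
      Odd (NumberField.classNumber K) → OnePlace c → OnePlace (a ^ 2 - 64 * c) →
      (∀ u : (𝓞 K)ˣ, Grp A B (algebraMap (𝓞 K) K (u : 𝓞 K)) →
        InClasses (insert (algebraMap (𝓞 K) K c) U) (algebraMap (𝓞 K) K (u : 𝓞 K))) →
      (∀ S : Set (K →+* ℝ), ∃ t : (𝓞 K)ˣ, ∀ f : K →+* ℝ, NegAt A B f →
        (f (algebraMap (𝓞 K) K (t : 𝓞 K)) < 0 ↔ f ∈ S)) →
      ∀ d : K, d ≠ 0 →
        ((LocSol K A B d ↔ HasPoint A B d) ∧
          (HasPoint A B d ↔ InClasses (insert (algebraMap (𝓞 K) K c) U) d)) ∧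
        ((LocSol K A' B' d ↔ HasPoint A' B' d) ∧
          (HasPoint A' B' d ↔ InClasses {algebraMap (𝓞 K) K (a ^ 2 - 64 * c)} d))) ∧
    (∀ u Q R a c : 𝓞 K, a = 1 + 16 * (u * (Q ^ 2 - R ^ 2)) →
      c = u * (Q ^ 2 - R ^ 2 - 16 * (u * (Q ^ 2 * R ^ 2))) →
      A = algebraMap (𝓞 K) K a → B = algebraMap (𝓞 K) K (16 * c) →
      Odd (NumberField.classNumber K) → OnePlace c → OnePlace (a ^ 2 - 64 * c) →
      (∀ t : (𝓞 K)ˣ, InClasses {algebraMap (𝓞 K) K c, -1, algebraMap (𝓞 K) K u}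
        (algebraMap (𝓞 K) K (t : 𝓞 K))) →
      ∀ d : K, d ≠ 0 →
        ((LocSol K A B d ↔ HasPoint A B d) ∧
          (HasPoint A B d ↔
            InClasses {algebraMap (𝓞 K) K c, -1, algebraMap (𝓞 K) K u} d)) ∧
        ((LocSol K A' B' d ↔ HasPoint A' B' d) ∧
          (HasPoint A' B' d ↔ InClasses {algebraMap (𝓞 K) K (a ^ 2 - 64 * c)} d))) := by
  subst hA' hB'
  have hB2 : (-2 * A) ^ 2 - 4 * (A ^ 2 - 4 * B) ≠ 0 := by
    rw [show (-2 * A) ^ 2 - 4 * (A ^ 2 - 4 * B) = 16 * B by ring]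
    exact mul_ne_zero (by norm_num) hB
  have f1 := gfinal A B hB hB0
  have f2 := gfinal (-2 * A) (A ^ 2 - 4 * B) hB0 hB2
  refine ⟨fun d hd => ⟨f1.1 d hd, f2.1 d hd⟩, fun S hS gS => f1.2.1 S hS gS,
    fun S hS gS => f2.2.1 S hS gS, ?_, ?_⟩
  · intro U a c n r hUp hA hBe h4 ha hn hclass hc1 hb1 hU hV d hd
    exact family_rank U a c n r h4 ha hb1.ne_zero hn A B hUp hA hBe hclass hc1 hb1 hU hV d hd
  · intro u Q R a c ha hc hA hBe hclass hc1 hb1 hU d hd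
    exact two_units u Q R a c ha hc A B hA hBe hclass hc1 hb1 hU d hd

end Pool.Agent.MP009fd8S
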