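import Pool.Agent.Lib.MP_009fd8_agS.AtTwo
import Pool.Agent.Lib.MP_009fd8_ag.ClassLemma
import Pool.Agent.Lib.MP_009fd8_ag.Approx
import Pool.Agent.Lib.MP_009fd8_ag.Places

/-!
MP_009fd8_ag, 2-isogeny descent on y^2 = x (x^2 + a x + 16 c): the global step.
-/

namespace Pool.Agent.MP009fd8S

open IsDedekindDomain NumberField Pool.Agent.MP009fd8

variable {K : Type*} [Field K] [NumberField K]

/-- Two nonsquares of the value group have a square product. -/
theorem isSquare_mul_of_not {x y : WithZero (Multiplicative ℤ)} (hx : ¬ IsSquare x)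
    (hy : ¬ IsSquare y) : IsSquare (x * y) := by
  have hx0 : x ≠ 0 := fun h => hx (h ▸ ⟨0, by simp⟩)
  have hy0 : y ≠ 0 := fun h => hy (h ▸ ⟨0, by simp⟩)
  obtain ⟨z, hz⟩ := (isSquare_or hx0).resolve_left hx
  obtain ⟨t, ht⟩ := (isSquare_or hy0).resolve_left hy
  refine ⟨z * t * WithZero.exp 1, ?_⟩
  have h1 : x * y = (WithZero.exp (1 : ℤ) * WithZero.exp (1 : ℤ)) *
      ((WithZero.exp (-1 : ℤ) * x) * (WithZero.exp (-1 : ℤ) * y)) := by
    have h2 : WithZero.exp (1 : ℤ) * WithZero.exp (-1 : ℤ) = 1 := by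
      rw [← WithZero.exp_add]; simp
    calc x * y = (WithZero.exp (1 : ℤ) * WithZero.exp (-1 : ℤ)) *
          (WithZero.exp (1 : ℤ) * WithZero.exp (-1 : ℤ)) * (x * y) := by rw [h2]; simp
      _ = _ := by ac_rfl
  rw [h1, hz, ht]
  ac_rfl

/-- An element with square valuations outside one place, where the valuation of the integer c is
nonsquare: it or its product with c has square valuations everywhere. -/
theorem all_square_or (c : 𝓞 K) (d : K)
    (hprime : ∀ v : HeightOneSpectrum (𝓞 K), c ∈ v.asIdeal →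
      ¬ IsSquare (v.valuation K (algebraMap (𝓞 K) K c)) ∧
        ∀ w : HeightOneSpectrum (𝓞 K), c ∈ w.asIdeal → w = v)
    (h : ∀ v : HeightOneSpectrum (𝓞 K), c ∉ v.asIdeal → IsSquare (v.valuation K d)) :
    (∀ v : HeightOneSpectrum (𝓞 K), IsSquare (v.valuation K d)) ∨
      ∀ v : HeightOneSpectrum (𝓞 K),
        IsSquare (v.valuation K (algebraMap (𝓞 K) K c * d)) := by
  by_cases hall : ∀ v : HeightOneSpectrum (𝓞 K), IsSquare (v.valuation K d)
  · exact Or.inl hall
  · right
    push Not at hall
    obtain ⟨v0, hv0⟩ := hall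
    have hc0 : c ∈ v0.asIdeal := by
      by_contra hcon
      exact hv0 (h v0 hcon)
    obtain ⟨h1, h2⟩ := hprime v0 hc0
    intro w
    rw [map_mul]
    by_cases hw : c ∈ w.asIdeal
    · rw [h2 w hw]
      exact isSquare_mul_of_not h1 hv0
    · rw [val_eq_one w hw, one_mul]
      exact h w hw

/-- The element 2 of the completion. -/
theorem algebraMap_two (v : HeightOneSpectrum (𝓞 K)) :
    algebraMap K (v.adicCompletion K) 2 = 2 := map_ofNat _ 2

/-- A coprimality consequence. -/
theorem notMem_of_isCoprime {a b : 𝓞 K} (h : IsCoprime a b) (v : HeightOneSpectrum (𝓞 K))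
    (hb : b ∈ v.asIdeal) : a ∉ v.asIdeal := by
  intro ha
  obtain ⟨x, y, hxy⟩ := h
  apply v.isPrime.ne_top
  rw [Ideal.eq_top_iff_one, ← hxy]
  exact v.asIdeal.add_mem (v.asIdeal.mul_mem_left _ ha) (v.asIdeal.mul_mem_left _ hb)

/-- Even valuations on the first side. -/
theorem sideA_val (a c r : 𝓞 K) (h4 : 4 ∣ a - r ^ 2) (ha : IsCoprime a 2) (hc : IsCoprime c 2)
    (d : K) (hd : d ≠ 0) (v : HeightOneSpectrum (𝓞 K))
    (h : HasPoint (algebraMap K (v.adicCompletion K) (algebraMap (𝓞 K) K a))
      (algebraMap K (v.adicCompletion K) (algebraMap (𝓞 K) K (16 * c)))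
      (algebraMap K (v.adicCompletion K) d)) (hcv : c ∉ v.asIdeal) :
    IsSquare (v.valuation K d) := by
  have hd' : algebraMap K (v.adicCompletion K) d ≠ 0 := by
    simpa using hd
  have vc : v.valuation K (algebraMap (𝓞 K) K c) = 1 := val_eq_one v hcv
  have h16 : algebraMap K (v.adicCompletion K) (algebraMap (𝓞 K) K (16 * c)) =
      16 * algebraMap K (v.adicCompletion K) (algebraMap (𝓞 K) K c) := by
    rw [map_mul, map_mul, map_ofNat, map_ofNat]
  rw [← val_completion]
  by_cases h2v : (2 : 𝓞 K) ∈ v.asIdeal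
  · rw [h16] at h
    have hav : a ∉ v.asIdeal := notMem_of_isCoprime ha v h2v
    have h4v : a - r ^ 2 ∈ v.asIdeal := by
      obtain ⟨k, hk⟩ := h4
      rw [hk, show (4 : 𝓞 K) * k = 2 * k * 2 by ring]
      exact v.asIdeal.mul_mem_left _ h2v
    have hrv : r ∉ v.asIdeal := by
      intro hr
      apply hav
      have : a = (a - r ^ 2) + r * r := by ring
      rw [this]
      exact v.asIdeal.add_mem h4v (v.asIdeal.mul_mem_left _ hr)
    refine isSquare_two (Valued.v : Valuation (v.adicCompletion K) _)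
      (algebraMap K (v.adicCompletion K) (algebraMap (𝓞 K) K a))
      (algebraMap K (v.adicCompletion K) (algebraMap (𝓞 K) K c))
      (algebraMap K (v.adicCompletion K) (algebraMap (𝓞 K) K r)) _ ?_ ?_ ?_ ?_ ?_ hd' ?_ h
    · rw [← algebraMap_two v, val_completion, ← map_ofNat (algebraMap (𝓞 K) K) 2,
        v.valuation_lt_one_iff_mem]
      exact h2v
    · rw [val_completion]; exact val_eq_one v hav
    · rw [val_completion]; exact vc
    · rw [val_completion]; exact val_eq_one v hrv
    · rw [← map_pow, ← map_pow, ← map_sub, ← map_sub, val_completion]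
      refine (val_le_of_four_dvd v h4).trans ?_
      rw [← algebraMap_two v, val_completion, ← map_pow]
      norm_num
    · rw [← algebraMap_two v]
      simp
  · have v2 : v.valuation K 2 = 1 := by
      rw [← map_ofNat (algebraMap (𝓞 K) K) 2]
      exact val_eq_one v h2v
    refine isSquare_away (Valued.v : Valuation (v.adicCompletion K) _) _ _ _ hd' ?_ ?_ h
    · rw [val_completion]
      exact v.valuation_le_one a
    · rw [val_completion, map_mul, map_mul, vc, mul_one, map_ofNat,
        show (16 : K) = 2 ^ 4 by norm_num, map_pow, v2, one_pow]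

/-- Even valuations on the second side. -/
theorem sideB_val (a c : 𝓞 K) (d : K) (hd : d ≠ 0) (v : HeightOneSpectrum (𝓞 K))
    (h : HasPoint (algebraMap K (v.adicCompletion K) (algebraMap (𝓞 K) K (-2 * a)))
      (algebraMap K (v.adicCompletion K) (algebraMap (𝓞 K) K (a ^ 2 - 64 * c)))
      (algebraMap K (v.adicCompletion K) d)) (hbv : a ^ 2 - 64 * c ∉ v.asIdeal) :
    IsSquare (v.valuation K d) := by
  have hd' : algebraMap K (v.adicCompletion K) d ≠ 0 := by
    simpa using hd
  rw [← val_completion]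
  refine isSquare_away (Valued.v : Valuation (v.adicCompletion K) _) _ _ _ hd' ?_ ?_ h
  · rw [val_completion]
    exact v.valuation_le_one _
  · rw [val_completion]
    exact val_eq_one v hbv

/-- Squares mod 4 at the places above 2, second side. -/
theorem sideB_two (a c r : 𝓞 K) (h4 : 4 ∣ a - r ^ 2) (ha : IsCoprime a 2)
    (d : K) (hd : d ≠ 0) (v : HeightOneSpectrum (𝓞 K)) (h2v : (2 : 𝓞 K) ∈ v.asIdeal)
    (h : HasPoint (algebraMap K (v.adicCompletion K) (algebraMap (𝓞 K) K (-2 * a)))
      (algebraMap K (v.adicCompletion K) (algebraMap (𝓞 K) K (a ^ 2 - 64 * c)))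
      (algebraMap K (v.adicCompletion K) d)) :
    ∃ g : v.adicCompletion K, Valued.v (algebraMap K (v.adicCompletion K) d - g ^ 2) ≤
      v.valuation K 4 * v.valuation K d := by
  have hd' : algebraMap K (v.adicCompletion K) d ≠ 0 := by
    simpa using hd
  have h2 : (Valued.v (2 : v.adicCompletion K)) ^ 2 = v.valuation K 4 := by
    rw [← algebraMap_two v, val_completion, ← map_pow]
    norm_num
  have e1 : algebraMap K (v.adicCompletion K) (algebraMap (𝓞 K) K (-2 * a)) =
      -2 * algebraMap K (v.adicCompletion K) (algebraMap (𝓞 K) K a) := by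
    rw [map_mul, map_mul, map_neg, map_neg, map_ofNat, map_ofNat]
  have e2 : algebraMap K (v.adicCompletion K) (algebraMap (𝓞 K) K (a ^ 2 - 64 * c)) =
      algebraMap K (v.adicCompletion K) (algebraMap (𝓞 K) K a) ^ 2 -
        64 * algebraMap K (v.adicCompletion K) (algebraMap (𝓞 K) K c) := by
    rw [map_sub, map_sub, map_mul, map_mul, map_pow, map_pow, map_ofNat, map_ofNat]
  rw [e1, e2] at h
  rw [← h2, ← val_completion v d]
  refine sq_mod_four (Valued.v : Valuation (v.adicCompletion K) _)
    (algebraMap K (v.adicCompletion K) (algebraMap (𝓞 K) K a))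
    (algebraMap K (v.adicCompletion K) (algebraMap (𝓞 K) K c))
    (algebraMap K (v.adicCompletion K) (algebraMap (𝓞 K) K r)) _ ?_ ?_ ?_ ?_ hd' h
  · rw [← algebraMap_two v, val_completion, ← map_ofNat (algebraMap (𝓞 K) K) 2,
      v.valuation_lt_one_iff_mem]
    exact h2v
  · rw [val_completion]; exact val_eq_one v (notMem_of_isCoprime ha v h2v)
  · rw [val_completion]; exact v.valuation_le_one _
  · rw [h2, ← map_pow, ← map_pow, ← map_sub, ← map_sub, val_completion]
    exact val_le_of_four_dvd v h4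

end Pool.Agent.MP009fd8S
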