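import Pool.Agent.Lib.MP_009fd8_agS.Def

/-!
MP_009fd8_ag, 2-isogeny descent on y^2 = x (x^2 + a x + 16 c): local lemmas over a valued field
and over the reals.
-/

namespace Pool.Agent.MP009fd8S

theorem HasPoint.map {F G : Type*} [Field F] [Field G] (f : F →+* G) {A B d : F}
    (h : HasPoint A B d) : HasPoint (f A) (f B) (f d) := by
  obtain ⟨M, e, N, hne, h1⟩ := h
  refine ⟨f M, f e, f N, ?_, ?_⟩
  · rcases hne with h | h
    · exact Or.inl (by simpa using h)
    · exact Or.inr (by simpa using h)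
  · simpa using congrArg f h1

/-- Classes of squares have a point. -/
theorem hasPoint_sq {F : Type*} [Field F] (A B s : F) :
    HasPoint A B (s ^ 2) :=
  ⟨1, 0, s, Or.inl one_ne_zero, by ring⟩

/-- The class of B has a point. -/
theorem hasPoint_mul_sq {F : Type*} [Field F] (A B k c s : F) (hs : s ≠ 0) (hB : B = k ^ 2 * c) :
    HasPoint A B (c * s ^ 2) := by
  refine ⟨0, 1, k / s, Or.inr one_ne_zero, ?_⟩
  rw [hB]
  field_simp
  ring

section Valued

variable {F : Type*} [Field F] {Γ : Type*} [LinearOrderedCommGroupWithZero Γ] (v : Valuation F Γ)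

private theorem sq_aux {x s r : Γ} (h : x * s = r) (hs : s ≠ 0) (h1 : IsSquare s)
    (h2 : IsSquare r) : IsSquare x := by
  have e : x = r / s := eq_div_of_mul_eq hs h
  rw [e]
  exact h2.div h1

/-- Away from the constant term: even valuations. -/
theorem isSquare_away (A B d : F) (hd : d ≠ 0) (hA : v A ≤ 1) (hB : v B = 1)
    (h : HasPoint A B d) : IsSquare (v d) := by
  obtain ⟨M, e, N, hne, h1⟩ := h
  have vd : v d ≠ 0 := (Valuation.ne_zero_iff v).2 hd
  have hsq : ∀ x : Γ, IsSquare (x ^ 2) := fun x => IsSquare.sq x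
  have eL : v (d * N ^ 2) = v d * v N ^ 2 := by rw [map_mul, map_pow]
  have e1 : v (d ^ 2 * M ^ 4) = (v d * v M ^ 2) ^ 2 := by
    rw [map_mul, map_pow, map_pow, mul_pow, ← pow_mul]
  have e3 : v (B * e ^ 4) = (v e ^ 2) ^ 2 := by
    rw [map_mul, hB, one_mul, map_pow, ← pow_mul]
  have e2 : v (A * d * M ^ 2 * e ^ 2) ≤ (v d * v M ^ 2) * v e ^ 2 := by
    rw [map_mul, map_mul, map_mul, map_pow, map_pow, mul_assoc (v A), mul_assoc (v A)]
    calc v A * (v d * v M ^ 2 * v e ^ 2) ≤ 1 * (v d * v M ^ 2 * v e ^ 2) := by gcongr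
      _ = _ := one_mul _
  rcases lt_trichotomy (v d * v M ^ 2) (v e ^ 2) with hlt | heq | hgt
  · -- the last term dominates
    have he0 : v e ^ 2 ≠ 0 := (lt_of_le_of_lt zero_le hlt).ne'
    have hepos : 0 < v e ^ 2 := lt_of_le_of_lt zero_le hlt
    have hR : v (d ^ 2 * M ^ 4 + A * d * M ^ 2 * e ^ 2 + B * e ^ 4) = (v e ^ 2) ^ 2 := by
      rw [← e3]
      apply Valuation.map_add_eq_of_lt_right
      rw [e3]
      refine Valuation.map_add_lt v ?_ (lt_of_le_of_lt e2 ?_)
      · rw [e1]; exact pow_lt_pow_left₀ hlt zero_le two_ne_zero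
      · rw [pow_two (v e ^ 2)]; exact mul_lt_mul_of_pos_right hlt hepos
    rw [← h1, eL] at hR
    have hN : v N ^ 2 ≠ 0 := by
      intro h0
      rw [h0, mul_zero] at hR
      exact pow_ne_zero 2 he0 hR.symm
    exact sq_aux hR hN (hsq _) (hsq _)
  · -- equality
    have he0 : v M ^ 2 ≠ 0 := by
      intro h0
      have hM0 : v M = 0 := pow_eq_zero_iff two_ne_zero |>.1 h0
      rw [h0, mul_zero] at heq
      have he0 : v e = 0 := pow_eq_zero_iff two_ne_zero |>.1 heq.symm
      rcases hne with h | h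
      · exact h ((Valuation.zero_iff v).1 hM0)
      · exact h ((Valuation.zero_iff v).1 he0)
    exact sq_aux heq he0 (hsq _) (hsq _)
  · -- the first term dominates
    have hdpos : 0 < v d * v M ^ 2 := lt_of_le_of_lt zero_le hgt
    have hR : v (d ^ 2 * M ^ 4 + A * d * M ^ 2 * e ^ 2 + B * e ^ 4) = (v d * v M ^ 2) ^ 2 := by
      rw [← e1, add_assoc]
      apply Valuation.map_add_eq_of_lt_left
      rw [e1]
      refine Valuation.map_add_lt v (lt_of_le_of_lt e2 ?_) ?_
      · rw [pow_two (v d * v M ^ 2)]; exact mul_lt_mul_of_pos_left hgt hdpos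
      · rw [e3]; exact pow_lt_pow_left₀ hgt zero_le two_ne_zero
    rw [← h1, eL, mul_pow, ← pow_mul] at hR
    have hM0 : v M ^ (2 * 2) ≠ 0 := by
      intro h0
      have hM0 : v M = 0 := pow_eq_zero_iff (by norm_num) |>.1 h0
      rw [hM0, zero_pow two_ne_zero, mul_zero] at hdpos
      exact lt_irrefl _ hdpos
    have hR' : v d * v M ^ (2 * 2) = v N ^ 2 := by
      apply mul_left_cancel₀ vd
      rw [hR, pow_two (v d), mul_assoc]
    exact sq_aux hR' hM0 ⟨v M ^ 2, by rw [← pow_add]⟩ (hsq _)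

end Valued

/-- Over the reals: the class is positive. -/
theorem real_pos (a c d : ℝ) (hc : 0 < c) (hab : a < 0 ∨ a ^ 2 < 64 * c) (hd : d ≠ 0)
    (h : HasPoint a (16 * c) d) : 0 < d := by
  obtain ⟨M, e, N, hne, h1⟩ := h
  by_contra hneg
  have hd' : d < 0 := lt_of_le_of_ne (not_lt.mp hneg) hd
  have hN : d * N ^ 2 ≤ 0 := mul_nonpos_of_nonpos_of_nonneg hd'.le (sq_nonneg N)
  rw [h1] at hN
  have hM4 : 0 ≤ d ^ 2 * M ^ 4 := by positivity
  have he4 : 0 ≤ 16 * c * e ^ 4 := by positivity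
  have hpos : 0 < d ^ 2 * M ^ 4 + 16 * c * e ^ 4 := by
    rcases hne with h | h
    · have : 0 < d ^ 2 * M ^ 4 := by positivity
      linarith
    · have : 0 < 16 * c * e ^ 4 := by positivity
      linarith
  rcases hab with ha | ha
  · have h2 : 0 ≤ a * d * M ^ 2 * e ^ 2 := by
      have : 0 < a * d := mul_pos_of_neg_of_neg ha hd'
      positivity
    linarith
  · by_cases he : e = 0
    · subst he
      simp only [ne_eq, OfNat.ofNat_ne_zero, not_false_eq_true, zero_pow, mul_zero, add_zero] at hN hpos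
      linarith
    · have h3 : d ^ 2 * M ^ 4 + a * d * M ^ 2 * e ^ 2 + 16 * c * e ^ 4 =
          (d * M ^ 2 + a / 2 * e ^ 2) ^ 2 + (64 * c - a ^ 2) / 4 * e ^ 4 := by ring
      rw [h3] at hN
      have h4 : 0 < (64 * c - a ^ 2) / 4 * e ^ 4 := by
        have : 0 < 64 * c - a ^ 2 := by linarith
        positivity
      nlinarith [sq_nonneg (d * M ^ 2 + a / 2 * e ^ 2)]

end Pool.Agent.MP009fd8S
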