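import Pool.Agent.Lib.MP_009fd8_agS.Global

/-!
MP_009fd8_ag: an integer which is a square mod 4 in the completions above 2 is a square mod 4.
-/

namespace Pool.Agent.MP009fd8S

open IsDedekindDomain NumberField Pool.Agent.MP009fd8

variable {K : Type*} [Field K] [NumberField K]

/-- Local approximation by a square of an integer. -/
theorem exists_int_sq (v : HeightOneSpectrum (𝓞 K)) (u : 𝓞 K) (g : v.adicCompletion K)
    (hg : Valued.v (algebraMap K (v.adicCompletion K) (algebraMap (𝓞 K) K u) - g ^ 2) ≤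
      v.valuation K 4) :
    ∃ m : 𝓞 K, v.valuation K (algebraMap (𝓞 K) K (u - m ^ 2)) ≤ v.valuation K 4 := by
  have v4le : v.valuation K 4 ≤ 1 := by
    rw [← map_ofNat (algebraMap (𝓞 K) K) 4]; exact v.valuation_le_one _
  have v40 : 0 < v.valuation K 4 := by
    rw [zero_lt_iff, Valuation.ne_zero_iff]; norm_num
  have vu : Valued.v (algebraMap K (v.adicCompletion K) (algebraMap (𝓞 K) K u)) ≤ 1 := by
    rw [val_completion]; exact v.valuation_le_one _
  have hg1 : Valued.v g ≤ 1 := by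
    have h2 : Valued.v (g ^ 2) ≤ 1 := by
      have h3 : g ^ 2 = algebraMap K (v.adicCompletion K) (algebraMap (𝓞 K) K u) -
          (algebraMap K (v.adicCompletion K) (algebraMap (𝓞 K) K u) - g ^ 2) := by ring
      rw [h3]
      exact Valuation.map_sub_le _ vu (hg.trans v4le)
    rw [map_pow] at h2
    by_contra hcon
    exact absurd h2 (not_le.mpr (one_lt_pow₀ (not_le.mp hcon) two_ne_zero))
  obtain ⟨m, hm⟩ := exists_int_sub_lt v g hg1 _ v40
  refine ⟨m, ?_⟩
  have vm : Valued.v (algebraMap K (v.adicCompletion K) (algebraMap (𝓞 K) K m)) ≤ 1 := by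
    rw [val_completion]; exact v.valuation_le_one _
  rw [← val_completion, map_sub, map_sub, map_pow, map_pow]
  have e : algebraMap K (v.adicCompletion K) (algebraMap (𝓞 K) K u) -
      algebraMap K (v.adicCompletion K) (algebraMap (𝓞 K) K m) ^ 2 =
      (algebraMap K (v.adicCompletion K) (algebraMap (𝓞 K) K u) - g ^ 2) +
      (g - algebraMap K (v.adicCompletion K) (algebraMap (𝓞 K) K m)) *
        (g + algebraMap K (v.adicCompletion K) (algebraMap (𝓞 K) K m)) := by ring
  rw [e]
  refine Valuation.map_add_le _ hg ?_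
  rw [map_mul]
  have h5 : Valued.v (g + algebraMap K (v.adicCompletion K) (algebraMap (𝓞 K) K m)) ≤ 1 :=
    Valuation.map_add_le _ hg1 vm
  calc _ ≤ v.valuation K 4 * 1 := mul_le_mul' hm.le h5
    _ = _ := mul_one _

/-- The finitely many places above 2. -/
theorem finite_above_two : {v : HeightOneSpectrum (𝓞 K) | (2 : 𝓞 K) ∈ v.asIdeal}.Finite := by
  have h := Ideal.finite_factors (I := Ideal.span {(2 : 𝓞 K)}) (by simp)
  refine h.subset fun v hv => ?_
  rw [Set.mem_ofPred_eq] at hv ⊢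
  rw [Ideal.dvd_span_singleton]
  exact hv

/-- Valuations bounded by those of 4 everywhere: divisible by 4. -/
theorem four_dvd_of_forall (x : 𝓞 K)
    (h : ∀ v : HeightOneSpectrum (𝓞 K), v.valuation K (algebraMap (𝓞 K) K x) ≤ v.valuation K 4) :
    (4 : 𝓞 K) ∣ x := by
  have h1 : (algebraMap (𝓞 K) K x) / 4 ∈ (algebraMap (𝓞 K) K).range := by
    apply HeightOneSpectrum.mem_integers_of_valuation_le_one
    intro v
    have v40 : 0 < v.valuation K 4 := by
      rw [zero_lt_iff, Valuation.ne_zero_iff]; norm_num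
    rw [map_div₀]
    exact (div_le_one₀ v40).mpr (h v)
  obtain ⟨y, hy⟩ := h1
  refine ⟨y, ?_⟩
  apply FaithfulSMul.algebraMap_injective (𝓞 K) K
  rw [map_mul, map_ofNat, hy]
  field_simp

/-- A square mod 4 at all places above 2 is a square mod 4. -/
theorem exists_four_dvd (u : 𝓞 K)
    (h : ∀ v : HeightOneSpectrum (𝓞 K), (2 : 𝓞 K) ∈ v.asIdeal → ∃ g : v.adicCompletion K,
      Valued.v (algebraMap K (v.adicCompletion K) (algebraMap (𝓞 K) K u) - g ^ 2) ≤
        v.valuation K 4) :
    ∃ m : 𝓞 K, (4 : 𝓞 K) ∣ u - m ^ 2 := by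
  classical
  have h1 : ∀ v : HeightOneSpectrum (𝓞 K), ∃ m : 𝓞 K, (2 : 𝓞 K) ∈ v.asIdeal →
      v.valuation K (algebraMap (𝓞 K) K (u - m ^ 2)) ≤ v.valuation K 4 := by
    intro v
    by_cases hv : (2 : 𝓞 K) ∈ v.asIdeal
    · obtain ⟨g, hg⟩ := h v hv
      obtain ⟨m, hm⟩ := exists_int_sq v u g hg
      exact ⟨m, fun _ => hm⟩
    · exact ⟨0, fun h => absurd h hv⟩
  choose mv hmv using h1
  have h2 : ∀ v : HeightOneSpectrum (𝓞 K), ∃ n : ℕ,
      v.intValuation (4 : 𝓞 K) = WithZero.exp (-(n : ℤ)) := fun v =>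
    ⟨_, v.intValuation_eq_exp_neg_multiplicity (by norm_num)⟩
  choose ev hev using h2
  obtain ⟨m, hm⟩ := IsDedekindDomain.exists_forall_sub_mem_ideal
    (s := (finite_above_two (K := K)).toFinset)
    (fun v : HeightOneSpectrum (𝓞 K) => v.asIdeal) ev
    (fun v _ => v.prime) (fun v _ w _ hvw h => hvw (HeightOneSpectrum.ext h))
    (fun v => mv v.1)
  refine ⟨m, four_dvd_of_forall _ fun v => ?_⟩
  by_cases hv : (2 : 𝓞 K) ∈ v.asIdeal
  · have h3 := hm v (by simpa using hv)
    have h4 : v.valuation K (algebraMap (𝓞 K) K (m - mv v)) ≤ v.valuation K 4 := by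
      rw [← map_ofNat (algebraMap (𝓞 K) K) 4, HeightOneSpectrum.valuation_of_algebraMap,
        HeightOneSpectrum.valuation_of_algebraMap, hev,
        HeightOneSpectrum.intValuation_le_pow_iff_mem]
      exact h3
    have e : u - m ^ 2 = (u - mv v ^ 2) - (m - mv v) * (m + mv v) := by ring
    rw [e, map_sub]
    refine Valuation.map_sub_le _ (hmv v hv) ?_
    rw [map_mul, map_mul]
    calc _ ≤ v.valuation K 4 * 1 := mul_le_mul' h4 (v.valuation_le_one _)
      _ = _ := mul_one _
  · have v2 : v.valuation K 4 = 1 := by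
      rw [show (4 : K) = 2 ^ 2 by norm_num, map_pow, ← map_ofNat (algebraMap (𝓞 K) K) 2,
        val_eq_one v hv, one_pow]
    rw [v2]
    exact v.valuation_le_one _

end Pool.Agent.MP009fd8S
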